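import Pool.Agent.Helper97.LogFPP.U.Paths

set_option autoImplicit false
set_option maxHeartbeats 400000

open MeasureTheory ProbabilityTheory Set Filter Topology
open scoped NNReal ENNReal RealInnerProductSpace

namespace Pool.Agent.Helper97.LogFPP

variable {d : ℕ}

/-- lower bound for all parts of paths in a ball -/
def Low (ξ : ℝ) (f : Pt d → ℝ) (y : Pt d) (Rad ρ Λ S : ℝ) : Prop :=
  ∀ γ : ℝ → Pt d, PC γ → ∀ (N : ℕ) (t : ℕ → ℝ), 0 ≤ t 0 → t N ≤ 1 →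
    (∀ i < N, t i ≤ t (i + 1)) →
    (∀ i < N, ‖γ (t (i + 1)) - γ (t i)‖ = ρ) →
    (∀ s ∈ Icc (t 0) (t N), ‖γ s - y‖ ≤ Rad) →
    Real.exp (-Λ) * (3 / 4 * (N * ρ) + 1 / 4 * ‖γ (t N) - γ (t 0)‖ - S) ≤
      cst (fun x => Real.exp (ξ * f x)) γ (t 0) (t N)

/-- the dual function in direction `e` -/
def Dual (ξ : ℝ) (Φ : Pt d → ℝ) (Z : Set (Pt d)) (ρ Lv ε3 : ℝ) (e : Pt d) (V : Pt d → ℝ) : Prop :=
  ∀ z ∈ Z, ∀ z' ∈ Z, ‖z' - z‖ ≤ ρ →
    |ξ * Φ z * ⟪z' - z, e⟫ - (V z' - V z)| ≤ Lv * ‖(z' - z) - ⟪z' - z, e⟫ • e‖ + ε3 * ρ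

theorem exists_dir (v : Pt d) : ∃ e1 : Pt d, ‖e1‖ ≤ 1 ∧ ⟪v, e1⟫ = ‖v‖ := by
  by_cases hv : v = 0
  · exact ⟨0, by simp, by simp [hv]⟩
  · have hn : ‖v‖ ≠ 0 := norm_ne_zero_iff.2 hv
    refine ⟨‖v‖⁻¹ • v, ?_, ?_⟩
    · rw [norm_smul, norm_inv, norm_norm, inv_mul_cancel₀ hn]
    · rw [inner_smul_right, real_inner_self_eq_norm_sq]
      field_simp

theorem mono_of_le {N : ℕ} {t : ℕ → ℝ} (h : ∀ i < N, t i ≤ t (i + 1)) {i j : ℕ} (hij : i ≤ j)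
    (hj : j ≤ N) : t i ≤ t j := by
  induction j, hij using Nat.le_induction with
  | base => exact le_rfl
  | succ k hk ih => exact (ih (by omega)).trans (h k (by omega))

theorem PC.cst_sum {γ : ℝ → Pt d} (h : PC γ) {g : Pt d → ℝ} (hg : Continuous g) {t : ℕ → ℝ}
    {M : ℕ} (h0 : 0 ≤ t 0) (hM : t M ≤ 1) (hm : ∀ i < M, t i ≤ t (i + 1)) {a b : ℕ} (hab : a ≤ b)
    (hb : b ≤ M) :
    ∑ i ∈ Finset.Ico a b, cst g γ (t i) (t (i + 1)) = cst g γ (t a) (t b) := by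
  induction b, hab using Nat.le_induction with
  | base => simp [cst]
  | succ k hk ih =>
    rw [Finset.sum_Ico_succ_top hk, ih (by omega)]
    have h1 : 0 ≤ t a := h0.trans (mono_of_le hm (Nat.zero_le a) (by omega))
    have h2 : t a ≤ t k := mono_of_le hm hk (by omega)
    have h3 : t k ≤ t (k + 1) := hm k (by omega)
    have h4 : t (k + 1) ≤ 1 := (mono_of_le hm hb le_rfl).trans hM
    exact h.cst_add hg h1 h2 h3 h4

theorem abs_exp_sub_le {x y E : ℝ} (hx : Real.exp x ≤ E) (hy : Real.exp y ≤ E) :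
    |Real.exp x - Real.exp y| ≤ E * |x - y| := by
  wlog h : y ≤ x generalizing x y with H
  · rw [abs_sub_comm, abs_sub_comm x y]
    exact H hy hx (le_of_not_ge h)
  have h1 : Real.exp y = Real.exp x * Real.exp (-(x - y)) := by
    rw [← Real.exp_add]; congr 1; ring
  have h2 : 1 - (x - y) ≤ Real.exp (-(x - y)) := by
    have := Real.add_one_le_exp (-(x - y)); linarith
  have h3 : Real.exp y ≤ Real.exp x := Real.exp_le_exp.2 h
  rw [abs_of_nonneg (by linarith), abs_of_nonneg (by linarith), h1]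
  have h4 := Real.exp_pos x
  nlinarith

/-- the transversal part of a step -/
theorem perp_bound {Δ e : Pt d} {ρ Lv : ℝ} (he : ‖e‖ = 1) (hρ : 0 < ρ) (hΔ : ‖Δ‖ = ρ) :
    Lv * ‖Δ - ⟪Δ, e⟫ • e‖ ≤ 1 / 8 * (ρ - ⟪Δ, e⟫) + 4 * Lv ^ 2 * ρ := by
  set x := ⟪Δ, e⟫ with hx
  have h1 : ‖Δ - x • e‖ ^ 2 = ρ ^ 2 - x ^ 2 := by
    rw [norm_sub_sq_real, inner_smul_right, ← hx, norm_smul, he, hΔ, mul_one,
      Real.norm_eq_abs, sq_abs]
    ring
  have h2 : |x| ≤ ρ := by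
    have := abs_real_inner_le_norm Δ e
    rwa [he, mul_one, hΔ] at this
  have h3 := abs_le.1 h2
  set y := ‖Δ - x • e‖ with hy
  have hy0 : 0 ≤ y := norm_nonneg _
  -- `Lv y ≤ y²/(16 ρ) + 4 Lv² ρ`
  have h4 : Lv * y * ρ ≤ 1 / 16 * y ^ 2 + 4 * Lv ^ 2 * ρ ^ 2 := by
    nlinarith [sq_nonneg (1 / 4 * y - 2 * Lv * ρ)]
  have h5 : 1 / 16 * y ^ 2 ≤ 1 / 8 * (ρ - x) * ρ := by
    rw [h1]
    nlinarith
  have h6 : Lv * y * ρ ≤ (1 / 8 * (ρ - x) + 4 * Lv ^ 2 * ρ) * ρ := by nlinarith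
  exact le_of_mul_le_mul_right h6 hρ

section medium
variable {ξ : ℝ} {f Φ : Pt d → ℝ} {Z : Set (Pt d)} {ρ η ω Lv ε3 : ℝ} {e : Pt d} {V : Pt d → ℝ}
  {y : Pt d} {Rf Λ Sf : ℝ} {γ : ℝ → Pt d} {a b : ℝ}

theorem V_step (hρ : 0 < ρ) (hη0 : 0 ≤ η) (hLv : 0 ≤ Lv) (hε3 : 0 ≤ ε3) (hL1 : η + Lv + ε3 ≤ 1)
    (small : ∀ z ∈ Z, |ξ * Φ z| ≤ η) (he : ‖e‖ = 1) (hV : Dual ξ Φ Z ρ Lv ε3 e V) {z z' : Pt d}
    (hz : z ∈ Z) (hz' : z' ∈ Z) (hzz : ‖z' - z‖ ≤ ρ) : |V z' - V z| ≤ ρ := by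
  have h1 := hV _ hz _ hz' hzz
  set B := ⟪z' - z, e⟫ with hB
  have h4 : |B| ≤ ρ := by
    have := abs_real_inner_le_norm (z' - z) e
    rw [he, mul_one] at this
    exact this.trans hzz
  have h5 : ‖z' - z - B • e‖ ≤ ρ := by
    have h6 : ‖z' - z - B • e‖ ^ 2 ≤ ρ ^ 2 := by
      rw [norm_sub_sq_real, inner_smul_right, ← hB, norm_smul, he, mul_one, Real.norm_eq_abs,
        sq_abs]
      have h7 : ‖z' - z‖ ^ 2 ≤ ρ ^ 2 := pow_le_pow_left₀ (norm_nonneg _) hzz 2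
      nlinarith [sq_nonneg B]
    exact (sq_le_sq₀ (norm_nonneg _) hρ.le).1 h6
  have h9 : |ξ * Φ z * B| ≤ η * ρ := by
    rw [abs_mul]
    exact mul_le_mul (small _ hz) h4 (abs_nonneg _) hη0
  have h10 : Lv * ‖z' - z - B • e‖ ≤ Lv * ρ := mul_le_mul_of_nonneg_left h5 hLv
  have h11 : |V z' - V z| ≤ |ξ * Φ z * B| + |ξ * Φ z * B - (V z' - V z)| := by
    have := abs_sub (ξ * Φ z * B) (ξ * Φ z * B - (V z' - V z))
    rwa [sub_sub_cancel] at this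
  nlinarith

theorem final_arith {P ρ L ε6 Pe Q Qe η X c0 SL W : ℝ} (hη0 : 0 ≤ η) (hη : η ≤ 1 / 8)
    (hρ : 0 < ρ) (hε60 : 0 ≤ ε6) (hε6 : ε6 ≤ 1 / 4) (hPL : P ≤ L)
    (hPe : Pe ≤ P) (hQ : Q ≤ P + ρ) (hQe : Qe ≤ Pe + ρ)
    (hε : ε6 * L = c0 * L + SL) (S V1 : ℝ) (hV1 : V1 ≤ X + ρ)
    (h6 : L - 1 / 4 * (1 + η) * (L - P) - (1 / 8 + η) * (L - Pe) - c0 * L + X ≤ W) :
    (3 / 4 - ε6) * Q + 1 / 4 * Qe + V1 - (2 * S + 2 * ρ) ≤ W - (2 * S + SL) := by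
  have hA0 : 0 ≤ 1 - 1 / 4 * (1 + η) - (1 / 8 + η) - ε6 := by linarith
  have f1 : (1 - 1 / 4 * (1 + η) - (1 / 8 + η) - ε6) * P ≤
      (1 - 1 / 4 * (1 + η) - (1 / 8 + η) - ε6) * L := mul_le_mul_of_nonneg_left hPL hA0
  have f2 : (3 / 4 - ε6) * Q ≤ (3 / 4 - ε6) * (P + ρ) :=
    mul_le_mul_of_nonneg_left hQ (by linarith)
  have f3 : (1 / 8 - η) * Pe ≤ (1 / 8 - η) * P := mul_le_mul_of_nonneg_left hPe (by linarith)
  have f4 : 0 ≤ ε6 * ρ := by positivity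
  nlinarith

theorem exp_eighth : Real.exp (1 / 8) ≤ 2 := by
  have := Real.exp_bound_div_one_sub_of_interval (x := 1 / 8) (by norm_num) (by norm_num)
  norm_num at this
  linarith

theorem step5_arith {ρ η ω Lv ε3 P A B c w dV pn : ℝ} (hη0 : 0 ≤ η) (hω0 : 0 ≤ ω)
    (hP : |P| ≤ η) (hA : |A| ≤ ρ) (hB : |B| ≤ ρ) (hc : c = 3 / 4 * ρ + 1 / 4 * A)
    (hw : 1 + (P - ω) ≤ w) (h3 : -(Lv * pn + ε3 * ρ) ≤ P * B - dV)
    (h4 : Lv * pn ≤ 1 / 8 * (ρ - B) + 4 * Lv ^ 2 * ρ) :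
    ρ - 1 / 4 * (1 + η) * (ρ - A) - (1 / 8 + η) * (ρ - B) - (ω + 4 * Lv ^ 2 + ε3) * ρ + dV ≤
      w * c := by
  have hAb := abs_le.1 hA
  have hBb := abs_le.1 hB
  have hPη := abs_le.1 hP
  have hc0 : 0 ≤ c := by rw [hc]; linarith
  have hc1 : c ≤ ρ := by rw [hc]; linarith
  have h2 : (1 + (P - ω)) * c ≤ w * c := mul_le_mul_of_nonneg_right hw hc0
  refine le_trans ?_ h2
  have ha1 : 0 ≤ ρ - B := by linarith
  have ha2 : 0 ≤ ρ - A := by linarith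
  have h7 : -(η * ((ρ - B) + 1 / 4 * (ρ - A))) ≤ P * ((ρ - B) - 1 / 4 * (ρ - A)) := by
    nlinarith
  have hci : c = B + ((ρ - B) - 1 / 4 * (ρ - A)) := by rw [hc]; ring
  have h8 : P * c = P * B + P * ((ρ - B) - 1 / 4 * (ρ - A)) := by rw [hci]; ring
  have h9 : ω * c ≤ ω * ρ := mul_le_mul_of_nonneg_left hc1 hω0
  have h10 : c = ρ - 1 / 4 * (ρ - A) := by rw [hc]; ring
  nlinarith

theorem medium (hf : Continuous f) (hΦ : Continuous Φ) (hρ : 0 < ρ) (hη0 : 0 ≤ η)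
    (hη : η ≤ 1 / 8) (hω0 : 0 ≤ ω) (hLv : 0 ≤ Lv) (hε3 : 0 ≤ ε3)
    (hSf : 0 ≤ Sf) (hε : ω + 4 * Lv ^ 2 + ε3 + 2 * ω * Sf / ρ ≤ 1 / 4) (hL1 : η + Lv + ε3 ≤ 1)
    (small : ∀ z ∈ Z, |ξ * Φ z| ≤ η)
    (osc : ∀ z ∈ Z, ∀ z' ∈ Z, ‖z' - z‖ ≤ ρ → |ξ * Φ z' - ξ * Φ z| ≤ ω)
    (he : ‖e‖ = 1) (hV : Dual ξ Φ Z ρ Lv ε3 e V) (hlow : Low ξ f y Rf ρ Λ Sf) (hγ : PC γ)
    (ha : 0 ≤ a) (hab : a ≤ b) (hb : b ≤ 1) (hZ : ∀ s ∈ Icc a b, γ s ∈ Z)
    (hy : ∀ s ∈ Icc a b, ‖γ s - y‖ ≤ Rf) :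
    (3 / 4 - (ω + 4 * Lv ^ 2 + ε3 + 2 * ω * Sf / ρ)) * ‖γ b - γ a‖ + 1 / 4 * ⟪γ b - γ a, e⟫ +
      (V (γ b) - V (γ a)) - (2 * Sf + 2 * ρ) ≤
      Real.exp Λ * cst (fun x => Real.exp (ξ * (Φ x + f x))) γ a b := by
  obtain ⟨M, t, e0, e1, e2, e3, e4, e5⟩ := exit_chain hab hρ
    (hγ.cont.mono (Icc_subset_Icc ha hb))
  set ε6 := ω + 4 * Lv ^ 2 + ε3 + 2 * ω * Sf / ρ with hε6
  have hmono : ∀ {i j : ℕ}, i ≤ j → j ≤ M → t i ≤ t j := fun hij hj => mono_of_le e1 hij hj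
  have hmem : ∀ i ≤ M, t i ∈ Icc a b := fun i hi =>
    ⟨e0 ▸ hmono (Nat.zero_le i) hi, (hmono hi le_rfl).trans e2⟩
  have hYZ : ∀ i ≤ M, γ (t i) ∈ Z := fun i hi => hZ _ (hmem i hi)
  set Δ : ℕ → Pt d := fun i => γ (t (i + 1)) - γ (t i) with hΔ
  have hΔn : ∀ i < M, ‖Δ i‖ = ρ := e3
  obtain ⟨e1', he1, hdir⟩ := exists_dir (γ (t M) - γ (t 0))
  have hsumΔ : ∀ {i j : ℕ}, i ≤ j → ∑ k ∈ Finset.Ico i j, Δ k = γ (t j) - γ (t i) := by
    intro i j hij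
    exact Finset.sum_Ico_sub (fun k => γ (t k)) hij
  set c : ℕ → ℝ := fun i => 3 / 4 * ρ + 1 / 4 * ⟪Δ i, e1'⟫ with hc
  have hin : ∀ i < M, |⟪Δ i, e1'⟫| ≤ ρ := by
    intro i hi
    have h1 := abs_real_inner_le_norm (Δ i) e1'
    rw [hΔn i hi] at h1
    nlinarith
  have hin2 : ∀ i < M, |⟪Δ i, e⟫| ≤ ρ := by
    intro i hi
    have h1 := abs_real_inner_le_norm (Δ i) e
    rwa [hΔn i hi, he, mul_one] at h1
  set G : Pt d → ℝ := fun x => Real.exp (ξ * (Φ x + f x)) with hG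
  have hGc : Continuous G := Real.continuous_exp.comp (continuous_const.mul (hΦ.add hf))
  set F : Pt d → ℝ := fun x => Real.exp (ξ * f x) with hF
  have hFc : Continuous F := Real.continuous_exp.comp (continuous_const.mul hf)
  set μ : ℕ → ℝ := fun i => cst F γ (t i) (t (i + 1)) with hμ
  set w : ℕ → ℝ := fun i => Real.exp (ξ * Φ (γ (t i)) - ω) with hw
  -- step 1
  have s1 : ∀ i < M, w i * μ i ≤ cst G γ (t i) (t (i + 1)) := by
    intro i hi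
    apply hγ.cst_mul_le hGc hFc (ha.trans (hmem i hi.le).1) (e1 i hi)
      ((hmem (i + 1) hi).2.trans hb)
    intro s hs
    have hsab : s ∈ Icc a b := ⟨(hmem i hi.le).1.trans hs.1, hs.2.trans (hmem (i + 1) hi).2⟩
    simp only [hw, hF, hG]
    rw [← Real.exp_add]
    apply Real.exp_le_exp.2
    have h1 := osc _ (hYZ i hi.le) _ (hZ s hsab) (e4 i hi s hs)
    have h2 := (abs_le.1 h1).1
    linarith
  -- step 2
  have s2 : ∑ i ∈ Finset.range M, cst G γ (t i) (t (i + 1)) ≤ cst G γ a b := by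
    rw [Finset.range_eq_Ico, hγ.cst_sum hGc (by rw [e0]; exact ha) (e2.trans hb) e1
      (Nat.zero_le M) le_rfl, e0]
    rw [← hγ.cst_add hGc ha (hmem M le_rfl).1 e2 hb]
    have := cst_nonneg (g := G) (fun x => (Real.exp_pos _).le) γ e2
    linarith
  -- step 3
  have s3 : ∀ i j, i ≤ j → j ≤ M →
      -(Real.exp (-Λ) * Sf) ≤ ∑ k ∈ Finset.Ico i j, (μ k - Real.exp (-Λ) * c k) := by
    intro i j hij hj
    rw [Finset.sum_sub_distrib, ← Finset.mul_sum]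
    have h1 : ∑ k ∈ Finset.Ico i j, μ k = cst F γ (t i) (t j) :=
      hγ.cst_sum hFc (by rw [e0]; exact ha) (e2.trans hb) e1 hij hj
    rw [h1]
    have h2 := hlow γ hγ (j - i) (fun k => t (i + k)) (by
        simp only [add_zero]; exact ha.trans (hmem i (hij.trans hj)).1) (by
        simp only [Nat.add_sub_cancel' hij]; exact (hmem j hj).2.trans hb)
      (fun k hk => by
        have := e1 (i + k) (by omega)
        simpa [add_assoc] using this)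
      (fun k hk => by
        have := e3 (i + k) (by omega)
        simpa [add_assoc] using this)
      (fun s hs => by
        simp only [add_zero, Nat.add_sub_cancel' hij] at hs
        exact hy s ⟨(hmem i (hij.trans hj)).1.trans hs.1, hs.2.trans (hmem j hj).2⟩)
    simp only [add_zero, Nat.add_sub_cancel' hij] at h2
    have h3 : ∑ k ∈ Finset.Ico i j, c k =
        3 / 4 * (((j - i : ℕ) : ℝ) * ρ) + 1 / 4 * ⟪γ (t j) - γ (t i), e1'⟫ := by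
      have h9 : ∑ k ∈ Finset.Ico i j, 1 / 4 * ⟪Δ k, e1'⟫ = 1 / 4 * ⟪γ (t j) - γ (t i), e1'⟫ := by
        rw [← Finset.mul_sum, ← sum_inner, hsumΔ hij]
      simp only [hc]
      rw [Finset.sum_add_distrib, h9, Finset.sum_const, Nat.card_Ico, nsmul_eq_mul]
      ring
    have h4 : ⟪γ (t j) - γ (t i), e1'⟫ ≤ ‖γ (t j) - γ (t i)‖ := by
      have h5 := real_inner_le_norm (γ (t j) - γ (t i)) e1'
      have h6 := norm_nonneg (γ (t j) - γ (t i))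
      nlinarith
    rw [h3]
    have h7 := Real.exp_pos (-Λ)
    have h8 : Real.exp (-Λ) * (3 / 4 * (((j - i : ℕ) : ℝ) * ρ) + 1 / 4 * ⟪γ (t j) - γ (t i), e1'⟫)
        ≤ Real.exp (-Λ) * (3 / 4 * (((j - i : ℕ) : ℝ) * ρ) + 1 / 4 * ‖γ (t j) - γ (t i)‖) := by
      apply mul_le_mul_of_nonneg_left _ h7.le
      linarith
    linarith
  -- step 4
  have hw2 : ∀ i ≤ M, w i ≤ 2 := by
    intro i hi
    refine le_trans (Real.exp_le_exp.2 ?_) exp_eighth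
    have := (abs_le.1 (small _ (hYZ i hi))).2
    linarith
  have s4 := abel_bound M (fun k => μ k - Real.exp (-Λ) * c k) w (σ0 := Real.exp (-Λ) * Sf)
    (W := 2) (v := 2 * ω) (mul_nonneg (Real.exp_pos _).le hSf) (by positivity) (by norm_num) s3
    (fun i _ => (Real.exp_pos _).le) (fun i hi => hw2 i hi.le)
    (fun i hi => by
      have h1 := abs_exp_sub_le (hw2 (i + 1) hi.le) (hw2 i (by omega))
      refine h1.trans ?_
      have h2 := osc _ (hYZ i (by omega)) _ (hYZ (i + 1) hi.le) (e3 i (by omega)).le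
      have h3 : (ξ * Φ (γ (t (i + 1))) - ω) - (ξ * Φ (γ (t i)) - ω) =
          ξ * Φ (γ (t (i + 1))) - ξ * Φ (γ (t i)) := by ring
      rw [h3]
      linarith)
  -- step 5: the linear lower bound of the weights
  have hcn : ∀ i < M, 0 ≤ c i ∧ c i ≤ ρ := by
    intro i hi
    have := abs_le.1 (hin i hi)
    simp only [hc]
    constructor <;> linarith
  have s5 : ∀ i < M, ρ - 1 / 4 * (1 + η) * (ρ - ⟪Δ i, e1'⟫) - (1 / 8 + η) * (ρ - ⟪Δ i, e⟫) -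
      (ω + 4 * Lv ^ 2 + ε3) * ρ + (V (γ (t (i + 1))) - V (γ (t i))) ≤ w i * c i := by
    intro i hi
    have h1 : 1 + (ξ * Φ (γ (t i)) - ω) ≤ w i := by
      have := Real.add_one_le_exp (ξ * Φ (γ (t i)) - ω)
      simp only [hw]; linarith
    have h3 := hV _ (hYZ i hi.le) _ (hYZ (i + 1) hi) (e3 i hi).le
    exact step5_arith hη0 hω0 (small _ (hYZ i hi.le)) (hin i hi) (hin2 i hi) rfl h1
      (abs_le.1 h3).1 (perp_bound (Lv := Lv) he hρ (hΔn i hi))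
  -- sum
  set L : ℝ := M * ρ with hL
  have hL0 : 0 ≤ L := by positivity
  have hPn : ‖γ (t M) - γ (t 0)‖ ≤ L := by
    rw [← hsumΔ (Nat.zero_le M)]
    refine (norm_sum_le _ _).trans ?_
    rw [hL, ← nsmul_eq_mul]
    have h1 : ∑ i ∈ Finset.Ico 0 M, ‖Δ i‖ = ∑ i ∈ Finset.Ico 0 M, ρ :=
      Finset.sum_congr rfl fun i hi => hΔn i (Finset.mem_Ico.1 hi).2
    rw [h1, Finset.sum_const, Nat.card_Ico, Nat.sub_zero]
  set P := ‖γ (t M) - γ (t 0)‖ with hPdef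
  set Pe := ⟪γ (t M) - γ (t 0), e⟫ with hPe
  have hPe1 : Pe ≤ P := by
    have := real_inner_le_norm (γ (t M) - γ (t 0)) e
    rwa [he, mul_one] at this
  have s6 : L - 1 / 4 * (1 + η) * (L - P) - (1 / 8 + η) * (L - Pe) -
      (ω + 4 * Lv ^ 2 + ε3) * L + (V (γ (t M)) - V (γ (t 0))) ≤
      ∑ i ∈ Finset.range M, w i * c i := by
    have h1 := Finset.sum_le_sum (fun i hi => s5 i (Finset.mem_range.1 hi))
    refine le_trans (le_of_eq ?_) h1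
    have h2 : ∑ i ∈ Finset.range M, ⟪Δ i, e1'⟫ = P := by
      rw [← sum_inner, Finset.range_eq_Ico, hsumΔ (Nat.zero_le M), hdir]
    have h3 : ∑ i ∈ Finset.range M, ⟪Δ i, e⟫ = Pe := by
      rw [← sum_inner, Finset.range_eq_Ico, hsumΔ (Nat.zero_le M)]
    have h4 : ∑ i ∈ Finset.range M, (V (γ (t (i + 1))) - V (γ (t i))) = V (γ (t M)) - V (γ (t 0)) :=
      Finset.sum_range_sub (fun k => V (γ (t k))) M
    rw [Finset.sum_add_distrib, Finset.sum_sub_distrib, Finset.sum_sub_distrib,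
      Finset.sum_sub_distrib, ← Finset.mul_sum, ← Finset.mul_sum, Finset.sum_sub_distrib,
      Finset.sum_sub_distrib, Finset.sum_const, Finset.sum_const, Finset.card_range, h2, h3, h4,
      nsmul_eq_mul, nsmul_eq_mul]
    rw [hL]; ring
  -- total
  have s7 : Real.exp (-Λ) * (∑ i ∈ Finset.range M, w i * c i - Sf * (2 + M * (2 * ω))) ≤
      cst G γ a b := by
    refine le_trans ?_ ((Finset.sum_le_sum fun i hi => s1 i (Finset.mem_range.1 hi)).trans s2)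
    have h1 : ∑ i ∈ Finset.range M, w i * (μ i - Real.exp (-Λ) * c i) =
        ∑ i ∈ Finset.range M, w i * μ i - Real.exp (-Λ) * ∑ i ∈ Finset.range M, w i * c i := by
      rw [Finset.mul_sum, ← Finset.sum_sub_distrib]
      apply Finset.sum_congr rfl
      intro i _; ring
    rw [h1] at s4
    nlinarith
  have s8 : ∑ i ∈ Finset.range M, w i * c i - Sf * (2 + M * (2 * ω)) ≤ Real.exp Λ * cst G γ a b := by
    have h1 := mul_le_mul_of_nonneg_left s7 (Real.exp_pos Λ).le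
    rwa [← mul_assoc, ← Real.exp_add, add_neg_cancel, Real.exp_zero, one_mul] at h1
  refine le_trans ?_ s8
  have hSL : Sf * (M * (2 * ω)) = 2 * ω * Sf / ρ * L := by
    rw [hL]; field_simp
  -- convert the endpoint
  have hbM : ‖γ b - γ (t M)‖ ≤ ρ := e5 b ⟨e2, le_rfl⟩
  have hP1 : ‖γ b - γ a‖ ≤ P + ρ := by
    have : γ b - γ a = (γ (t M) - γ (t 0)) + (γ b - γ (t M)) := by rw [e0]; abel
    rw [this]
    exact (norm_add_le _ _).trans (by linarith)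
  have hP2 : ⟪γ b - γ a, e⟫ ≤ Pe + ρ := by
    have : γ b - γ a = (γ (t M) - γ (t 0)) + (γ b - γ (t M)) := by rw [e0]; abel
    rw [this, inner_add_left]
    have h1 := real_inner_le_norm (γ b - γ (t M)) e
    rw [he, mul_one] at h1
    linarith
  have hbZ : γ b ∈ Z := hZ b ⟨hab, le_rfl⟩
  have hV1 : V (γ b) - V (γ (t M)) ≤ ρ :=
    (le_abs_self _).trans (V_step hρ hη0 hLv hε3 hL1 small he hV (hYZ M le_rfl) hbZ hbM)
  have hVa : V (γ (t 0)) = V (γ a) := by rw [e0]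
  rw [hVa] at s6
  have hω6 : 0 ≤ 2 * ω * Sf / ρ := by positivity
  have hε60 : 0 ≤ ε6 := by positivity
  have f5 : ε6 * L = (ω + 4 * Lv ^ 2 + ε3) * L + 2 * ω * Sf / ρ * L := by rw [hε6]; ring
  have f6 := final_arith (X := V (γ (t M)) - V (γ a)) hη0 hη hρ hε60 hε hPn hPe1 hP1 hP2 f5 Sf
    (V (γ b) - V (γ a)) (by linarith) s6
  refine f6.trans (le_of_eq ?_)
  rw [mul_add, hSL]; ring

end medium

end Pool.Agent.Helper97.LogFPP
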