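import Pool.Agent.Helper97.LogFPP.U.Block

set_option autoImplicit false
set_option maxHeartbeats 400000

open MeasureTheory ProbabilityTheory Set Filter Topology
open scoped NNReal ENNReal RealInnerProductSpace

namespace Pool.Agent.Helper97.LogFPP

variable {d : ℕ}

/-- control of the coarse field of a block, numbers -/
structure BC (ρ η ω Lv ε3 Sf Rf ε6 : ℝ) : Prop where
  hρ : 0 < ρ
  hη0 : 0 ≤ η
  hη : η ≤ 1 / 8
  hω0 : 0 ≤ ω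
  hLv : 0 ≤ Lv
  hε3 : 0 ≤ ε3
  hSf : 0 ≤ Sf
  hRf : 0 < Rf
  hε6 : ε6 = ω + 4 * Lv ^ 2 + ε3 + 2 * ω * Sf / ρ
  hε : ε6 + (2 * Sf + 2 * ρ) / (Rf / 2) ≤ 1 / 4
  hL1 : η + Lv + ε3 ≤ 1

section
variable {ξ : ℝ} {f Φ : Pt d → ℝ} {Z : Set (Pt d)} {ρ η ω Lv ε3 : ℝ} {e : Pt d} {V : Pt d → ℝ}
  {Rf Λ Sf ε6 : ℝ} {γ : ℝ → Pt d}

theorem good_interval (B : BC ρ η ω Lv ε3 Sf Rf ε6) (hf : Continuous f) (hΦ : Continuous Φ)
    (small : ∀ z ∈ Z, |ξ * Φ z| ≤ η)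
    (osc : ∀ z ∈ Z, ∀ z' ∈ Z, ‖z' - z‖ ≤ ρ → |ξ * Φ z' - ξ * Φ z| ≤ ω)
    (he : ‖e‖ = 1) (hV : Dual ξ Φ Z ρ Lv ε3 e V) (hγ : PC γ) {α β : ℝ}
    (ha : 0 ≤ α) (hab : α ≤ β) (hb : β ≤ 1) (hZ : ∀ s ∈ Icc α β, γ s ∈ Z)
    (hgood : ∀ s ∈ Icc α β, ∃ y, (∀ z, ‖z - γ s‖ ≤ Rf / 2 → ‖z - y‖ ≤ Rf) ∧
      Low ξ f y Rf ρ Λ Sf) :
    (3 / 4 - (ε6 + (2 * Sf + 2 * ρ) / (Rf / 2))) * ‖γ β - γ α‖ + 1 / 4 * ⟪γ β - γ α, e⟫ +
      (V (γ β) - V (γ α)) - (2 * Sf + 2 * ρ) ≤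
      Real.exp Λ * cst (fun x => Real.exp (ξ * (Φ x + f x))) γ α β := by
  have hRf2 : 0 < Rf / 2 := by have := B.hRf; linarith
  have herr : 0 ≤ (2 * Sf + 2 * ρ) / (Rf / 2) := by
    have := B.hSf; have := B.hρ; positivity
  obtain ⟨M, t, e0, e1, e2, e3, e4, e5⟩ := exit_chain hab hRf2
    (hγ.cont.mono (Icc_subset_Icc ha hb))
  have hmem : ∀ i ≤ M, t i ∈ Icc α β := fun i hi =>
    ⟨e0 ▸ mono_of_le e1 (Nat.zero_le i) hi, (mono_of_le e1 hi le_rfl).trans e2⟩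
  set G : Pt d → ℝ := fun x => Real.exp (ξ * (Φ x + f x)) with hG
  have hGc : Continuous G := Real.continuous_exp.comp (continuous_const.mul (hΦ.add hf))
  have step : ∀ a b, α ≤ a → a ≤ b → b ≤ β → (∀ s ∈ Icc a b, ‖γ s - γ a‖ ≤ Rf / 2) →
      (3 / 4 - ε6) * ‖γ b - γ a‖ + 1 / 4 * ⟪γ b - γ a, e⟫ + (V (γ b) - V (γ a)) -
        (2 * Sf + 2 * ρ) ≤ Real.exp Λ * cst G γ a b := by
    intro a b h1 h2 h3 h4
    obtain ⟨y, hy1, hy2⟩ := hgood a ⟨h1, h2.trans h3⟩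
    have h5 := medium hf hΦ B.hρ B.hη0 B.hη B.hω0 B.hLv B.hε3 B.hSf
      (by rw [← B.hε6]; linarith [B.hε]) B.hL1 small osc he hV hy2 hγ (ha.trans h1) h2
      (h3.trans hb) (fun s hs => hZ s ⟨h1.trans hs.1, hs.2.trans h3⟩)
      (fun s hs => hy1 _ (h4 s hs))
    rw [← B.hε6] at h5
    exact h5
  have s1 : ∀ i < M, (3 / 4 - ε6) * (Rf / 2) + 1 / 4 * ⟪γ (t (i + 1)) - γ (t i), e⟫ +
      (V (γ (t (i + 1))) - V (γ (t i))) - (2 * Sf + 2 * ρ) ≤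
      Real.exp Λ * cst G γ (t i) (t (i + 1)) := by
    intro i hi
    have := step (t i) (t (i + 1)) (hmem i hi.le).1 (e1 i hi) (hmem (i + 1) hi).2 (e4 i hi)
    rwa [e3 i hi] at this
  have s2 := Finset.sum_le_sum (fun i hi => s1 i (Finset.mem_range.1 hi))
  have hsum : ∑ i ∈ Finset.range M, ⟪γ (t (i + 1)) - γ (t i), e⟫ = ⟪γ (t M) - γ α, e⟫ := by
    rw [← sum_inner, Finset.sum_range_sub (fun k => γ (t k)), e0]
  have hsumV : ∑ i ∈ Finset.range M, (V (γ (t (i + 1))) - V (γ (t i))) = V (γ (t M)) - V (γ α) := by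
    rw [Finset.sum_range_sub (fun k => V (γ (t k))), e0]
  have hc : ∑ i ∈ Finset.range M, cst G γ (t i) (t (i + 1)) = cst G γ α (t M) := by
    rw [Finset.range_eq_Ico, hγ.cst_sum hGc (by rw [e0]; exact ha) (e2.trans hb) e1
      (Nat.zero_le M) le_rfl, e0]
  have hsum4 : ∑ i ∈ Finset.range M, 1 / 4 * ⟪γ (t (i + 1)) - γ (t i), e⟫ =
      1 / 4 * ⟪γ (t M) - γ α, e⟫ := by rw [← Finset.mul_sum, hsum]
  have hcE : ∑ i ∈ Finset.range M, Real.exp Λ * cst G γ (t i) (t (i + 1)) =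
      Real.exp Λ * cst G γ α (t M) := by rw [← Finset.mul_sum, hc]
  rw [hcE, Finset.sum_sub_distrib, Finset.sum_add_distrib,
    Finset.sum_add_distrib, hsumV, hsum4, Finset.sum_const, Finset.sum_const,
    Finset.card_range, nsmul_eq_mul, nsmul_eq_mul] at s2
  have s3 := step (t M) β (hmem M le_rfl).1 e2 le_rfl e5
  have hadd := hγ.cst_add hGc ha (hmem M le_rfl).1 e2 hb
  rw [← hadd, mul_add]
  have hn1 : ‖γ (t M) - γ α‖ ≤ M * (Rf / 2) := by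
    rw [← e0, ← Finset.sum_range_sub (fun k => γ (t k))]
    refine (norm_sum_le _ _).trans ?_
    rw [← nsmul_eq_mul]
    have h1 : ∑ i ∈ Finset.range M, ‖γ (t (i + 1)) - γ (t i)‖ = ∑ i ∈ Finset.range M, Rf / 2 :=
      Finset.sum_congr rfl fun i hi => e3 i (Finset.mem_range.1 hi)
    rw [h1, Finset.sum_const, Finset.card_range]
  have hn2 : ‖γ β - γ α‖ ≤ ‖γ β - γ (t M)‖ + ‖γ (t M) - γ α‖ := by
    have : γ β - γ α = (γ β - γ (t M)) + (γ (t M) - γ α) := by abel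
    rw [this]; exact norm_add_le _ _
  have hin : ⟪γ β - γ α, e⟫ = ⟪γ β - γ (t M), e⟫ + ⟪γ (t M) - γ α, e⟫ := by
    have h1 : γ β - γ α = (γ β - γ (t M)) + (γ (t M) - γ α) := by abel
    rw [h1, inner_add_left]
  have hq : (2 * Sf + 2 * ρ) / (Rf / 2) * (Rf / 2) = 2 * Sf + 2 * ρ :=
    div_mul_cancel₀ _ hRf2.ne'
  set κ := (2 * Sf + 2 * ρ) / (Rf / 2) with hκ
  have hε := B.hε
  rw [← hκ] at hε
  have f1 : (3 / 4 - (ε6 + κ)) * ‖γ β - γ α‖ ≤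
      (3 / 4 - (ε6 + κ)) * (‖γ β - γ (t M)‖ + M * (Rf / 2)) :=
    mul_le_mul_of_nonneg_left (hn2.trans (by linarith)) (by linarith)
  have f2 : 0 ≤ κ * ‖γ β - γ (t M)‖ := mul_nonneg herr (norm_nonneg _)
  have f3 : (M : ℝ) * (2 * Sf + 2 * ρ) = κ * (M * (Rf / 2)) := by rw [← hq]; ring
  rw [hin]
  nlinarith

theorem V_far (B : BC ρ η ω Lv ε3 Sf Rf ε6) (hZc : Convex ℝ Z) (small : ∀ z ∈ Z, |ξ * Φ z| ≤ η)
    (he : ‖e‖ = 1) (hV : Dual ξ Φ Z ρ Lv ε3 e V) {z z' : Pt d} (hz : z ∈ Z) (hz' : z' ∈ Z) :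
    |V z' - V z| ≤ ‖z' - z‖ + ρ := by
  have hρ := B.hρ
  set n := ⌈‖z' - z‖ / ρ⌉₊ with hn
  have hn1 : (n : ℝ) < ‖z' - z‖ / ρ + 1 := Nat.ceil_lt_add_one (by positivity)
  have hn2 : ‖z' - z‖ / ρ ≤ n := Nat.le_ceil _
  rcases Nat.eq_zero_or_pos n with h0 | h0
  · have h1 : ‖z' - z‖ ≤ 0 := by
      rw [h0] at hn2
      rw [div_le_iff₀ hρ] at hn2
      simpa using hn2
    have h2 : z' = z := by
      rw [← sub_eq_zero, ← norm_eq_zero]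
      exact le_antisymm h1 (norm_nonneg _)
    rw [h2, sub_self, abs_zero]
    positivity
  have hn0 : (0 : ℝ) < n := by exact_mod_cast h0
  set p : ℕ → Pt d := fun i => z + ((i : ℝ) / n) • (z' - z) with hp
  have hpZ : ∀ i ≤ n, p i ∈ Z := by
    intro i hi
    have h1 : (i : ℝ) / n ≤ 1 := by
      rw [div_le_one hn0]; exact_mod_cast hi
    have := hZc.add_smul_sub_mem hz hz' ⟨by positivity, h1⟩
    exact this
  have hstep : ∀ i < n, |V (p (i + 1)) - V (p i)| ≤ ρ := by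
    intro i hi
    apply V_step hρ B.hη0 B.hLv B.hε3 B.hL1 small he hV (hpZ i hi.le) (hpZ (i + 1) hi)
    have h1 : p (i + 1) - p i = (1 / (n : ℝ)) • (z' - z) := by
      simp only [hp]; push_cast
      rw [add_div]
      module
    rw [h1, norm_smul, Real.norm_of_nonneg (by positivity), one_div, inv_mul_le_iff₀ hn0]
    rw [div_le_iff₀ hρ] at hn2
    linarith
  have h1 : V z' - V z = ∑ i ∈ Finset.range n, (V (p (i + 1)) - V (p i)) := by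
    rw [Finset.sum_range_sub (fun k => V (p k))]
    have e1 : p n = z' := by simp only [hp]; rw [div_self hn0.ne', one_smul]; abel
    have e2 : p 0 = z := by simp [hp]
    rw [e1, e2]
  rw [h1]
  refine (Finset.abs_sum_le_sum_abs _ _).trans ?_
  refine (Finset.sum_le_sum fun i hi => hstep i (Finset.mem_range.1 hi)).trans ?_
  rw [Finset.sum_const, Finset.card_range, nsmul_eq_mul]
  have h2 : (n : ℝ) * ρ ≤ (‖z' - z‖ / ρ + 1) * ρ := mul_le_mul_of_nonneg_right hn1.le hρ.le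
  have h3 : (‖z' - z‖ / ρ + 1) * ρ = ‖z' - z‖ + ρ := by field_simp
  linarith

theorem boundary_left {γ : ℝ → Pt d} {s τ Rb : ℝ} {z1 : Pt d} (hst : s < τ)
    (hc : ContinuousOn γ (Icc s τ)) (h : ∀ t ∈ Ico s τ, Rb < ‖γ t - z1‖) :
    ∀ t ∈ Icc s τ, Rb ≤ ‖γ t - z1‖ := by
  intro t ht
  rcases eq_or_lt_of_le ht.2 with h1 | h1
  · have hc' : ContinuousOn (fun s => ‖γ s - z1‖) (Icc s τ) := (hc.sub continuousOn_const).norm
    have hcw : ContinuousWithinAt (fun s => ‖γ s - z1‖) (Ico s τ) τ :=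
      (hc' τ ⟨hst.le, le_rfl⟩).mono Ico_subset_Icc_self
    have hne : (𝓝[Ico s τ] τ).NeBot := by
      rw [← mem_closure_iff_nhdsWithin_neBot, closure_Ico hst.ne]
      exact ⟨hst.le, le_rfl⟩
    rw [h1]
    refine ge_of_tendsto hcw ?_
    filter_upwards [self_mem_nhdsWithin] with s' hs'
    exact (h s' hs').le
  · exact (h t ⟨ht.1, h1⟩).le

theorem boundary_right {γ : ℝ → Pt d} {s τ Rb : ℝ} {z1 : Pt d} (hst : τ < s)
    (hc : ContinuousOn γ (Icc τ s)) (h : ∀ t ∈ Ioc τ s, Rb < ‖γ t - z1‖) :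
    ∀ t ∈ Icc τ s, Rb ≤ ‖γ t - z1‖ := by
  intro t ht
  rcases eq_or_lt_of_le ht.1 with h1 | h1
  · have hc' : ContinuousOn (fun s => ‖γ s - z1‖) (Icc τ s) := (hc.sub continuousOn_const).norm
    have hcw : ContinuousWithinAt (fun s => ‖γ s - z1‖) (Ioc τ s) τ :=
      (hc' τ ⟨le_rfl, hst.le⟩).mono Ioc_subset_Icc_self
    have hne : (𝓝[Ioc τ s] τ).NeBot := by
      rw [← mem_closure_iff_nhdsWithin_neBot, closure_Ioc hst.ne]
      exact ⟨le_rfl, hst.le⟩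
    rw [← h1]
    refine ge_of_tendsto hcw ?_
    filter_upwards [self_mem_nhdsWithin] with s' hs'
    exact (h s' hs').le
  · exact (h t ⟨h1, ht.2⟩).le

/-- one coarse step, with at most one bad ball -/
theorem coarse_step (B : BC ρ η ω Lv ε3 Sf Rf ε6) (hf : Continuous f) (hΦ : Continuous Φ)
    (hZc : Convex ℝ Z) (small : ∀ z ∈ Z, |ξ * Φ z| ≤ η)
    (osc : ∀ z ∈ Z, ∀ z' ∈ Z, ‖z' - z‖ ≤ ρ → |ξ * Φ z' - ξ * Φ z| ≤ ω)
    (he : ‖e‖ = 1) (hV : Dual ξ Φ Z ρ Lv ε3 e V) (hγ : PC γ) {Rb : ℝ} {z1 : Pt d} (hRb : 0 ≤ Rb)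
    (hgood : ∀ x ∈ Z, Rb ≤ ‖x - z1‖ → ∃ y, (∀ z, ‖z - x‖ ≤ Rf / 2 → ‖z - y‖ ≤ Rf) ∧
      Low ξ f y Rf ρ Λ Sf) {s s' : ℝ}
    (ha : 0 ≤ s) (hab : s ≤ s') (hb : s' ≤ 1) (hZ : ∀ t ∈ Icc s s', γ t ∈ Z) :
    (3 / 4 - (ε6 + (2 * Sf + 2 * ρ) / (Rf / 2))) * ‖γ s' - γ s‖ + 1 / 4 * ⟪γ s' - γ s, e⟫ +
      (V (γ s') - V (γ s)) - (2 * (2 * Sf + 2 * ρ) + 4 * Rb + ρ) ≤
      Real.exp Λ * cst (fun x => Real.exp (ξ * (Φ x + f x))) γ s s' := by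
  have hρ := B.hρ
  have hSf := B.hSf
  have hRf := B.hRf
  set G : Pt d → ℝ := fun x => Real.exp (ξ * (Φ x + f x)) with hG
  have hGc : Continuous G := Real.continuous_exp.comp (continuous_const.mul (hΦ.add hf))
  set κ := (2 * Sf + 2 * ρ) / (Rf / 2) with hκ
  have hκ0 : 0 ≤ κ := by positivity
  have hε60 : 0 ≤ ε6 := by
    rw [B.hε6]; have := B.hω0; have := B.hε3; positivity
  have hε := B.hε
  rw [← hκ] at hε
  have hc := hγ.cont.mono (Icc_subset_Icc ha hb)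
  -- an interval away from the bad ball
  have away : ∀ a b, s ≤ a → a ≤ b → b ≤ s' → (∀ t ∈ Icc a b, Rb ≤ ‖γ t - z1‖) →
      (3 / 4 - (ε6 + κ)) * ‖γ b - γ a‖ + 1 / 4 * ⟪γ b - γ a, e⟫ + (V (γ b) - V (γ a)) -
        (2 * Sf + 2 * ρ) ≤ Real.exp Λ * cst G γ a b := by
    intro a b h1 h2 h3 h4
    have hZ' : ∀ t ∈ Icc a b, γ t ∈ Z := fun t ht => hZ t ⟨h1.trans ht.1, ht.2.trans h3⟩
    exact good_interval B hf hΦ small osc he hV hγ (ha.trans h1) h2 (h3.trans hb) hZ'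
      (fun t ht => hgood _ (hZ' t ht) (h4 t ht))
  by_cases hbad : ∃ t ∈ Icc s s', ‖γ t - z1‖ ≤ Rb
  swap
  · push Not at hbad
    have h1 := away s s' le_rfl hab le_rfl (fun t ht => (hbad t ht).le)
    linarith
  obtain ⟨t0, ht0, ht0'⟩ := hbad
  have hc' : ContinuousOn (fun t => ‖γ t - z1‖) (Icc s s') := (hc.sub continuousOn_const).norm
  set A : Set ℝ := Icc s s' ∩ (fun t => ‖γ t - z1‖) ⁻¹' (Iic Rb) with hA
  have hAcl : IsClosed A := hc'.preimage_isClosed_of_isClosed isClosed_Icc isClosed_Iic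
  have hAc : IsCompact A := isCompact_Icc.of_isClosed_subset hAcl inter_subset_left
  obtain ⟨τ1, hτ1, hmin⟩ := hAc.exists_isLeast ⟨t0, ht0, ht0'⟩
  obtain ⟨τ2, hτ2, hmax⟩ := hAc.exists_isGreatest ⟨t0, ht0, ht0'⟩
  have h12 : τ1 ≤ τ2 := hmin hτ2
  have b1 : (3 / 4 - (ε6 + κ)) * ‖γ τ1 - γ s‖ + 1 / 4 * ⟪γ τ1 - γ s, e⟫ + (V (γ τ1) - V (γ s)) -
        (2 * Sf + 2 * ρ) ≤ Real.exp Λ * cst G γ s τ1 := by
    rcases eq_or_lt_of_le hτ1.1.1 with h | h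
    · rw [← h]
      simp only [sub_self, norm_zero, mul_zero, inner_zero_left, add_zero, zero_sub]
      have : cst G γ s s = 0 := by simp [cst]
      rw [this, mul_zero]
      linarith
    · apply away s τ1 le_rfl h.le hτ1.1.2
      apply boundary_left h (hc.mono (Icc_subset_Icc_right hτ1.1.2))
      intro t ht
      by_contra hcon
      push Not at hcon
      exact absurd (hmin ⟨⟨ht.1, ht.2.le.trans hτ1.1.2⟩, hcon⟩) (not_le.2 ht.2)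
  have b2 : (3 / 4 - (ε6 + κ)) * ‖γ s' - γ τ2‖ + 1 / 4 * ⟪γ s' - γ τ2, e⟫ +
        (V (γ s') - V (γ τ2)) - (2 * Sf + 2 * ρ) ≤ Real.exp Λ * cst G γ τ2 s' := by
    rcases eq_or_lt_of_le hτ2.1.2 with h | h
    · rw [h]
      simp only [sub_self, norm_zero, mul_zero, inner_zero_left, add_zero, zero_sub]
      have : cst G γ s' s' = 0 := by simp [cst]
      rw [this, mul_zero]
      linarith
    · apply away τ2 s' hτ2.1.1 h.le le_rfl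
      apply boundary_right h (hc.mono (Icc_subset_Icc_left hτ2.1.1))
      intro t ht
      by_contra hcon
      push Not at hcon
      exact absurd (hmax ⟨⟨hτ2.1.1.trans ht.1.le, ht.2⟩, hcon⟩) (not_le.2 ht.1)
  have hadd1 := hγ.cst_add hGc ha hτ1.1.1 (h12.trans hτ2.1.2) hb
  have hadd2 := hγ.cst_add hGc (ha.trans hτ1.1.1) h12 hτ2.1.2 hb
  have hnn : 0 ≤ cst G γ τ1 τ2 := cst_nonneg (fun x => (Real.exp_pos _).le) γ h12
  have hgap : ‖γ τ2 - γ τ1‖ ≤ 2 * Rb := by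
    have h1 : γ τ2 - γ τ1 = (γ τ2 - z1) - (γ τ1 - z1) := by abel
    rw [h1]
    refine (norm_sub_le _ _).trans ?_
    have := hτ1.2
    have := hτ2.2
    simp only [mem_preimage, mem_Iic] at *
    linarith
  have hVg := V_far B hZc small he hV (hZ τ1 hτ1.1) (hZ τ2 hτ2.1)
  have hVg' := (abs_le.1 hVg).2
  have n1 : ‖γ s' - γ s‖ ≤ ‖γ τ1 - γ s‖ + ‖γ s' - γ τ2‖ + 2 * Rb := by
    have h1 : γ s' - γ s = (γ τ1 - γ s) + (γ s' - γ τ2) + (γ τ2 - γ τ1) := by abel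
    rw [h1]
    refine (norm_add_le _ _).trans ?_
    have := norm_add_le (γ τ1 - γ s) (γ s' - γ τ2)
    linarith
  have n2 : ⟪γ s' - γ s, e⟫ ≤ ⟪γ τ1 - γ s, e⟫ + ⟪γ s' - γ τ2, e⟫ + 2 * Rb := by
    have h1 : γ s' - γ s = (γ τ1 - γ s) + (γ s' - γ τ2) + (γ τ2 - γ τ1) := by abel
    rw [h1, inner_add_left, inner_add_left]
    have h2 := real_inner_le_norm (γ τ2 - γ τ1) e
    rw [he, mul_one] at h2
    linarith
  have hE := Real.exp_pos Λ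
  have hEc : Real.exp Λ * cst G γ s s' = Real.exp Λ * cst G γ s τ1 +
      Real.exp Λ * cst G γ τ1 τ2 + Real.exp Λ * cst G γ τ2 s' := by
    rw [← hadd1, ← hadd2]; ring
  have hEnn : 0 ≤ Real.exp Λ * cst G γ τ1 τ2 := mul_nonneg hE.le hnn
  rw [hEc]
  have f1 : (3 / 4 - (ε6 + κ)) * ‖γ s' - γ s‖ ≤
      (3 / 4 - (ε6 + κ)) * (‖γ τ1 - γ s‖ + ‖γ s' - γ τ2‖ + 2 * Rb) :=
    mul_le_mul_of_nonneg_left n1 (by linarith)
  nlinarith

end

theorem exists_unit_dir (hd : 0 < d) (v : Pt d) : ∃ e : Pt d, ‖e‖ = 1 ∧ ⟪v, e⟫ = ‖v‖ := by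
  by_cases hv : v = 0
  · refine ⟨EuclideanSpace.single ⟨0, hd⟩ 1, ?_, by simp [hv]⟩
    simp
  · have hn : ‖v‖ ≠ 0 := norm_ne_zero_iff.2 hv
    refine ⟨‖v‖⁻¹ • v, ?_, ?_⟩
    · rw [norm_smul, norm_inv, norm_norm, inv_mul_cancel₀ hn]
    · rw [inner_smul_right, real_inner_self_eq_norm_sq]
      field_simp

/-- the block step -/
theorem block_step (hd : 0 < d) {ξ : ℝ} {f Φ : Pt d → ℝ} {ρ η ω Lv ε3 Rf Λ Sf ε6 : ℝ}
    (B : BC ρ η ω Lv ε3 Sf Rf ε6) (hf : Continuous f) (hΦ : Continuous Φ) {x : Pt d} {Rc V0 : ℝ}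
    (small : ∀ z ∈ Metric.closedBall x Rc, |ξ * Φ z| ≤ η)
    (osc : ∀ z ∈ Metric.closedBall x Rc, ∀ z' ∈ Metric.closedBall x Rc, ‖z' - z‖ ≤ ρ →
      |ξ * Φ z' - ξ * Φ z| ≤ ω)
    (dual : ∀ e : Pt d, ‖e‖ = 1 → ∃ V : Pt d → ℝ, (∀ z ∈ Metric.closedBall x Rc, |V z| ≤ V0) ∧
      Dual ξ Φ (Metric.closedBall x Rc) ρ Lv ε3 e V) (hV0 : 0 ≤ V0)
    {Rb : ℝ} {z1 : Pt d} (hRb : 0 ≤ Rb)
    (hgood : ∀ z ∈ Metric.closedBall x Rc, Rb ≤ ‖z - z1‖ →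
      ∃ y, (∀ z', ‖z' - z‖ ≤ Rf / 2 → ‖z' - y‖ ≤ Rf) ∧ Low ξ f y Rf ρ Λ Sf)
    {ρc ε8 : ℝ} (hρc : 0 < ρc)
    (hε8 : ε8 = ε6 + (2 * Sf + 2 * ρ) / (Rf / 2) + (2 * (2 * Sf + 2 * ρ) + 4 * Rb + ρ) / ρc)
    (hε8' : ε8 ≤ 1 / 8) :
    Low ξ (fun z => Φ z + f z) x Rc ρc (Λ + 4 * ε8) (4 * V0) := by
  intro γ hγ N t h0 h1 h2 h3 h4
  have hρ := B.hρ
  have hSf := B.hSf
  have hRf := B.hRf
  have hε60 : 0 ≤ ε6 := by
    rw [B.hε6]; have := B.hω0; have := B.hε3; positivity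
  set κ := (2 * Sf + 2 * ρ) / (Rf / 2) with hκ
  have hκ0 : 0 ≤ κ := by positivity
  set err := 2 * (2 * Sf + 2 * ρ) + 4 * Rb + ρ with herr
  have herr0 : 0 ≤ err / ρc := by positivity
  have hε80 : 0 ≤ ε8 := by rw [hε8]; positivity
  obtain ⟨e, he, hdir⟩ := exists_unit_dir hd (γ (t N) - γ (t 0))
  obtain ⟨V, hVb, hV⟩ := dual e he
  have hmem : ∀ i ≤ N, t i ∈ Icc (t 0) (t N) := fun i hi =>
    ⟨mono_of_le h2 (Nat.zero_le i) hi, mono_of_le h2 hi le_rfl⟩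
  have hZ : ∀ s ∈ Icc (t 0) (t N), γ s ∈ Metric.closedBall x Rc := by
    intro s hs
    rw [mem_closedBall_iff_norm]
    exact h4 s hs
  set G : Pt d → ℝ := fun z => Real.exp (ξ * (Φ z + f z)) with hG
  have hGc : Continuous G := Real.continuous_exp.comp (continuous_const.mul (hΦ.add hf))
  have s1 : ∀ i < N, (3 / 4 - (ε6 + κ)) * ρc + 1 / 4 * ⟪γ (t (i + 1)) - γ (t i), e⟫ +
      (V (γ (t (i + 1))) - V (γ (t i))) - err ≤ Real.exp Λ * cst G γ (t i) (t (i + 1)) := by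
    intro i hi
    have := coarse_step B hf hΦ (convex_closedBall x Rc) small osc he hV hγ hRb hgood
      (s := t i) (s' := t (i + 1)) (h0.trans (hmem i hi.le).1) (h2 i hi)
      ((hmem (i + 1) hi).2.trans h1)
      (fun s hs => hZ s ⟨(hmem i hi.le).1.trans hs.1, hs.2.trans (hmem (i + 1) hi).2⟩)
    rwa [h3 i hi] at this
  have s2 := Finset.sum_le_sum (fun i hi => s1 i (Finset.mem_range.1 hi))
  have hsum : ∑ i ∈ Finset.range N, ⟪γ (t (i + 1)) - γ (t i), e⟫ = ‖γ (t N) - γ (t 0)‖ := by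
    rw [← sum_inner, Finset.sum_range_sub (fun k => γ (t k)), hdir]
  have hsumV : ∑ i ∈ Finset.range N, (V (γ (t (i + 1))) - V (γ (t i))) =
      V (γ (t N)) - V (γ (t 0)) := Finset.sum_range_sub (fun k => V (γ (t k))) N
  have hc : ∑ i ∈ Finset.range N, cst G γ (t i) (t (i + 1)) = cst G γ (t 0) (t N) := by
    rw [Finset.range_eq_Ico, hγ.cst_sum hGc h0 h1 h2 (Nat.zero_le N) le_rfl]
  have hsum4 : ∑ i ∈ Finset.range N, 1 / 4 * ⟪γ (t (i + 1)) - γ (t i), e⟫ =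
      1 / 4 * ‖γ (t N) - γ (t 0)‖ := by rw [← Finset.mul_sum, hsum]
  have hcE : ∑ i ∈ Finset.range N, Real.exp Λ * cst G γ (t i) (t (i + 1)) =
      Real.exp Λ * cst G γ (t 0) (t N) := by rw [← Finset.mul_sum, hc]
  rw [hcE, Finset.sum_sub_distrib, Finset.sum_add_distrib,
    Finset.sum_add_distrib, hsumV, hsum4, Finset.sum_const, Finset.sum_const,
    Finset.card_range, nsmul_eq_mul, nsmul_eq_mul] at s2
  have v1 := (abs_le.1 (hVb _ (hZ _ (hmem N le_rfl)))).1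
  have v2 := (abs_le.1 (hVb _ (hZ _ (hmem 0 (Nat.zero_le N))))).2
  set D := ‖γ (t N) - γ (t 0)‖ with hD
  have hD0 : 0 ≤ D := norm_nonneg _
  set X : ℝ := 3 / 4 * (N * ρc) + 1 / 4 * D with hX
  have hNρ : 0 ≤ (N : ℝ) * ρc := by positivity
  have hX0 : 0 ≤ X := by positivity
  have herr2 : (N : ℝ) * err = err / ρc * (N * ρc) := by field_simp
  have s3 : (1 - 2 * ε8) * X - 2 * V0 ≤ Real.exp Λ * cst G γ (t 0) (t N) := by
    refine le_trans ?_ s2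
    have h5 : ε8 * (N * ρc) ≤ 2 * ε8 * X := by
      have h6 : ε8 * (N * ρc) ≤ ε8 * (2 * X) := by
        apply mul_le_mul_of_nonneg_left _ hε80
        rw [hX]; linarith
      linarith
    rw [hε8] at h5
    rw [hε8]
    nlinarith
  have hb : Real.exp (-(4 * ε8)) ≤ 1 - 2 * ε8 := by
    have h5 := Real.add_one_le_exp (4 * ε8)
    rw [Real.exp_neg, inv_le_comm₀ (Real.exp_pos _) (by linarith)]
    refine le_trans ?_ h5
    rw [inv_le_comm₀ (by linarith) (by linarith), ← one_div, div_le_iff₀ (by linarith)]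
    nlinarith
  have hb2 : 1 / 2 ≤ Real.exp (-(4 * ε8)) := by
    have h5 := Real.add_one_le_exp (-(4 * ε8))
    linarith
  have s4 : Real.exp (-(4 * ε8)) * (X - 4 * V0) ≤ Real.exp Λ * cst G γ (t 0) (t N) := by
    refine le_trans ?_ s3
    have h5 : Real.exp (-(4 * ε8)) * X ≤ (1 - 2 * ε8) * X := mul_le_mul_of_nonneg_right hb hX0
    have h6 : 1 / 2 * (4 * V0) ≤ Real.exp (-(4 * ε8)) * (4 * V0) :=
      mul_le_mul_of_nonneg_right hb2 (by linarith)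
    linarith
  have s5 := mul_le_mul_of_nonneg_left s4 (Real.exp_pos (-Λ)).le
  rw [← mul_assoc, ← Real.exp_add, ← mul_assoc, ← Real.exp_add, neg_add_cancel, Real.exp_zero,
    one_mul] at s5
  have e6 : -(Λ + 4 * ε8) = -Λ + -(4 * ε8) := by ring
  rw [e6]
  exact s5

/-- the trivial field -/
theorem low_zero {ξ : ℝ} {f : Pt d → ℝ} (hf : ∀ x, f x = 0) (y : Pt d) (Rad ρ S : ℝ)
    (hS : 0 ≤ S) : Low ξ f y Rad ρ 0 S := by
  intro γ hγ N t h0 h1 h2 h3 h4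
  have e1 : (fun x => Real.exp (ξ * f x)) = fun _ => 1 := by
    funext x; rw [hf, mul_zero, Real.exp_zero]
  rw [e1, neg_zero, Real.exp_zero, one_mul]
  have hmem : ∀ i ≤ N, t i ∈ Icc (t 0) (t N) := fun i hi =>
    ⟨mono_of_le h2 (Nat.zero_le i) hi, mono_of_le h2 hi le_rfl⟩
  have s1 : (N : ℝ) * ρ ≤ cst (fun _ => 1) γ (t 0) (t N) := by
    rw [← hγ.cst_sum continuous_const h0 h1 h2 (Nat.zero_le N) le_rfl, ← Finset.range_eq_Ico,
      ← nsmul_eq_mul]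
    have : N • ρ = ∑ i ∈ Finset.range N, ρ := by rw [Finset.sum_const, Finset.card_range]
    rw [this]
    apply Finset.sum_le_sum
    intro i hi
    have hi' := Finset.mem_range.1 hi
    rw [← h3 i hi']
    exact hγ.norm_sub_le (h0.trans (hmem i hi'.le).1) (h2 i hi') ((hmem (i + 1) hi').2.trans h1)
  have s2 : ‖γ (t N) - γ (t 0)‖ ≤ cst (fun _ => 1) γ (t 0) (t N) :=
    hγ.norm_sub_le h0 (hmem N le_rfl).1 h1
  linarith

end Pool.Agent.Helper97.LogFPP
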