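import Pool.Agent.Helper97.LogFPP.U.Event
import Pool.Agent.Helper97.LogFPP.U.Block2

set_option autoImplicit false
set_option maxHeartbeats 400000

open MeasureTheory ProbabilityTheory Set Filter Topology
open scoped NNReal ENNReal RealInnerProductSpace

namespace Pool.Agent.Helper97.LogFPP

variable {d : ℕ} {K : Pt d → ℝ} {Ω : Type*} {mΩ : MeasurableSpace Ω} {P : Measure Ω}
  {h : ℕ → Pt d → Ω → ℝ} {c : VC K} {β : BP}

/-- oscillation of the coarse field at the mesh -/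
noncomputable def BP.oc (β : BP) (c : VC K) : ℝ := β.T * √(2 * c.C) * β.r

/-- bound of the coarse field -/
noncomputable def BP.η (β : BP) (c : VC K) : ℝ := β.ξ * (β.T * √(β.m : ℝ) + β.oc c)

/-- bound of the oscillation -/
noncomputable def BP.ω (β : BP) (c : VC K) : ℝ := 3 * β.ξ * β.oc c

/-- Lipschitz constant of the dual functions -/
noncomputable def BP.Lv (β : BP) (c : VC K) : ℝ := β.ξ * β.T * c.A * β.m * √β.ℓ

/-- the other errors -/
noncomputable def BP.e0 (β : BP) (c : VC K) : ℝ :=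
  β.ξ * β.T * c.A * (4 * β.m * √β.ℓ * (√d * β.δ) + β.r + β.m / √β.ℓ)

/-- the other errors -/
noncomputable def BP.ε3 (β : BP) (c : VC K) : ℝ := 2 * β.ω c + β.η c * β.δ + β.e0 c

/-- bound of the dual functions -/
noncomputable def BP.V0 (β : BP) (c : VC K) (a : ℕ) : ℝ :=
  2 * (β.ξ * β.T * c.A * √β.ℓ) * (1 / 2) ^ a

theorem not_mem_biUnion {α ι : Type*} {s : Finset ι} {E : ι → Set α} {ω : α}
    (h : ω ∉ ⋃ i ∈ s, E i) {i : ι} (hi : i ∈ s) : ω ∉ E i := fun h1 =>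
  h (mem_biUnion hi h1)

theorem oc_nonneg (O : β.OK c) : 0 ≤ β.oc c := by
  unfold BP.oc
  have := O.hT
  have := O.hr
  positivity

omit mΩ in
theorem rd_mem_j (O : β.OK c) {a : ℕ} {x z : Pt d} (hz : ‖z - x‖ ≤ β.R * (1 / 2) ^ a) (j : ℕ) :
    rd (β.g a / 2 ^ j) z ∈ latt (β.g a / 2 ^ j) x (β.B d a) := by
  have hg := O.g_pos a
  apply rd_mem_latt (by positivity)
  have h1 := rd_dist (g := β.g a / 2 ^ j) (by positivity) z
  have h2 : rd (β.g a / 2 ^ j) z - x = (z - x) - (z - rd (β.g a / 2 ^ j) z) := by abel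
  rw [h2]
  refine (norm_sub_le _ _).trans ?_
  unfold BP.B
  have h3 : β.g a / 2 ^ j ≤ β.g a := div_le_self hg.le (one_le_pow₀ (by norm_num))
  have h4 : √(d : ℝ) * (β.g a / 2 ^ j) ≤ √d * β.g a :=
    mul_le_mul_of_nonneg_left h3 (Real.sqrt_nonneg _)
  linarith

theorem det_round (O : β.OK c) (hh : IsField K P h) {a : ℕ} {x z : Pt d} {ω : Ω}
    (hω : ω ∉ β.E5 c h a x) (hz : ‖z - x‖ ≤ β.R * (1 / 2) ^ a) :
    |β.Φ h a z ω - β.Φ h a (rd (β.g a) z) ω| ≤ β.oc c / 3 := by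
  have hg := O.g_pos a
  have hsd := O.sqd
  have hT := O.hT
  set b : ℕ → ℝ := fun j =>
    β.T * (5 / 4) ^ j * (√(2 * c.C) * (2 * √d * (β.g a / 2 ^ j)) * 2 ^ (a + β.m)) with hb
  have hstep : ∀ j, |β.Φ h a (rd (β.g a / 2 ^ j) z) ω - β.Φ h a (rd (β.g a / 2 ^ (j + 1)) z) ω| ≤
      b j := by
    intro j
    unfold BP.E5 at hω
    have h1 : ω ∉ ⋃ y ∈ latt (β.g a / 2 ^ j) x (β.B d a),
      ⋃ y' ∈ latt (β.g a / 2 ^ (j + 1)) x (β.B d a),
      {ω | ‖y - y'‖ ≤ 2 * √d * (β.g a / 2 ^ j) ∧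
        β.T * (5 / 4) ^ j * (√(2 * c.C) * (2 * √d * (β.g a / 2 ^ j)) * 2 ^ (a + β.m)) <
          |(β.Φ h a y - β.Φ h a y') ω|} := fun h2 => hω (mem_iUnion.2 ⟨j, h2⟩)
    have h2 := not_mem_biUnion h1 (rd_mem_j O hz j)
    have h3 := not_mem_biUnion h2 (rd_mem_j O hz (j + 1))
    simp only [mem_setOf_eq, not_and, not_lt] at h3
    apply h3
    have h4 := rd_dist (g := β.g a / 2 ^ j) (by positivity) z
    have h5 := rd_dist (g := β.g a / 2 ^ (j + 1)) (by positivity) z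
    have h6 : rd (β.g a / 2 ^ j) z - rd (β.g a / 2 ^ (j + 1)) z =
        (z - rd (β.g a / 2 ^ (j + 1)) z) - (z - rd (β.g a / 2 ^ j) z) := by abel
    rw [h6]
    refine (norm_sub_le _ _).trans ?_
    have h7 : β.g a / 2 ^ (j + 1) ≤ β.g a / 2 ^ j := by
      apply div_le_div_of_nonneg_left hg.le (by positivity)
      exact pow_le_pow_right₀ (by norm_num) (by omega)
    have h8 : √(d : ℝ) * (β.g a / 2 ^ (j + 1)) ≤ √d * (β.g a / 2 ^ j) :=
      mul_le_mul_of_nonneg_left h7 (Real.sqrt_nonneg _)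
    linarith
  have hbe : ∀ j, b j = 2 * β.T * √(2 * c.C) * (√d * β.δ) * β.r * (5 / 8) ^ j := by
    intro j
    simp only [hb]
    have h1 := BP.OK.g_mul (β := β) a
    have h2 : ((5 : ℝ) / 8) ^ j = (5 / 4) ^ j / 2 ^ j := by rw [← div_pow]; norm_num
    rw [h2]
    have h3 : β.T * (5 / 4) ^ j * (√(2 * c.C) * (2 * √d * (β.g a / 2 ^ j)) * 2 ^ (a + β.m)) =
        2 * β.T * √(2 * c.C) * √d * ((5 / 4) ^ j / 2 ^ j) * (β.g a * 2 ^ (a + β.m)) := by ring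
    rw [h3, h1]; ring
  have hsum : ∀ J, |β.Φ h a (rd (β.g a) z) ω - β.Φ h a (rd (β.g a / 2 ^ J) z) ω| ≤
      β.oc c / 3 := by
    intro J
    have h1 : β.Φ h a (rd (β.g a) z) ω - β.Φ h a (rd (β.g a / 2 ^ J) z) ω =
        ∑ j ∈ Finset.range J, (β.Φ h a (rd (β.g a / 2 ^ j) z) ω -
          β.Φ h a (rd (β.g a / 2 ^ (j + 1)) z) ω) := by
      rw [Finset.sum_range_sub' (fun j : ℕ => β.Φ h a (rd (β.g a / 2 ^ j) z) ω)]
      simp
    rw [h1]
    refine (Finset.abs_sum_le_sum_abs _ _).trans ?_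
    refine (Finset.sum_le_sum fun j _ => (hstep j).trans (hbe j).le).trans ?_
    rw [← Finset.mul_sum]
    have h2 : ∑ j ∈ Finset.range J, (5 / 8 : ℝ) ^ j ≤ 8 / 3 := by
      rw [geom_sum_eq (by norm_num)]
      have : 0 < (5 / 8 : ℝ) ^ J := by positivity
      rw [div_le_iff_of_neg (by norm_num)]
      linarith
    have h3 : √(d : ℝ) * β.δ ≤ 1 / 18 := by have := O.hδ1; linarith
    have h4 : 0 ≤ β.T * √(2 * c.C) * β.r := oc_nonneg O
    have hδ := O.hδ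
    have hr := O.hr
    calc 2 * β.T * √(2 * c.C) * (√d * β.δ) * β.r * ∑ j ∈ Finset.range J, (5 / 8 : ℝ) ^ j ≤
          2 * β.T * √(2 * c.C) * (1 / 18) * β.r * (8 / 3) := by gcongr
      _ = (8 / 27) * (β.T * √(2 * c.C) * β.r) := by ring
      _ ≤ (1 / 3) * (β.T * √(2 * c.C) * β.r) := by nlinarith
      _ = β.oc c / 3 := by unfold BP.oc; ring
  -- limit
  have hlim : Tendsto (fun J : ℕ => rd (β.g a / 2 ^ J) z) atTop (𝓝 z) := by
    rw [tendsto_iff_norm_sub_tendsto_zero]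
    have h1 : Tendsto (fun J : ℕ => √(d : ℝ) * (β.g a / 2 ^ J)) atTop (𝓝 0) := by
      have h2 : Tendsto (fun J : ℕ => √(d : ℝ) * β.g a * (1 / 2 : ℝ) ^ J) atTop
          (𝓝 (√(d : ℝ) * β.g a * 0)) :=
        (tendsto_pow_atTop_nhds_zero_of_lt_one (by norm_num) (by norm_num)).const_mul _
      rw [mul_zero] at h2
      refine h2.congr fun J => ?_
      rw [one_div, inv_pow]; ring
    refine squeeze_zero (fun _ => norm_nonneg _) (fun J => ?_) h1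
    rw [norm_sub_rev]
    exact rd_dist (by positivity) z
  have hcont : Continuous fun z => β.Φ h a z ω :=
    (hh.smooth _ ω).continuous.sub (hh.smooth _ ω).continuous
  have h1 : Tendsto (fun J : ℕ => |β.Φ h a (rd (β.g a) z) ω - β.Φ h a (rd (β.g a / 2 ^ J) z) ω|)
      atTop (𝓝 |β.Φ h a (rd (β.g a) z) ω - β.Φ h a z ω|) :=
    (tendsto_const_nhds.sub ((hcont.tendsto z).comp hlim)).abs
  rw [abs_sub_comm]
  exact le_of_tendsto' h1 hsum

omit mΩ in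
theorem det_lattice (O : β.OK c) {a : ℕ} {x y : Pt d} {ω : Ω}
    (hω : ω ∉ β.E1 h a x) (hy : y ∈ β.Zl a x) : |β.ξ * β.Φ h a y ω| ≤ β.ξ * (β.T * √(β.m : ℝ)) := by
  have h1 := not_mem_biUnion hω hy
  simp only [mem_setOf_eq, not_lt] at h1
  rw [abs_mul, abs_of_pos O.hξ]
  exact mul_le_mul_of_nonneg_left h1 O.hξ.le

omit mΩ in
theorem rd_mem_Zl (O : β.OK c) {a : ℕ} {x z : Pt d} (hz : ‖z - x‖ ≤ β.R * (1 / 2) ^ a) :
    rd (β.g a) z ∈ β.Zl a x := by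
  have := rd_mem_j O hz 0
  rw [pow_zero, div_one] at this
  exact this

theorem det_small (O : β.OK c) (hh : IsField K P h) {a : ℕ} {x z : Pt d} {ω : Ω}
    (h1 : ω ∉ β.E1 h a x) (h5 : ω ∉ β.E5 c h a x) (hz : ‖z - x‖ ≤ β.R * (1 / 2) ^ a) :
    |β.ξ * β.Φ h a z ω| ≤ β.η c := by
  have e1 := det_lattice O h1 (rd_mem_Zl O hz)
  have e2 := det_round O hh h5 hz
  have e3 : |β.ξ * β.Φ h a z ω| ≤ |β.ξ * β.Φ h a (rd (β.g a) z) ω| +
      β.ξ * |β.Φ h a z ω - β.Φ h a (rd (β.g a) z) ω| := by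
    rw [← abs_of_pos O.hξ, ← abs_mul, abs_of_pos O.hξ, mul_sub]
    have := abs_add_le (β.ξ * β.Φ h a (rd (β.g a) z) ω)
      (β.ξ * β.Φ h a z ω - β.ξ * β.Φ h a (rd (β.g a) z) ω)
    rwa [add_sub_cancel] at this
  have e4 : β.ξ * |β.Φ h a z ω - β.Φ h a (rd (β.g a) z) ω| ≤ β.ξ * (β.oc c / 3) :=
    mul_le_mul_of_nonneg_left e2 O.hξ.le
  have e5 : 0 ≤ β.ξ * β.oc c := mul_nonneg O.hξ.le (oc_nonneg O)
  unfold BP.η
  linarith

theorem det_osc (O : β.OK c) (hh : IsField K P h) {a : ℕ} {x z z' : Pt d} {ω : Ω}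
    (h2 : ω ∉ β.E2 c h a x) (h5 : ω ∉ β.E5 c h a x) (hz : ‖z - x‖ ≤ β.R * (1 / 2) ^ a)
    (hz' : ‖z' - x‖ ≤ β.R * (1 / 2) ^ a) (hzz : ‖z' - z‖ ≤ β.ρ a) :
    |β.ξ * β.Φ h a z' ω - β.ξ * β.Φ h a z ω| ≤ β.ω c := by
  have hT := O.hT
  have e1 := det_round O hh h5 hz
  have e2 := det_round O hh h5 hz'
  have e3 := not_mem_biUnion (not_mem_biUnion h2 (rd_mem_Zl O hz')) (rd_mem_Zl O hz)
  simp only [mem_setOf_eq, not_lt] at e3
  set y := rd (β.g a) z with hy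
  set y' := rd (β.g a) z' with hy'
  have h3 : ‖y' - y‖ ≤ 10 / 9 * β.ρ a := by
    have h4 : y' - y = (z' - z) - (z' - y') + (z - y) := by abel
    rw [h4]
    have h6 := rd_dist (O.g_pos a) z
    have h7 := rd_dist (O.g_pos a) z'
    have h8 := norm_add_le ((z' - z) - (z' - y')) (z - y)
    have h9 := norm_sub_le (z' - z) (z' - y')
    have h10 := O.sg a
    linarith
  have h4 : β.T * (√(2 * c.C) * ‖y' - y‖ * 2 ^ (a + β.m)) ≤ 10 / 9 * β.oc c := by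
    have h6 := BP.OK.ρ_mul (β := β) a
    calc β.T * (√(2 * c.C) * ‖y' - y‖ * 2 ^ (a + β.m)) ≤
        β.T * (√(2 * c.C) * (10 / 9 * β.ρ a) * 2 ^ (a + β.m)) := by gcongr
      _ = 10 / 9 * (β.T * √(2 * c.C) * (β.ρ a * 2 ^ (a + β.m))) := by ring
      _ = 10 / 9 * β.oc c := by rw [h6]; rfl
  have h6 : |β.Φ h a z' ω - β.Φ h a z ω| ≤ 3 * β.oc c := by
    have h7 : |(β.Φ h a y' - β.Φ h a y) ω| ≤ 10 / 9 * β.oc c := e3.trans h4
    have h8 : (β.Φ h a y' - β.Φ h a y) ω = β.Φ h a y' ω - β.Φ h a y ω := rfl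
    rw [h8] at h7
    have h9 := oc_nonneg O
    have a1 := abs_le.1 e1
    have a2 := abs_le.1 e2
    have a3 := abs_le.1 h7
    rw [abs_le]
    constructor <;> linarith
  rw [← mul_sub, abs_mul, abs_of_pos O.hξ]
  unfold BP.ω
  have := mul_le_mul_of_nonneg_left h6 O.hξ.le
  linarith

/-- the dual function -/
noncomputable def BP.V (β : BP) (h : ℕ → Pt d → Ω → ℝ) (a : ℕ) (e : Pt d) (ω : Ω) (z : Pt d) : ℝ :=
  β.ξ * ∑ k ∈ Finset.range β.m, vf h (a + k) (β.g a) (β.n a k) (rd β.δ e) (rd (β.g a) z) ω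

theorem rd_mem_En (O : β.OK c) {e : Pt d} (he : ‖e‖ = 1) : rd β.δ e ∈ β.En d := by
  have h1 := rd_dist O.hδ e
  have h2 := O.hδ1
  have h3 : ‖rd β.δ e‖ ≤ ‖e‖ + ‖e - rd β.δ e‖ := by
    have := norm_sub_le e (e - rd β.δ e)
    rwa [sub_sub_cancel] at this
  have h4 : ‖e‖ ≤ ‖rd β.δ e‖ + ‖e - rd β.δ e‖ := by
    have := norm_add_le (rd β.δ e) (e - rd β.δ e)
    rwa [add_sub_cancel] at this
  unfold BP.En
  rw [Finset.mem_filter]
  refine ⟨rd_mem_latt O.hδ ?_, ?_⟩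
  · rw [sub_zero]; linarith
  · linarith

theorem det_V (O : β.OK c) {a : ℕ} {x z e : Pt d} {ω : Ω} (he : ‖e‖ = 1)
    (h3 : ω ∉ β.E3 c h a x) (hz : ‖z - x‖ ≤ β.R * (1 / 2) ^ a) :
    |β.V h a e ω z| ≤ β.V0 c a := by
  have hT := O.hT
  have hA := c.A_ge
  unfold BP.V BP.V0
  rw [abs_mul, abs_of_pos O.hξ]
  have h1 : |∑ k ∈ Finset.range β.m, vf h (a + k) (β.g a) (β.n a k) (rd β.δ e) (rd (β.g a) z) ω| ≤
      ∑ k ∈ Finset.range β.m, β.T * (c.A * (√β.ℓ * (1 / 2) ^ (a + k))) := by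
    refine (Finset.abs_sum_le_sum_abs _ _).trans (Finset.sum_le_sum fun k hk => ?_)
    have h4 := not_mem_biUnion (not_mem_biUnion (not_mem_biUnion h3 hk) (rd_mem_En O he))
      (rd_mem_Zl O hz)
    simp only [mem_setOf_eq, not_lt] at h4
    exact h4
  have h2 : ∑ k ∈ Finset.range β.m, β.T * (c.A * (√β.ℓ * (1 / 2) ^ (a + k))) ≤
      2 * (β.T * c.A * √β.ℓ) * (1 / 2) ^ a := by
    have h4 : ∀ k, β.T * (c.A * (√β.ℓ * (1 / 2) ^ (a + k))) =
        β.T * c.A * √β.ℓ * (1 / 2) ^ a * (1 / 2) ^ k := by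
      intro k; rw [pow_add]; ring
    simp_rw [h4]
    rw [← Finset.mul_sum]
    have h5 : ∑ k ∈ Finset.range β.m, (1 / 2 : ℝ) ^ k ≤ 2 := by
      rw [geom_sum_eq (by norm_num)]
      have : 0 < (1 / 2 : ℝ) ^ β.m := by positivity
      rw [div_le_iff_of_neg (by norm_num)]
      linarith
    have h6 : 0 ≤ β.T * c.A * √β.ℓ * (1 / 2) ^ a := by positivity
    nlinarith
  have h4 := mul_le_mul_of_nonneg_left (h1.trans h2) O.hξ.le
  linarith

theorem tele_ph (a m : ℕ) (y : Pt d) (ω : Ω) :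
    ∑ k ∈ Finset.range m, ph h (a + k) y ω = bnd h a (a + m) y ω := by
  have := Finset.sum_range_sub (fun k => h (a + k) y ω) m
  simp only [add_zero] at this
  unfold bnd
  rw [← this]
  rfl

theorem det_dual_pos (O : β.OK c) (hh : IsField K P h) {a : ℕ} {x z z' e : Pt d} {ω : Ω}
    (he : ‖e‖ = 1) (h1 : ω ∉ β.E1 h a x)
    (h4 : ω ∉ β.E4 c h a x) (h5 : ω ∉ β.E5 c h a x) (hz : ‖z - x‖ ≤ β.R * (1 / 2) ^ a)
    (hz' : ‖z' - x‖ ≤ β.R * (1 / 2) ^ a) (hzz : ‖z' - z‖ ≤ β.ρ a) (hq : 0 ≤ ⟪z' - z, e⟫) :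
    |β.ξ * β.Φ h a z ω * ⟪z' - z, e⟫ - (β.V h a e ω z' - β.V h a e ω z)| ≤
      β.Lv c * ‖(z' - z) - ⟪z' - z, e⟫ • e‖ + (β.ω c + β.η c * β.δ + β.e0 c) * β.ρ a := by
  have hT := O.hT
  have hξ := O.hξ
  have hA := c.A_ge
  have hg := O.g_pos a
  have hρ := O.ρ_pos a
  have hδ := O.hδ
  have hsd := O.sqd
  have hℓ : 0 < β.ℓ := by have := O.hℓ; linarith
  have hsℓ : 0 < √β.ℓ := Real.sqrt_pos.2 hℓ
  set ρ := β.ρ a with hρdef
  set ι := β.g a with hι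
  have hιρ : ι = β.δ * ρ := rfl
  set q := ⟪z' - z, e⟫ with hqdef
  have hqρ : q ≤ ρ := by
    have := real_inner_le_norm (z' - z) e
    rw [he, mul_one] at this
    exact this.trans hzz
  set p := ⌊q / ι⌋₊ with hp
  have hp1 : (p : ℝ) ≤ q / ι := Nat.floor_le (by positivity)
  have hp2 : q / ι < p + 1 := Nat.lt_floor_add_one _
  rw [le_div_iff₀ hg] at hp1
  rw [div_lt_iff₀ hg] at hp2
  have hp3 : (p : ℝ) * ι ≤ ρ := hp1.trans hqρ
  have hp0 : 0 ≤ (p : ℝ) * ι := by positivity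
  have hpm : p ∈ Finset.range (β.pm + 1) := by
    rw [Finset.mem_range, Nat.lt_succ_iff]
    apply Nat.floor_mono
    rw [div_le_div_iff₀ hg hδ, one_mul, hιρ]
    nlinarith
  set y := rd ι z with hy
  set y' := rd ι z' with hy'
  set e' := rd β.δ e with he'
  have hyZ : y ∈ β.Zl a x := rd_mem_Zl O hz
  have hyZ' : y' ∈ β.Zl a x := rd_mem_Zl O hz'
  have heE : e' ∈ β.En d := rd_mem_En O he
  set perp := (z' - z) - q • e with hperp
  set w := y' - y - ((p : ℝ) * ι) • e' with hw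
  have hsg : √d * ι = √d * β.δ * ρ := by rw [hιρ]; ring
  have hιs : ι ≤ √d * β.δ * ρ := by rw [← hsg]; nlinarith
  have hwn : ‖w‖ ≤ ‖perp‖ + 4 * (√d * β.δ * ρ) := by
    have e1 : w = perp - (z' - y') + (z - y) + ((q - p * ι) • e + ((p : ℝ) * ι) • (e - e')) := by
      rw [hw, hperp]; module
    rw [e1]
    have n1 : ‖z' - y'‖ ≤ √d * β.δ * ρ := by rw [← hsg]; exact rd_dist hg z'
    have n2 : ‖z - y‖ ≤ √d * β.δ * ρ := by rw [← hsg]; exact rd_dist hg z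
    have n3 : ‖(q - p * ι) • e‖ ≤ √d * β.δ * ρ := by
      rw [norm_smul, he, mul_one, Real.norm_of_nonneg (by linarith)]
      linarith
    have n4 : ‖((p : ℝ) * ι) • (e - e')‖ ≤ √d * β.δ * ρ := by
      rw [norm_smul, Real.norm_of_nonneg hp0]
      have n5 := rd_dist hδ e
      calc (p : ℝ) * ι * ‖e - e'‖ ≤ ρ * (√d * β.δ) := by
            apply mul_le_mul hp3 n5 (norm_nonneg _) hρ.le
        _ = √d * β.δ * ρ := by ring
    have n5 := norm_add_le (perp - (z' - y') + (z - y)) ((q - p * ι) • e + ((p : ℝ) * ι) • (e - e'))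
    have n6 := norm_add_le (perp - (z' - y')) (z - y)
    have n7 := norm_sub_le perp (z' - y')
    have n8 := norm_add_le ((q - p * ι) • e) (((p : ℝ) * ι) • (e - e'))
    linarith
  have hperp2 : ‖perp‖ ≤ ρ := by
    have h6 : ‖perp‖ ^ 2 ≤ ρ ^ 2 := by
      rw [hperp, norm_sub_sq_real, inner_smul_right, ← hqdef, norm_smul, he, mul_one,
        Real.norm_eq_abs, sq_abs]
      have h7 : ‖z' - z‖ ^ 2 ≤ ρ ^ 2 := pow_le_pow_left₀ (norm_nonneg _) hzz 2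
      nlinarith [sq_nonneg q]
    exact (sq_le_sq₀ (norm_nonneg _) hρ.le).1 h6
  have hwn2 : ‖w‖ ≤ 2 * ρ := by
    have := O.hδ1
    have h6 : √d * β.δ * ρ ≤ 1 / 18 * ρ := by nlinarith
    linarith
  -- errors
  have hX : ∀ k ∈ Finset.range β.m, |β.X h a k p e' y y' ω| ≤
      β.T * c.A * (√β.ℓ * ‖w‖ + ρ ^ 2 * 2 ^ (a + k) + ρ / √β.ℓ) := by
    intro k hk
    have h6 := not_mem_biUnion (not_mem_biUnion (not_mem_biUnion (not_mem_biUnion
      (not_mem_biUnion h4 hk) heE) hyZ) hyZ') hpm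
    simp only [mem_setOf_eq, not_and, not_lt] at h6
    have h7 := h6 (hwn2.trans (O.ρ_leD a (Finset.mem_range.1 hk).le))
    refine h7.trans ?_
    unfold BP.sd
    rw [mul_assoc]
    apply mul_le_mul_of_nonneg_left _ hT.le
    apply mul_le_mul_of_nonneg_left _ (by linarith)
    have h8 : ((p : ℝ) * ι) ^ 2 / (1 / 2) ^ (a + k) ≤ ρ ^ 2 * 2 ^ (a + k) := by
      rw [one_div, inv_pow, div_inv_eq_mul]
      gcongr
    have h9 : (p : ℝ) * ι / √β.ℓ ≤ ρ / √β.ℓ := by gcongr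
    linarith
  have hsumX : |∑ k ∈ Finset.range β.m, β.X h a k p e' y y' ω| ≤
      β.T * c.A * (β.m * √β.ℓ * ‖w‖ + β.r * ρ + β.m * (ρ / √β.ℓ)) := by
    refine (Finset.abs_sum_le_sum_abs _ _).trans ((Finset.sum_le_sum hX).trans ?_)
    rw [← Finset.mul_sum, Finset.sum_add_distrib, Finset.sum_add_distrib, Finset.sum_const,
      Finset.sum_const, ← Finset.mul_sum, Finset.card_range, nsmul_eq_mul, nsmul_eq_mul]
    have h6 : ∑ k ∈ Finset.range β.m, (2 : ℝ) ^ (a + k) ≤ 2 ^ (a + β.m) := by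
      have h7 : ∀ k, (2 : ℝ) ^ (a + k) = 2 ^ a * 2 ^ k := fun k => pow_add _ _ _
      simp_rw [h7]
      rw [← Finset.mul_sum, geom_sum_eq (by norm_num)]
      have h9 : (0 : ℝ) < 2 ^ a := by positivity
      have h11 : (2 : ℝ) - 1 = 1 := by norm_num
      rw [h11, div_one]
      nlinarith
    have h7 : ρ ^ 2 * ∑ k ∈ Finset.range β.m, (2 : ℝ) ^ (a + k) ≤ β.r * ρ := by
      have h8 := BP.OK.ρ_mul (β := β) a
      calc ρ ^ 2 * ∑ k ∈ Finset.range β.m, (2 : ℝ) ^ (a + k) ≤ ρ ^ 2 * 2 ^ (a + β.m) := by gcongr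
        _ = (ρ * 2 ^ (a + β.m)) * ρ := by ring
        _ = β.r * ρ := by rw [h8]
    apply mul_le_mul_of_nonneg_left _ (by positivity)
    have h8 : (β.m : ℝ) * (√β.ℓ * ‖w‖) = β.m * √β.ℓ * ‖w‖ := by ring
    linarith
  -- the increment of V
  have hVd : β.V h a e ω z' - β.V h a e ω z =
      β.ξ * ∑ k ∈ Finset.range β.m, β.X h a k p e' y y' ω +
        β.ξ * ((p : ℝ) * ι) * β.Φ h a y ω := by
    have g1 : β.Φ h a y ω = ∑ k ∈ Finset.range β.m, ph h (a + k) y ω := (tele_ph _ _ _ _).symm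
    have g2 : β.V h a e ω z' - β.V h a e ω z = β.ξ * ∑ k ∈ Finset.range β.m,
        (vf h (a + k) ι (β.n a k) e' y' ω - vf h (a + k) ι (β.n a k) e' y ω) := by
      rw [Finset.sum_sub_distrib, mul_sub]
      rfl
    rw [g1, g2, mul_assoc, ← mul_add, Finset.mul_sum (Finset.range β.m) _ ((p : ℝ) * ι),
      ← Finset.sum_add_distrib]
    congr 1
    apply Finset.sum_congr rfl
    intro k _
    unfold BP.X
    simp only [Pi.sub_apply, Pi.smul_apply, smul_eq_mul]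
    ring
  have e1 := det_lattice O h1 hyZ
  have e2 := det_round O hh h5 hz
  rw [← hι, ← hy] at e2
  have hη : β.ξ * (β.T * √(β.m : ℝ)) ≤ β.η c := by
    unfold BP.η
    have := mul_nonneg hξ.le (oc_nonneg O)
    linarith
  have hmain : |β.ξ * β.Φ h a z ω * q - β.ξ * ((p : ℝ) * ι) * β.Φ h a y ω| ≤
      (β.ω c + β.η c * β.δ) * ρ := by
    have h6 : β.ξ * β.Φ h a z ω * q - β.ξ * ((p : ℝ) * ι) * β.Φ h a y ω =
        β.ξ * (β.Φ h a z ω - β.Φ h a y ω) * q + β.ξ * β.Φ h a y ω * (q - p * ι) := by ring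
    rw [h6]
    refine (abs_add_le _ _).trans ?_
    have h7 : |β.ξ * (β.Φ h a z ω - β.Φ h a y ω) * q| ≤ β.ω c * ρ := by
      rw [abs_mul, abs_mul, abs_of_pos hξ, abs_of_nonneg hq]
      have h8 := oc_nonneg O
      have h9 : β.ξ * |β.Φ h a z ω - β.Φ h a y ω| ≤ β.ω c := by
        unfold BP.ω
        have := mul_le_mul_of_nonneg_left e2 hξ.le
        have := mul_nonneg hξ.le h8
        linarith
      exact mul_le_mul h9 hqρ hq ((mul_nonneg hξ.le (abs_nonneg _)).trans h9)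
    have h8 : |β.ξ * β.Φ h a y ω * (q - p * ι)| ≤ β.η c * β.δ * ρ := by
      rw [abs_mul, mul_assoc, ← hιρ, abs_of_nonneg (by linarith : 0 ≤ q - p * ι)]
      exact mul_le_mul (e1.trans hη) (by linarith) (by linarith)
        ((abs_nonneg _).trans (e1.trans hη))
    linarith
  rw [hVd]
  have h6 : β.ξ * β.Φ h a z ω * q - (β.ξ * ∑ k ∈ Finset.range β.m, β.X h a k p e' y y' ω +
        β.ξ * ((p : ℝ) * ι) * β.Φ h a y ω) =
      (β.ξ * β.Φ h a z ω * q - β.ξ * ((p : ℝ) * ι) * β.Φ h a y ω) -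
        β.ξ * ∑ k ∈ Finset.range β.m, β.X h a k p e' y y' ω := by ring
  rw [h6]
  refine (abs_sub _ _).trans ?_
  have h7 : |β.ξ * ∑ k ∈ Finset.range β.m, β.X h a k p e' y y' ω| ≤
      β.Lv c * ‖perp‖ + β.e0 c * ρ := by
    rw [abs_mul, abs_of_pos hξ]
    refine (mul_le_mul_of_nonneg_left hsumX hξ.le).trans ?_
    have h8 : β.ξ * (β.T * c.A * (β.m * √β.ℓ * ‖w‖ + β.r * ρ + β.m * (ρ / √β.ℓ))) ≤
        β.ξ * (β.T * c.A * (β.m * √β.ℓ * (‖perp‖ + 4 * (√d * β.δ * ρ)) + β.r * ρ +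
          β.m * (ρ / √β.ℓ))) := by gcongr
    refine h8.trans (le_of_eq ?_)
    unfold BP.Lv BP.e0
    ring
  linarith

theorem det_dual (O : β.OK c) (hh : IsField K P h) {a : ℕ} {x e : Pt d} {ω : Ω}
    (he : ‖e‖ = 1) (h1 : ω ∉ β.E1 h a x) (h2 : ω ∉ β.E2 c h a x)
    (h4 : ω ∉ β.E4 c h a x) (h5 : ω ∉ β.E5 c h a x) :
    Dual β.ξ (fun z => β.Φ h a z ω) (Metric.closedBall x (β.R * (1 / 2) ^ a)) (β.ρ a) (β.Lv c)
      (β.ε3 c) e (β.V h a e ω) := by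
  intro z hz z' hz' hzz
  rw [mem_closedBall_iff_norm] at hz hz'
  have hρ := O.ρ_pos a
  have hω : 0 ≤ β.ω c := by
    unfold BP.ω
    have := oc_nonneg O
    have := O.hξ
    positivity
  rcases le_total 0 ⟪z' - z, e⟫ with hq | hq
  · have h6 := det_dual_pos O hh he h1 h4 h5 hz hz' hzz hq
    refine h6.trans ?_
    unfold BP.ε3
    have := mul_nonneg hω hρ.le
    linarith
  · have hq' : 0 ≤ ⟪z - z', e⟫ := by
      rw [← neg_sub, inner_neg_left]; linarith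
    have h6 := det_dual_pos O hh he h1 h4 h5 hz' hz (by rw [norm_sub_rev]; exact hzz) hq'
    have h7 := det_osc O hh h2 h5 hz hz' hzz
    set q := ⟪z' - z, e⟫ with hqdef
    have hqq : ⟪z - z', e⟫ = -q := by rw [hqdef, ← inner_neg_left, neg_sub]
    rw [hqq] at h6
    have hperp : z - z' - (-q) • e = -((z' - z) - q • e) := by module
    rw [hperp, norm_neg] at h6
    have hqρ : |q| ≤ β.ρ a := by
      have := abs_real_inner_le_norm (z' - z) e
      rw [he, mul_one] at this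
      exact this.trans hzz
    have h8 : β.ξ * β.Φ h a z ω * q - (β.V h a e ω z' - β.V h a e ω z) =
        -(β.ξ * β.Φ h a z' ω * -q - (β.V h a e ω z - β.V h a e ω z')) -
          (β.ξ * β.Φ h a z' ω - β.ξ * β.Φ h a z ω) * q := by ring
    rw [h8]
    refine (abs_sub _ _).trans ?_
    rw [abs_neg]
    have h9 : |(β.ξ * β.Φ h a z' ω - β.ξ * β.Φ h a z ω) * q| ≤ β.ω c * β.ρ a := by
      rw [abs_mul]
      exact mul_le_mul h7 hqρ (abs_nonneg _) hω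
    unfold BP.ε3
    linarith

end Pool.Agent.Helper97.LogFPP
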