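import Pool.Agent.Helper97.LogFPP.U.Var

set_option autoImplicit false
set_option maxHeartbeats 400000

open MeasureTheory ProbabilityTheory Set Filter Topology
open scoped NNReal ENNReal RealInnerProductSpace

namespace Pool.Agent.Helper97.LogFPP

variable {d : ℕ} {K : Pt d → ℝ} {Ω : Type*} {mΩ : MeasurableSpace Ω} {P : Measure Ω}
  {h : ℕ → Pt d → Ω → ℝ}

/-- one band -/
def ph (h : ℕ → Pt d → Ω → ℝ) (k : ℕ) (z : Pt d) : Ω → ℝ := bnd h k (k + 1) z

/-- the dual function of one band along the direction `e` -/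
noncomputable def vf (h : ℕ → Pt d → Ω → ℝ) (k : ℕ) (ι : ℝ) (n : ℕ) (e z : Pt d) : Ω → ℝ :=
  ∑ s ∈ Finset.range n, (ι * (1 - (s : ℝ) / n)) • ph h k (z - ((s : ℝ) * ι) • e)

/-- the average of one band along the direction `e` -/
noncomputable def av (h : ℕ → Pt d → Ω → ℝ) (k : ℕ) (ι : ℝ) (n : ℕ) (e z : Pt d) : Ω → ℝ :=
  ∑ s ∈ Finset.range n, (1 / (n : ℝ)) • ph h k (z - ((s : ℝ) * ι) • e)

omit mΩ in
theorem ph_mem (k : ℕ) (z : Pt d) : ph h k z ∈ HS h := bnd_mem _ _ _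

omit mΩ in
theorem vf_mem (k : ℕ) (ι : ℝ) (n : ℕ) (e z : Pt d) : vf h k ι n e z ∈ HS h :=
  Submodule.sum_mem _ fun _ _ => Submodule.smul_mem _ _ (ph_mem _ _)

omit mΩ in
theorem av_mem (k : ℕ) (ι : ℝ) (n : ℕ) (e z : Pt d) : av h k ι n e z ∈ HS h :=
  Submodule.sum_mem _ fun _ _ => Submodule.smul_mem _ _ (ph_mem _ _)

theorem parts_identity (n N : ℕ) (g : ℕ → Ω → ℝ) (hn : (n : ℝ) ≠ 0) :
    ∑ s ∈ Finset.range N, (1 - (s : ℝ) / n) • (g s - g (s + 1)) =
      g 0 - (1 - (N : ℝ) / n) • g N - ∑ s ∈ Finset.range N, (1 / (n : ℝ)) • g (s + 1) := by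
  induction N with
  | zero => simp
  | succ N ih =>
    rw [Finset.sum_range_succ, Finset.sum_range_succ, ih]
    push_cast
    funext ω
    simp only [Pi.add_apply, Pi.sub_apply, Pi.smul_apply, smul_eq_mul, Finset.sum_apply]
    field_simp
    ring

omit mΩ in
theorem vf_step {n : ℕ} (hn : 0 < n) (k : ℕ) (ι : ℝ) (e z : Pt d) :
    vf h k ι n e (z + ι • e) - vf h k ι n e z =
      ι • (ph h k (z + ι • e) - av h k ι n e z) := by
  have hn' : (n : ℝ) ≠ 0 := by positivity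
  set g : ℕ → Ω → ℝ := fun s => ph h k (z + ι • e - ((s : ℝ) * ι) • e) with hg
  have h1 : vf h k ι n e (z + ι • e) = ι • ∑ s ∈ Finset.range n, (1 - (s : ℝ) / n) • g s := by
    unfold vf
    rw [Finset.smul_sum]
    apply Finset.sum_congr rfl
    intro s _
    rw [smul_smul]
  have hg1 : ∀ s : ℕ, ph h k (z - ((s : ℝ) * ι) • e) = g (s + 1) := by
    intro s
    simp only [hg]
    congr 1
    push_cast
    module
  have h2 : vf h k ι n e z = ι • ∑ s ∈ Finset.range n, (1 - (s : ℝ) / n) • g (s + 1) := by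
    unfold vf
    rw [Finset.smul_sum]
    apply Finset.sum_congr rfl
    intro s _
    rw [smul_smul, hg1]
  have h3 : av h k ι n e z = ∑ s ∈ Finset.range n, (1 / (n : ℝ)) • g (s + 1) := by
    unfold av
    apply Finset.sum_congr rfl
    intro s _
    rw [hg1]
  have h4 := parts_identity n n g hn'
  rw [div_self hn', sub_self, zero_smul, sub_zero] at h4
  have h5 : g 0 = ph h k (z + ι • e) := by simp [hg]
  rw [h1, h2, h3, ← smul_sub, ← Finset.sum_sub_distrib]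
  congr 1
  rw [← h5, ← h4]
  apply Finset.sum_congr rfl
  intro s _
  rw [smul_sub]

/-- constants for the variance bounds -/
structure VC (K : Pt d → ℝ) where
  D : ℝ
  C : ℝ
  D_pos : 0 < D
  C_pos : 0 < C
  far : ∀ z, D ≤ ‖z‖ → acf K z = 0
  quad : ∀ z, 1 - acf K z ≤ C * ‖z‖ ^ 2

theorem exists_vc (hK : IsKernel K) : Nonempty (VC K) := by
  obtain ⟨D, hD, h1⟩ := acf_support hK
  obtain ⟨C, hC, h2⟩ := acf_quad hK
  exact ⟨⟨D, C, hD, hC, h1, h2⟩⟩

/-- the constant in the standard deviation bounds -/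
noncomputable def VC.A (c : VC K) : ℝ := 1 + 320 * c.C * c.D + 128 * c.C + 24 * c.D

theorem VC.A_ge (c : VC K) : 1 ≤ c.A := by
  have := c.D_pos
  have := c.C_pos
  have h1 : 0 < 320 * c.C * c.D := by positivity
  unfold VC.A; linarith

section
variable (c : VC K) (hh : IsField K P h) (hK : IsKernel K) {k n : ℕ} {ι ℓ : ℝ} {e : Pt d}

/-- the parameters of one band -/
structure LP (c : VC K) (k n : ℕ) (ι ℓ : ℝ) (e : Pt d) : Prop where
  hι : 0 < ι
  hn : 0 < n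
  hℓ : 0 < ℓ
  hιD : ι ≤ c.D * (1 / 2) ^ k
  hn1 : ℓ * (1 / 2) ^ k ≤ n * ι
  hn2 : n * ι ≤ 2 * ℓ * (1 / 2) ^ k
  he1 : 1 / 2 ≤ ‖e‖
  he2 : ‖e‖ ≤ 2

include hh hK

theorem ph_var (z : Pt d) : Var[ph h k z; P] ≤ 1 := by
  unfold ph
  rw [hh.var_bnd hK (Nat.le_succ k)]
  push_cast
  have := Real.log_two_lt_d9
  nlinarith

theorem ph_cov {x y : Pt d} (hxy : c.D * (1 / 2) ^ k ≤ ‖x - y‖) :
    cov[ph h k x, ph h k y; P] = 0 := by
  unfold ph
  rw [hh.cov_bnd_same hK (Nat.le_succ k)]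
  exact Kb_far c.far _ _ hxy

theorem ph_sub_var (x y : Pt d) :
    Var[ph h k x - ph h k y; P] ≤ 8 * c.C * ‖x - y‖ ^ 2 / ((1 / 2 : ℝ) ^ k) ^ 2 := by
  have h1 := var_bnd_sub hh hK c.C_pos c.quad (Nat.le_succ k) x y
  refine h1.trans (le_of_eq ?_)
  have h2 : ((2 : ℝ) ^ (k + 1)) ^ 2 = 4 / ((1 / 2 : ℝ) ^ k) ^ 2 := by
    rw [one_div, inv_pow, inv_pow, div_inv_eq_mul, pow_succ]; ring
  rw [Nat.succ_eq_add_one, h2]
  ring

theorem ph_memLp (z : Pt d) : MemLp (ph h k z) 2 P := LS_memLp hh.gaussian (ph_mem k z)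

theorem ph_sub_memLp (z z' : Pt d) : MemLp (ph h k z - ph h k z') 2 P :=
  (ph_memLp hh hK z).sub (ph_memLp hh hK z')

theorem vf_var (L : LP c k n ι ℓ e) (z : Pt d) :
    Var[vf h k ι n e z; P] ≤ 12 * c.D * ℓ * ((1 / 2 : ℝ) ^ k) ^ 2 := by
  have := hh.gaussian.isProbabilityMeasure
  have hlp := half_pow_pos k
  set lam : ℝ := (1 / 2 : ℝ) ^ k with hlam
  have hι := L.hι
  have hD := c.D_pos
  have hn : (0 : ℝ) < n := by exact_mod_cast L.hn
  set H := ⌈2 * c.D * lam / ι⌉₊ with hH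
  have hH1 : 2 * c.D * lam / ι ≤ H := Nat.le_ceil _
  have hH2 : (H : ℝ) < 2 * c.D * lam / ι + 1 := Nat.ceil_lt_add_one (by positivity)
  rw [div_le_iff₀ hι] at hH1
  have hH3 : (H : ℝ) * ι ≤ 3 * c.D * lam := by
    have h1 : (H : ℝ) * ι ≤ (2 * c.D * lam / ι + 1) * ι := mul_le_mul_of_nonneg_right hH2.le hι.le
    have h2 : (2 * c.D * lam / ι + 1) * ι = 2 * c.D * lam + ι := by field_simp
    have := L.hιD
    linarith
  have h1 := var_range_le (P := P) (n := n) (H := H)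
    (X := fun s => (ι * (1 - (s : ℝ) / n)) • ph h k (z - ((s : ℝ) * ι) • e))
    (fun s _ => (ph_memLp hh hK _).const_smul _) (σ2 := ι ^ 2) (sq_nonneg _)
    (fun s hs => by
      rw [variance_smul]
      have h2 := ph_var hh hK (k := k) (z - ((s : ℝ) * ι) • e)
      have h3 : 0 ≤ 1 - (s : ℝ) / n := by
        rw [sub_nonneg, div_le_one hn]; exact_mod_cast hs.le
      have h4 : 1 - (s : ℝ) / n ≤ 1 := by
        have : 0 ≤ (s : ℝ) / n := by positivity
        linarith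
      have h5 : (ι * (1 - (s : ℝ) / n)) ^ 2 ≤ ι ^ 2 := by
        apply pow_le_pow_left₀ (by positivity)
        nlinarith
      have h6 := variance_nonneg (ph h k (z - ((s : ℝ) * ι) • e)) P
      have h7 : 0 ≤ ι ^ 2 := sq_nonneg _
      nlinarith)
    (fun i _ j _ hij => by
      rw [covariance_smul_left, covariance_smul_right, ph_cov c hh hK, mul_zero, mul_zero]
      have h2 : z - ((i : ℝ) * ι) • e - (z - ((j : ℝ) * ι) • e) = (((j : ℝ) - i) * ι) • e := by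
        module
      rw [h2, norm_smul, Real.norm_eq_abs, abs_mul, abs_of_pos hι]
      have h3 : (H : ℝ) ≤ |(j : ℝ) - i| := by
        rcases hij with h | h
        · have : (i : ℝ) + H ≤ j := by exact_mod_cast h
          exact le_trans (by linarith) (le_abs_self _)
        · have : (j : ℝ) + H ≤ i := by exact_mod_cast h
          exact le_trans (by linarith) (neg_le_abs _)
      have h4 : (H : ℝ) * ι * (1 / 2) ≤ |(j : ℝ) - i| * ι * ‖e‖ := by
        have := L.he1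
        gcongr
      linarith)
  refine (h1).trans ?_
  have h8 : (n : ℝ) * (2 * H) * ι ^ 2 = 2 * (n * ι) * (H * ι) := by ring
  rw [h8]
  have h9 := L.hn2
  calc 2 * (n * ι) * (H * ι) ≤ 2 * (2 * ℓ * lam) * (3 * c.D * lam) := by
        have : 0 ≤ (H : ℝ) * ι := by positivity
        have := L.hℓ
        gcongr
    _ = _ := by ring

theorem av_var (L : LP c k n ι ℓ e) (z : Pt d) :
    Var[av h k ι n e z; P] ≤ 6 * c.D / ℓ := by
  have := hh.gaussian.isProbabilityMeasure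
  have hlp := half_pow_pos k
  set lam : ℝ := (1 / 2 : ℝ) ^ k with hlam
  have hι := L.hι
  have hD := c.D_pos
  have hℓ := L.hℓ
  have hn : (0 : ℝ) < n := by exact_mod_cast L.hn
  set H := ⌈2 * c.D * lam / ι⌉₊ with hH
  have hH1 : 2 * c.D * lam / ι ≤ H := Nat.le_ceil _
  have hH2 : (H : ℝ) < 2 * c.D * lam / ι + 1 := Nat.ceil_lt_add_one (by positivity)
  rw [div_le_iff₀ hι] at hH1
  have hH3 : (H : ℝ) * ι ≤ 3 * c.D * lam := by
    have h1 : (H : ℝ) * ι ≤ (2 * c.D * lam / ι + 1) * ι := mul_le_mul_of_nonneg_right hH2.le hι.le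
    have h2 : (2 * c.D * lam / ι + 1) * ι = 2 * c.D * lam + ι := by field_simp
    have := L.hιD
    linarith
  have h1 := var_range_le (P := P) (n := n) (H := H)
    (X := fun s => (1 / (n : ℝ)) • ph h k (z - ((s : ℝ) * ι) • e))
    (fun s _ => (ph_memLp hh hK _).const_smul _) (σ2 := (1 / (n : ℝ)) ^ 2) (sq_nonneg _)
    (fun s hs => by
      rw [variance_smul]
      have h2 := ph_var hh hK (k := k) (z - ((s : ℝ) * ι) • e)
      have h7 : 0 ≤ (1 / (n : ℝ)) ^ 2 := sq_nonneg _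
      nlinarith)
    (fun i _ j _ hij => by
      rw [covariance_smul_left, covariance_smul_right, ph_cov c hh hK, mul_zero, mul_zero]
      have h2 : z - ((i : ℝ) * ι) • e - (z - ((j : ℝ) * ι) • e) = (((j : ℝ) - i) * ι) • e := by
        module
      rw [h2, norm_smul, Real.norm_eq_abs, abs_mul, abs_of_pos hι]
      have h3 : (H : ℝ) ≤ |(j : ℝ) - i| := by
        rcases hij with h | h
        · have : (i : ℝ) + H ≤ j := by exact_mod_cast h
          exact le_trans (by linarith) (le_abs_self _)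
        · have : (j : ℝ) + H ≤ i := by exact_mod_cast h
          exact le_trans (by linarith) (neg_le_abs _)
      have h4 : (H : ℝ) * ι * (1 / 2) ≤ |(j : ℝ) - i| * ι * ‖e‖ := by
        have := L.he1
        gcongr
      linarith)
  refine (h1).trans ?_
  have h9 := L.hn1
  rw [le_div_iff₀ hℓ]
  have h8 : (n : ℝ) * (2 * H) * (1 / n) ^ 2 * ℓ = 2 * (H * ι) * ℓ / (n * ι) := by field_simp
  rw [h8, div_le_iff₀ (by positivity)]
  calc 2 * (H * ι) * ℓ ≤ 2 * (3 * c.D * lam) * ℓ := by gcongr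
    _ = 6 * c.D * (ℓ * lam) := by ring
    _ ≤ 6 * c.D * (n * ι) := by gcongr

theorem vf_sub_var (L : LP c k n ι ℓ e) (z δ : Pt d) (hδ : ‖δ‖ ≤ c.D * (1 / 2) ^ k) :
    Var[vf h k ι n e (z + δ) - vf h k ι n e z; P] ≤ 160 * c.C * c.D * ℓ * ‖δ‖ ^ 2 := by
  have := hh.gaussian.isProbabilityMeasure
  have hlp := half_pow_pos k
  set lam : ℝ := (1 / 2 : ℝ) ^ k with hlam
  have hι := L.hι
  have hD := c.D_pos
  have hC := c.C_pos
  have hn : (0 : ℝ) < n := by exact_mod_cast L.hn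
  set H := ⌈4 * c.D * lam / ι⌉₊ with hH
  have hH1 : 4 * c.D * lam / ι ≤ H := Nat.le_ceil _
  have hH2 : (H : ℝ) < 4 * c.D * lam / ι + 1 := Nat.ceil_lt_add_one (by positivity)
  rw [div_le_iff₀ hι] at hH1
  have hH3 : (H : ℝ) * ι ≤ 5 * c.D * lam := by
    have h1 : (H : ℝ) * ι ≤ (4 * c.D * lam / ι + 1) * ι := mul_le_mul_of_nonneg_right hH2.le hι.le
    have h2 : (4 * c.D * lam / ι + 1) * ι = 4 * c.D * lam + ι := by field_simp
    have := L.hιD
    linarith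
  have hsplit : vf h k ι n e (z + δ) - vf h k ι n e z = ∑ s ∈ Finset.range n,
      (ι * (1 - (s : ℝ) / n)) • (ph h k (z + δ - ((s : ℝ) * ι) • e) -
        ph h k (z - ((s : ℝ) * ι) • e)) := by
    unfold vf
    rw [← Finset.sum_sub_distrib]
    apply Finset.sum_congr rfl
    intro s _
    rw [smul_sub]
  rw [hsplit]
  have h1 := var_range_le (P := P) (n := n) (H := H)
    (X := fun s => (ι * (1 - (s : ℝ) / n)) • (ph h k (z + δ - ((s : ℝ) * ι) • e) -
        ph h k (z - ((s : ℝ) * ι) • e)))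
    (fun s _ => (ph_sub_memLp hh hK _ _).const_smul _)
    (σ2 := ι ^ 2 * (8 * c.C * ‖δ‖ ^ 2 / lam ^ 2)) (by positivity)
    (fun s hs => by
      rw [variance_smul]
      have h2 := ph_sub_var c hh hK (k := k) (z + δ - ((s : ℝ) * ι) • e) (z - ((s : ℝ) * ι) • e)
      have h2' : z + δ - ((s : ℝ) * ι) • e - (z - ((s : ℝ) * ι) • e) = δ := by abel
      rw [h2'] at h2
      have h3 : 0 ≤ 1 - (s : ℝ) / n := by
        rw [sub_nonneg, div_le_one hn]; exact_mod_cast hs.le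
      have h4 : 1 - (s : ℝ) / n ≤ 1 := by
        have : 0 ≤ (s : ℝ) / n := by positivity
        linarith
      have h5 : (ι * (1 - (s : ℝ) / n)) ^ 2 ≤ ι ^ 2 := by
        apply pow_le_pow_left₀ (by positivity)
        nlinarith
      exact mul_le_mul h5 h2 (variance_nonneg _ _) (sq_nonneg _))
    (fun i _ j _ hij => by
      have h3 : (H : ℝ) ≤ |(j : ℝ) - i| := by
        rcases hij with h | h
        · have : (i : ℝ) + H ≤ j := by exact_mod_cast h
          exact le_trans (by linarith) (le_abs_self _)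
        · have : (j : ℝ) + H ≤ i := by exact_mod_cast h
          exact le_trans (by linarith) (neg_le_abs _)
      have h4 : (H : ℝ) * ι * (1 / 2) ≤ |(j : ℝ) - i| * ι * ‖e‖ := by
        have := L.he1
        gcongr
      have h5 : ‖(((j : ℝ) - i) * ι) • e‖ = |(j : ℝ) - i| * ι * ‖e‖ := by
        rw [norm_smul, Real.norm_eq_abs, abs_mul, abs_of_pos hι]
      have far : ∀ x y r : Pt d, x - y = (((j : ℝ) - i) * ι) • e + r → ‖r‖ ≤ ‖δ‖ →
          cov[ph h k x, ph h k y; P] = 0 := by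
        intro x y r hxy hr
        apply ph_cov c hh hK
        rw [hxy]
        have h6 := norm_sub_le ((((j : ℝ) - i) * ι) • e + r) r
        rw [add_sub_cancel_right] at h6
        linarith
      have h7 : ‖-δ‖ ≤ ‖δ‖ := by rw [norm_neg]
      have h8 : ‖(0 : Pt d)‖ ≤ ‖δ‖ := by rw [norm_zero]; exact norm_nonneg _
      rw [covariance_smul_left, covariance_smul_right,
        covariance_sub_left (ph_memLp hh hK _) (ph_memLp hh hK _) (ph_sub_memLp hh hK _ _),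
        covariance_sub_right (ph_memLp hh hK _) (ph_memLp hh hK _) (ph_memLp hh hK _),
        covariance_sub_right (ph_memLp hh hK _) (ph_memLp hh hK _) (ph_memLp hh hK _),
        far (z + δ - ((i : ℝ) * ι) • e) (z + δ - ((j : ℝ) * ι) • e) 0 (by module) h8,
        far (z + δ - ((i : ℝ) * ι) • e) (z - ((j : ℝ) * ι) • e) δ (by module) le_rfl,
        far (z - ((i : ℝ) * ι) • e) (z + δ - ((j : ℝ) * ι) • e) (-δ) (by module) h7,
        far (z - ((i : ℝ) * ι) • e) (z - ((j : ℝ) * ι) • e) 0 (by module) h8]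
      ring)
  refine (h1).trans ?_
  have h8 : (n : ℝ) * (2 * H) * (ι ^ 2 * (8 * c.C * ‖δ‖ ^ 2 / lam ^ 2)) =
      16 * c.C * ‖δ‖ ^ 2 * (n * ι) * (H * ι) / lam ^ 2 := by ring
  rw [h8, div_le_iff₀ (by positivity)]
  have h9 := L.hn2
  have hℓ := L.hℓ
  calc 16 * c.C * ‖δ‖ ^ 2 * (n * ι) * (H * ι) ≤
        16 * c.C * ‖δ‖ ^ 2 * (2 * ℓ * lam) * (5 * c.D * lam) := by
        have : 0 ≤ (H : ℝ) * ι := by positivity
        gcongr
    _ = _ := by ring

theorem vf_line_var (L : LP c k n ι ℓ e) (y : Pt d) (p : ℕ) :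
    Var[vf h k ι n e (y + ((p : ℝ) * ι) • e) - vf h k ι n e y - ((p : ℝ) * ι) • ph h k y; P] ≤
      ((p : ℝ) * ι) ^ 2 * (64 * c.C * ((p : ℝ) * ι) ^ 2 / ((1 / 2 : ℝ) ^ k) ^ 2 +
        12 * c.D / ℓ) := by
  have := hh.gaussian.isProbabilityMeasure
  have hlp := half_pow_pos k
  set lam : ℝ := (1 / 2 : ℝ) ^ k with hlam
  have hι := L.hι
  have hD := c.D_pos
  have hC := c.C_pos
  have hℓ := L.hℓ
  have hsplit : vf h k ι n e (y + ((p : ℝ) * ι) • e) - vf h k ι n e y - ((p : ℝ) * ι) • ph h k y =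
      ∑ q ∈ Finset.range p, ι • ((ph h k (y + (((q : ℝ) + 1) * ι) • e) - ph h k y) -
        av h k ι n e (y + ((q : ℝ) * ι) • e)) := by
    have h1 : vf h k ι n e (y + ((p : ℝ) * ι) • e) - vf h k ι n e y =
        ∑ q ∈ Finset.range p, (vf h k ι n e (y + (((q + 1 : ℕ) : ℝ) * ι) • e) -
          vf h k ι n e (y + ((q : ℝ) * ι) • e)) := by
      rw [Finset.sum_range_sub (fun q : ℕ => vf h k ι n e (y + ((q : ℝ) * ι) • e))]
      simp
    have h2 : ((p : ℝ) * ι) • ph h k y = ∑ _q ∈ Finset.range p, ι • ph h k y := by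
      rw [Finset.sum_const, Finset.card_range, ← Nat.cast_smul_eq_nsmul ℝ, smul_smul]
    rw [h1, h2, ← Finset.sum_sub_distrib]
    apply Finset.sum_congr rfl
    intro q _
    have h3 := vf_step (h := h) L.hn k ι e (y + ((q : ℝ) * ι) • e)
    have h4 : y + ((q : ℝ) * ι) • e + ι • e = y + (((q + 1 : ℕ) : ℝ) * ι) • e := by
      push_cast; module
    have h5 : y + (((q + 1 : ℕ) : ℝ) * ι) • e = y + (((q : ℝ) + 1) * ι) • e := by
      push_cast; rfl
    rw [h4] at h3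
    rw [h3, h5]
    module
  rw [hsplit]
  set B := 64 * c.C * ((p : ℝ) * ι) ^ 2 / lam ^ 2 + 12 * c.D / ℓ with hB
  have h1 := var_sum_le (P := P) (Finset.range p)
    (X := fun q : ℕ => ι • ((ph h k (y + (((q : ℝ) + 1) * ι) • e) - ph h k y) -
        av h k ι n e (y + ((q : ℝ) * ι) • e)))
    (fun q _ => ((ph_sub_memLp hh hK _ _).sub (LS_memLp hh.gaussian (av_mem _ _ _ _ _))).const_smul _)
    (σ2 := ι ^ 2 * B)
    (fun q hq => by
      rw [variance_smul]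
      apply mul_le_mul_of_nonneg_left _ (sq_nonneg _)
      have mav := LS_memLp hh.gaussian (av_mem (h := h) k ι n e (y + ((q : ℝ) * ι) • e))
      have h2 := var_add_le (P := P) (ph_sub_memLp hh hK (k := k) (y + (((q : ℝ) + 1) * ι) • e) y)
        mav.neg
      rw [← sub_eq_add_neg, variance_neg] at h2
      refine h2.trans ?_
      have h3 := av_var c hh hK L (y + ((q : ℝ) * ι) • e)
      have h4 := ph_sub_var c hh hK (k := k) (y + (((q : ℝ) + 1) * ι) • e) y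
      rw [add_sub_cancel_left] at h4
      have hq' : (q : ℝ) + 1 ≤ p := by exact_mod_cast Finset.mem_range.1 hq
      have h5 : ‖(((q : ℝ) + 1) * ι) • e‖ ^ 2 ≤ 4 * ((p : ℝ) * ι) ^ 2 := by
        rw [norm_smul, Real.norm_of_nonneg (by positivity)]
        have h6 : ((q : ℝ) + 1) * ι * ‖e‖ ≤ p * ι * 2 := by
          have := L.he2
          gcongr
        have h7 := pow_le_pow_left₀ (by positivity) h6 2
        refine h7.trans (le_of_eq ?_)
        ring
      have h8 : 8 * c.C * ‖(((q : ℝ) + 1) * ι) • e‖ ^ 2 / lam ^ 2 ≤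
          8 * c.C * (4 * ((p : ℝ) * ι) ^ 2) / lam ^ 2 := by gcongr
      have h9 : B = 2 * (8 * c.C * (4 * ((p : ℝ) * ι) ^ 2) / lam ^ 2 + 6 * c.D / ℓ) := by
        rw [hB]; ring
      rw [h9]
      linarith)
  refine h1.trans (le_of_eq ?_)
  rw [Finset.card_range]; ring

/-- the standard deviation of the error of a step -/
theorem step_var (L : LP c k n ι ℓ e) (y y' δ : Pt d) (p : ℕ)
    (hδ : y' = y + ((p : ℝ) * ι) • e + δ) (hδ2 : ‖δ‖ ≤ c.D * (1 / 2) ^ k) :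
    Var[vf h k ι n e y' - vf h k ι n e y - ((p : ℝ) * ι) • ph h k y; P] ≤
      (c.A * (√ℓ * ‖δ‖ + ((p : ℝ) * ι) ^ 2 / (1 / 2) ^ k + (p : ℝ) * ι / √ℓ)) ^ 2 := by
  have := hh.gaussian.isProbabilityMeasure
  have hlp := half_pow_pos k
  set lam : ℝ := (1 / 2 : ℝ) ^ k with hlam
  have hι := L.hι
  have hD := c.D_pos
  have hC := c.C_pos
  have hℓ := L.hℓ
  have hA := c.A_ge
  have e1 : vf h k ι n e y' - vf h k ι n e y - ((p : ℝ) * ι) • ph h k y =
      (vf h k ι n e ((y + ((p : ℝ) * ι) • e) + δ) - vf h k ι n e (y + ((p : ℝ) * ι) • e)) +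
      (vf h k ι n e (y + ((p : ℝ) * ι) • e) - vf h k ι n e y - ((p : ℝ) * ι) • ph h k y) := by
    rw [← hδ]; abel
  rw [e1]
  have m1 : MemLp (vf h k ι n e ((y + ((p : ℝ) * ι) • e) + δ) -
      vf h k ι n e (y + ((p : ℝ) * ι) • e)) 2 P :=
    LS_memLp hh.gaussian (Submodule.sub_mem _ (vf_mem _ _ _ _ _) (vf_mem _ _ _ _ _))
  have m2 : MemLp (vf h k ι n e (y + ((p : ℝ) * ι) • e) - vf h k ι n e y -
      ((p : ℝ) * ι) • ph h k y) 2 P :=
    LS_memLp hh.gaussian (Submodule.sub_mem _ (Submodule.sub_mem _ (vf_mem _ _ _ _ _)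
      (vf_mem _ _ _ _ _)) (Submodule.smul_mem _ _ (ph_mem _ _)))
  refine (var_add_le m1 m2).trans ?_
  have h1 := vf_sub_var c hh hK L (y + ((p : ℝ) * ι) • e) δ hδ2
  have h2 := vf_line_var c hh hK L y p
  set q : ℝ := (p : ℝ) * ι with hq
  have hq0 : 0 ≤ q := by positivity
  have hs : √ℓ ^ 2 = ℓ := Real.sq_sqrt hℓ.le
  have hsp : 0 < √ℓ := Real.sqrt_pos.2 hℓ
  set a1 := √ℓ * ‖δ‖ with ha1
  set a2 := q ^ 2 / lam with ha2
  set a3 := q / √ℓ with ha3
  have p1 : 0 ≤ a1 := by positivity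
  have p2 : 0 ≤ a2 := by positivity
  have p3 : 0 ≤ a3 := by positivity
  have f1 : ℓ * ‖δ‖ ^ 2 = a1 ^ 2 := by rw [ha1, mul_pow, hs]
  have f2 : q ^ 2 * (q ^ 2 / lam ^ 2) = a2 ^ 2 := by rw [ha2]; field_simp
  have f3 : q ^ 2 * (1 / ℓ) = a3 ^ 2 := by rw [ha3, div_pow, hs]; ring
  have g1 : 160 * c.C * c.D * ℓ * ‖δ‖ ^ 2 = 160 * c.C * c.D * a1 ^ 2 := by rw [← f1]; ring
  have g2 : q ^ 2 * (64 * c.C * q ^ 2 / lam ^ 2 + 12 * c.D / ℓ) =
      64 * c.C * a2 ^ 2 + 12 * c.D * a3 ^ 2 := by rw [← f2, ← f3]; ring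
  rw [g1] at h1
  rw [g2] at h2
  have hA1 : 320 * c.C * c.D ≤ c.A := by unfold VC.A; linarith
  have hA2 : 128 * c.C ≤ c.A := by
    unfold VC.A
    have : 0 < 320 * c.C * c.D := by positivity
    linarith
  have hA3 : 24 * c.D ≤ c.A := by
    unfold VC.A
    have : 0 < 320 * c.C * c.D := by positivity
    linarith
  have hAA : c.A ≤ c.A ^ 2 := by nlinarith
  have k1 : 320 * c.C * c.D * a1 ^ 2 ≤ c.A ^ 2 * a1 ^ 2 :=
    mul_le_mul_of_nonneg_right (hA1.trans hAA) (sq_nonneg _)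
  have k2 : 128 * c.C * a2 ^ 2 ≤ c.A ^ 2 * a2 ^ 2 :=
    mul_le_mul_of_nonneg_right (hA2.trans hAA) (sq_nonneg _)
  have k3 : 24 * c.D * a3 ^ 2 ≤ c.A ^ 2 * a3 ^ 2 :=
    mul_le_mul_of_nonneg_right (hA3.trans hAA) (sq_nonneg _)
  have k4 : c.A ^ 2 * a1 ^ 2 + c.A ^ 2 * a2 ^ 2 + c.A ^ 2 * a3 ^ 2 ≤
      (c.A * (a1 + a2 + a3)) ^ 2 := by
    have : 0 ≤ c.A ^ 2 := sq_nonneg _
    have e2 : (c.A * (a1 + a2 + a3)) ^ 2 = c.A ^ 2 * a1 ^ 2 + c.A ^ 2 * a2 ^ 2 +
        c.A ^ 2 * a3 ^ 2 + c.A ^ 2 * (2 * (a1 * a2 + a1 * a3 + a2 * a3)) := by ring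
    rw [e2]
    have : 0 ≤ c.A ^ 2 * (2 * (a1 * a2 + a1 * a3 + a2 * a3)) := by positivity
    linarith
  linarith

theorem vf_sd (L : LP c k n ι ℓ e) (z : Pt d) :
    Var[vf h k ι n e z; P] ≤ (c.A * (√ℓ * (1 / 2) ^ k)) ^ 2 := by
  have h1 := vf_var c hh hK L z
  refine h1.trans ?_
  have hℓ := L.hℓ
  have hD := c.D_pos
  have hC := c.C_pos
  have hA := c.A_ge
  have hs : √ℓ ^ 2 = ℓ := Real.sq_sqrt hℓ.le
  have e2 : (c.A * (√ℓ * (1 / 2) ^ k)) ^ 2 = c.A ^ 2 * (ℓ * ((1 / 2 : ℝ) ^ k) ^ 2) := by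
    rw [mul_pow, mul_pow, hs]
  rw [e2]
  have hA3 : 12 * c.D ≤ c.A := by
    unfold VC.A
    have : 0 < 320 * c.C * c.D := by positivity
    linarith
  have hAA : c.A ≤ c.A ^ 2 := by nlinarith
  have : 12 * c.D * ℓ * ((1 / 2 : ℝ) ^ k) ^ 2 = 12 * c.D * (ℓ * ((1 / 2 : ℝ) ^ k) ^ 2) := by ring
  rw [this]
  exact mul_le_mul_of_nonneg_right (hA3.trans hAA) (by positivity)

end

end Pool.Agent.Helper97.LogFPP
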