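import Pool.Agent.Helper97.LogFPP.U.Local

set_option autoImplicit false
set_option maxHeartbeats 400000

open MeasureTheory ProbabilityTheory Set Filter Topology
open scoped NNReal ENNReal RealInnerProductSpace

namespace Pool.Agent.Helper97.LogFPP

/-- parameters of the blocks -/
structure BP where
  m : ℕ
  ξ : ℝ
  r : ℝ
  R : ℝ
  T : ℝ
  ℓ : ℝ
  δ : ℝ

section defs
variable {d : ℕ} {K : Pt d → ℝ} {Ω : Type*}

/-- step size of the fine polygons -/
noncomputable def BP.ρ (β : BP) (a : ℕ) : ℝ := β.r * (1 / 2) ^ (a + β.m)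

/-- mesh -/
noncomputable def BP.g (β : BP) (a : ℕ) : ℝ := β.δ * β.ρ a

/-- radius for lattice points -/
noncomputable def BP.B (β : BP) (d a : ℕ) : ℝ := β.R * (1 / 2) ^ a + √d * β.g a

/-- lattice points -/
noncomputable def BP.Zl (β : BP) (a : ℕ) (x : Pt d) : Finset (Pt d) :=
  latt (β.g a) x (β.B d a)

/-- directions -/
noncomputable def BP.En (β : BP) (d : ℕ) : Finset (Pt d) :=
  (latt β.δ (0 : Pt d) 2).filter (fun e => 1 / 2 ≤ ‖e‖)

/-- number of steps of the line sums -/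
noncomputable def BP.n (β : BP) (a k : ℕ) : ℕ := ⌈β.ℓ * (1 / 2) ^ (a + k) / β.g a⌉₊

/-- number of elementary steps -/
noncomputable def BP.pm (β : BP) : ℕ := ⌊1 / β.δ⌋₊

variable (c : VC K) (β : BP) (h : ℕ → Pt d → Ω → ℝ) (a : ℕ) (x : Pt d)

/-- the coarse field of a block -/
def BP.Φ : Pt d → Ω → ℝ := bnd h a (a + β.m)

/-- large values -/
def BP.E1 : Set Ω := ⋃ y ∈ β.Zl a x, {ω | β.T * √(β.m : ℝ) < |β.Φ h a y ω|}

/-- large increments -/
def BP.E2 : Set Ω := ⋃ y ∈ β.Zl a x, ⋃ y' ∈ β.Zl a x,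
  {ω | β.T * (√(2 * c.C) * ‖y - y'‖ * 2 ^ (a + β.m)) < |(β.Φ h a y - β.Φ h a y') ω|}

/-- large dual functions -/
def BP.E3 : Set Ω := ⋃ k ∈ Finset.range β.m, ⋃ e ∈ β.En d, ⋃ y ∈ β.Zl a x,
  {ω | β.T * (c.A * (√β.ℓ * (1 / 2) ^ (a + k))) < |vf h (a + k) (β.g a) (β.n a k) e y ω|}

/-- the standard deviation of the error of a step -/
noncomputable def BP.sd (k p : ℕ) (w : Pt d) : ℝ :=
  c.A * (√β.ℓ * ‖w‖ + ((p : ℝ) * β.g a) ^ 2 / (1 / 2) ^ (a + k) + (p : ℝ) * β.g a / √β.ℓ)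

/-- the error of a step -/
noncomputable def BP.X (k p : ℕ) (e y y' : Pt d) : Ω → ℝ :=
  vf h (a + k) (β.g a) (β.n a k) e y' - vf h (a + k) (β.g a) (β.n a k) e y -
    ((p : ℝ) * β.g a) • ph h (a + k) y

/-- large errors -/
def BP.E4 : Set Ω := ⋃ k ∈ Finset.range β.m, ⋃ e ∈ β.En d, ⋃ y ∈ β.Zl a x, ⋃ y' ∈ β.Zl a x,
  ⋃ p ∈ Finset.range (β.pm + 1),
  {ω | ‖y' - y - ((p : ℝ) * β.g a) • e‖ ≤ c.D * (1 / 2) ^ (a + k) ∧
    β.T * β.sd c a k p (y' - y - ((p : ℝ) * β.g a) • e) < |β.X h a k p e y y' ω|}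

/-- chaining -/
def BP.E5 : Set Ω := ⋃ j : ℕ, ⋃ y ∈ latt (β.g a / 2 ^ j) x (β.B d a),
  ⋃ y' ∈ latt (β.g a / 2 ^ (j + 1)) x (β.B d a),
  {ω | ‖y - y'‖ ≤ 2 * √d * (β.g a / 2 ^ j) ∧
    β.T * (5 / 4) ^ j * (√(2 * c.C) * (2 * √d * (β.g a / 2 ^ j)) * 2 ^ (a + β.m)) <
      |(β.Φ h a y - β.Φ h a y') ω|}

/-- the coarse field of a block is bad -/
def BP.bad : Set Ω := β.E1 h a x ∪ β.E2 c h a x ∪ β.E3 c h a x ∪ β.E4 c h a x ∪ β.E5 c h a x

/-- conditions on the parameters -/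
structure BP.OK (β : BP) (c : VC K) : Prop where
  hd : 1 ≤ d
  hm : 1 ≤ β.m
  hξ : 0 < β.ξ
  hr : 0 < β.r
  hr1 : β.r ≤ 1
  hrD : 2 * β.r ≤ c.D
  hT : 0 < β.T
  hT2 : 5 * d + 5 ≤ β.T ^ 2
  hℓ : 1 ≤ β.ℓ
  hδ : 0 < β.δ
  hδ1 : 18 * √d * β.δ ≤ 1
  hR : 4 * β.ℓ + 1 ≤ β.R
  hRD : c.D ≤ β.R

end defs

section basic
variable {d : ℕ} {K : Pt d → ℝ} {c : VC K} {β : BP}

theorem BP.OK.sqd (O : β.OK c) : 1 ≤ √(d : ℝ) := by
  rw [Real.one_le_sqrt]; exact_mod_cast O.hd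

theorem BP.OK.δ1 (O : β.OK c) : β.δ ≤ 1 / 18 := by
  have h1 := O.sqd
  have h2 := O.hδ1
  have h3 := O.hδ
  nlinarith

theorem BP.OK.ρ_pos (O : β.OK c) (a : ℕ) : 0 < β.ρ a := mul_pos O.hr (half_pow_pos _)

theorem BP.OK.g_pos (O : β.OK c) (a : ℕ) : 0 < β.g a := mul_pos O.hδ (O.ρ_pos a)

theorem BP.OK.ρ_le (O : β.OK c) (a : ℕ) {k : ℕ} (hk : k ≤ β.m) : β.ρ a ≤ (1 / 2) ^ (a + k) := by
  unfold BP.ρ
  have h1 : (1 / 2 : ℝ) ^ (a + β.m) ≤ (1 / 2) ^ (a + k) := half_pow_le (by omega)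
  have h2 := O.hr1
  have h3 := half_pow_pos (a + β.m)
  nlinarith

theorem BP.OK.ρ_leD (O : β.OK c) (a : ℕ) {k : ℕ} (hk : k ≤ β.m) :
    2 * β.ρ a ≤ c.D * (1 / 2) ^ (a + k) := by
  unfold BP.ρ
  have h1 : (1 / 2 : ℝ) ^ (a + β.m) ≤ (1 / 2) ^ (a + k) := half_pow_le (by omega)
  have h2 := O.hrD
  have h3 := half_pow_pos (a + β.m)
  have h4 := c.D_pos
  nlinarith

theorem BP.OK.sg (O : β.OK c) (a : ℕ) : √d * β.g a ≤ 1 / 18 * β.ρ a := by
  unfold BP.g
  have h1 := O.hδ1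
  have h2 := O.ρ_pos a
  nlinarith

theorem BP.OK.g_le (O : β.OK c) (a : ℕ) : β.g a ≤ 1 / 18 * β.ρ a := by
  have h1 := O.sg a
  have h2 := O.sqd
  have h3 := O.g_pos a
  nlinarith

theorem BP.OK.g_mul (a : ℕ) : β.g a * 2 ^ (a + β.m) = β.δ * β.r := by
  unfold BP.g BP.ρ
  rw [one_div, inv_pow]
  have : (2 : ℝ) ^ (a + β.m) ≠ 0 := by positivity
  field_simp

theorem BP.OK.ρ_mul (a : ℕ) : β.ρ a * 2 ^ (a + β.m) = β.r := by
  unfold BP.ρ
  rw [one_div, inv_pow]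
  have : (2 : ℝ) ^ (a + β.m) ≠ 0 := by positivity
  field_simp

theorem BP.OK.B_le (O : β.OK c) (a : ℕ) : β.B d a ≤ (β.R + 1) * (1 / 2) ^ a := by
  unfold BP.B
  have h1 := O.sg a
  have h2 := O.ρ_le a (Nat.zero_le _)
  rw [add_zero] at h2
  have h3 := O.ρ_pos a
  linarith

theorem BP.OK.B_pos (O : β.OK c) (a : ℕ) : 0 < β.B d a := by
  unfold BP.B
  have h1 := O.g_pos a
  have h2 := O.hR
  have h3 := O.hℓ
  have h4 := half_pow_pos a
  have h5 := O.sqd
  have : 0 < β.R := by linarith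
  positivity

theorem BP.OK.lp (O : β.OK c) (a : ℕ) {k : ℕ} (hk : k < β.m) {e : Pt d} (he : e ∈ β.En d) :
    LP c (a + k) (β.n a k) (β.g a) β.ℓ e := by
  have hg := O.g_pos a
  have hlam := half_pow_pos (a + k)
  have hℓ : 0 < β.ℓ := by have := O.hℓ; linarith
  have h1 : β.ℓ * (1 / 2) ^ (a + k) / β.g a ≤ β.n a k := Nat.le_ceil _
  have h2 : (β.n a k : ℝ) < β.ℓ * (1 / 2) ^ (a + k) / β.g a + 1 :=
    Nat.ceil_lt_add_one (by positivity)
  have h3 : β.g a ≤ (1 / 2) ^ (a + k) := by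
    have h4 := O.g_le a
    have h5 := O.ρ_le a hk.le
    have := O.ρ_pos a
    linarith
  rw [div_le_iff₀ hg] at h1
  constructor
  · exact hg
  · have : (0 : ℝ) < β.n a k := by
      have h4 : 0 < β.ℓ * (1 / 2) ^ (a + k) := by positivity
      by_contra hcon
      push Not at hcon
      nlinarith
    exact_mod_cast this
  · exact hℓ
  · have h4 := O.g_le a
    have h5 := O.ρ_leD a hk.le
    have := O.ρ_pos a
    linarith
  · exact h1
  · have h4 : (β.n a k : ℝ) * β.g a ≤ (β.ℓ * (1 / 2) ^ (a + k) / β.g a + 1) * β.g a :=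
      mul_le_mul_of_nonneg_right h2.le hg.le
    have h5 : (β.ℓ * (1 / 2) ^ (a + k) / β.g a + 1) * β.g a =
        β.ℓ * (1 / 2) ^ (a + k) + β.g a := by field_simp
    have := O.hℓ
    nlinarith
  · exact (Finset.mem_filter.1 he).2
  · have h4 := latt_norm (Finset.mem_filter.1 he).1
    rwa [sub_zero] at h4

end basic

section prob
variable {d : ℕ} {K : Pt d → ℝ} {Ω : Type*} {mΩ : MeasurableSpace Ω} {P : Measure Ω}
  {h : ℕ → Pt d → Ω → ℝ} {c : VC K} {β : BP}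

theorem biUnion_le {ι : Type*} (s : Finset ι) (E : ι → Set Ω) {b : ℝ≥0∞}
    (hE : ∀ i ∈ s, P (E i) ≤ b) : P (⋃ i ∈ s, E i) ≤ s.card * b := by
  refine (measure_biUnion_finset_le s E).trans ?_
  refine (Finset.sum_le_sum hE).trans ?_
  rw [Finset.sum_const, nsmul_eq_mul]

omit mΩ in
theorem Φ_mem (a : ℕ) (y : Pt d) : β.Φ h a y ∈ HS h := bnd_mem _ _ _

/-- the basic probability -/
noncomputable def BP.p (β : BP) : ℝ≥0∞ := ENNReal.ofReal (2 * Real.exp (-(β.T ^ 2 / 2)))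

theorem E1_le (O : β.OK c) (hh : IsField K P h) (hK : IsKernel K) (a : ℕ) (x : Pt d) :
    P (β.E1 h a x) ≤ (β.Zl a x).card * β.p := by
  apply biUnion_le
  intro y _
  apply tail hh (Φ_mem a y) (Real.sqrt_nonneg _) O.hT.le
  unfold BP.Φ
  rw [hh.var_bnd hK (by omega), Real.sq_sqrt (by positivity)]
  push_cast
  have := Real.log_two_lt_d9
  have h1 : (0 : ℝ) ≤ β.m := by positivity
  nlinarith

theorem E2_le (O : β.OK c) (hh : IsField K P h) (hK : IsKernel K) (a : ℕ) (x : Pt d) :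
    P (β.E2 c h a x) ≤ (β.Zl a x).card * ((β.Zl a x).card * β.p) := by
  have hC := c.C_pos
  apply biUnion_le
  intro y _
  apply biUnion_le
  intro y' _
  apply tail hh (Submodule.sub_mem _ (Φ_mem a y) (Φ_mem a y')) (by positivity) O.hT.le
  unfold BP.Φ
  refine (var_bnd_sub hh hK c.C_pos c.quad (by omega) y y').trans (le_of_eq ?_)
  rw [mul_pow, mul_pow, Real.sq_sqrt (by positivity)]

theorem E3_le (O : β.OK c) (hh : IsField K P h) (hK : IsKernel K) (a : ℕ) (x : Pt d) :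
    P (β.E3 c h a x) ≤ β.m * ((β.En d).card * ((β.Zl a x).card * β.p)) := by
  have hA := c.A_ge
  have h0 : P (β.E3 c h a x) ≤ (Finset.range β.m).card *
      ((β.En d).card * ((β.Zl a x).card * β.p)) := by
    apply biUnion_le
    intro k hk
    apply biUnion_le
    intro e he
    apply biUnion_le
    intro y _
    have L := O.lp a (Finset.mem_range.1 hk) he
    exact tail hh (vf_mem _ _ _ _ _) (by positivity) O.hT.le (vf_sd c hh hK L y)
  rwa [Finset.card_range] at h0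

theorem E4_le (O : β.OK c) (hh : IsField K P h) (hK : IsKernel K) (a : ℕ) (x : Pt d) :
    P (β.E4 c h a x) ≤ β.m * ((β.En d).card * ((β.Zl a x).card * ((β.Zl a x).card *
      ((β.pm + 1 : ℕ) * β.p)))) := by
  have hA := c.A_ge
  have hg := O.g_pos a
  have h0 : P (β.E4 c h a x) ≤ (Finset.range β.m).card *
      ((β.En d).card * ((β.Zl a x).card * ((β.Zl a x).card *
      ((Finset.range (β.pm + 1)).card * β.p)))) := by
    apply biUnion_le
    intro k hk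
    apply biUnion_le
    intro e he
    apply biUnion_le
    intro y _
    apply biUnion_le
    intro y' _
    apply biUnion_le
    intro p _
    have L := O.lp a (Finset.mem_range.1 hk) he
    by_cases hcond : ‖y' - y - ((p : ℝ) * β.g a) • e‖ ≤ c.D * (1 / 2) ^ (a + k)
    · refine (measure_mono (fun ω hω => hω.2)).trans ?_
      apply tail hh (Submodule.sub_mem _ (Submodule.sub_mem _ (vf_mem _ _ _ _ _)
        (vf_mem _ _ _ _ _)) (Submodule.smul_mem _ _ (ph_mem _ _))) _ O.hT.le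
      · exact step_var c hh hK L y y' _ p (by abel) hcond
      · unfold BP.sd
        positivity
    · have : {ω | ‖y' - y - ((p : ℝ) * β.g a) • e‖ ≤ c.D * (1 / 2) ^ (a + k) ∧
          β.T * β.sd c a k p (y' - y - ((p : ℝ) * β.g a) • e) < |β.X h a k p e y y' ω|} = ∅ := by
        ext ω
        simp only [mem_setOf_eq, mem_empty_iff_false, iff_false]
        exact fun h => hcond h.1
      rw [this, measure_empty]
      exact bot_le
  rwa [Finset.card_range, Finset.card_range] at h0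

theorem latt_card_j (O : β.OK c) (a : ℕ) (x : Pt d) (j : ℕ) :
    ((latt (β.g a / 2 ^ j) x (β.B d a)).card : ℝ) ≤ ((2 * β.B d a / β.g a + 1) * 2 ^ j) ^ d := by
  have hg := O.g_pos a
  have hB := O.B_pos a
  refine (latt_card (by positivity) x hB.le).trans ?_
  apply pow_le_pow_left₀ (by positivity)
  have h1 : 2 * β.B d a / (β.g a / 2 ^ j) = 2 * β.B d a / β.g a * 2 ^ j := by field_simp
  have h2 : (1 : ℝ) ≤ 2 ^ j := one_le_pow₀ (by norm_num)
  rw [h1]
  linarith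

theorem E5_le (O : β.OK c) (hh : IsField K P h) (hK : IsKernel K) (a : ℕ) (x : Pt d) :
    P (β.E5 c h a x) ≤ ENNReal.ofReal
      (4 ^ (d + 1) * (2 * β.B d a / β.g a + 1) ^ (2 * d) * Real.exp (-(β.T ^ 2 / 2))) := by
  have hg := O.g_pos a
  have hB := O.B_pos a
  have hT := O.hT
  set N0 : ℝ := 2 * β.B d a / β.g a + 1 with hN0
  have hN0p : 0 < N0 := by positivity
  set q : ℝ := Real.exp (-(β.T ^ 2 / 2)) with hq
  have hqp : 0 < q := Real.exp_pos _
  -- level j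
  have hj : ∀ j : ℕ, P (⋃ y ∈ latt (β.g a / 2 ^ j) x (β.B d a),
      ⋃ y' ∈ latt (β.g a / 2 ^ (j + 1)) x (β.B d a),
      {ω | ‖y - y'‖ ≤ 2 * √d * (β.g a / 2 ^ j) ∧
        β.T * (5 / 4) ^ j * (√(2 * c.C) * (2 * √d * (β.g a / 2 ^ j)) * 2 ^ (a + β.m)) <
          |(β.Φ h a y - β.Φ h a y') ω|}) ≤
      ENNReal.ofReal (2 * 4 ^ d * N0 ^ (2 * d) * q * (1 / 2) ^ j) := by
    intro j
    have h0 : P (⋃ y ∈ latt (β.g a / 2 ^ j) x (β.B d a),
      ⋃ y' ∈ latt (β.g a / 2 ^ (j + 1)) x (β.B d a),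
      {ω | ‖y - y'‖ ≤ 2 * √d * (β.g a / 2 ^ j) ∧
        β.T * (5 / 4) ^ j * (√(2 * c.C) * (2 * √d * (β.g a / 2 ^ j)) * 2 ^ (a + β.m)) <
          |(β.Φ h a y - β.Φ h a y') ω|}) ≤
        (latt (β.g a / 2 ^ j) x (β.B d a)).card * ((latt (β.g a / 2 ^ (j + 1)) x (β.B d a)).card *
          ENNReal.ofReal (2 * Real.exp (-((β.T * (5 / 4) ^ j) ^ 2 / 2)))) := by
      apply biUnion_le
      intro y _
      apply biUnion_le
      intro y' _
      by_cases hcond : ‖y - y'‖ ≤ 2 * √d * (β.g a / 2 ^ j)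
      · refine (measure_mono (fun ω hω => hω.2)).trans ?_
        have hC := c.C_pos
        apply tail hh (Submodule.sub_mem _ (Φ_mem a y) (Φ_mem a y')) (by positivity)
          (by positivity)
        unfold BP.Φ
        refine (var_bnd_sub hh hK c.C_pos c.quad (by omega) y y').trans ?_
        rw [mul_pow, mul_pow, Real.sq_sqrt (by positivity)]
        gcongr
      · have : {ω | ‖y - y'‖ ≤ 2 * √d * (β.g a / 2 ^ j) ∧
            β.T * (5 / 4) ^ j * (√(2 * c.C) * (2 * √d * (β.g a / 2 ^ j)) * 2 ^ (a + β.m)) <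
              |(β.Φ h a y - β.Φ h a y') ω|} = ∅ := by
          ext ω
          simp only [mem_setOf_eq, mem_empty_iff_false, iff_false]
          exact fun h => hcond h.1
        rw [this, measure_empty]
        exact bot_le
    refine h0.trans ?_
    have c1 := latt_card_j O a x j
    have c2 := latt_card_j O a x (j + 1)
    rw [← ENNReal.ofReal_natCast, ← ENNReal.ofReal_natCast, ← ENNReal.ofReal_mul (by positivity),
      ← ENNReal.ofReal_mul (by positivity)]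
    apply ENNReal.ofReal_le_ofReal
    have e1 : Real.exp (-((β.T * (5 / 4) ^ j) ^ 2 / 2)) ≤ q * Real.exp (-(9 / 32 * β.T ^ 2)) ^ j := by
      rw [hq, ← Real.exp_nat_mul, ← Real.exp_add]
      apply Real.exp_le_exp.2
      have h1 : 1 + (j : ℝ) * (9 / 16) ≤ (1 + 9 / 16 : ℝ) ^ j :=
        one_add_mul_le_pow (by norm_num) j
      have h2 : (1 + 9 / 16 : ℝ) ^ j = ((5 / 4 : ℝ) ^ j) ^ 2 := by
        rw [← pow_mul, mul_comm j 2, pow_mul]; norm_num
      rw [h2] at h1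
      have h3 : 0 ≤ β.T ^ 2 := sq_nonneg _
      rw [mul_pow]
      nlinarith
    have e2 : Real.exp (-(9 / 32 * β.T ^ 2)) ≤ (1 / 4) ^ d * (1 / 2) := by
      have h1 : (1 / 4 : ℝ) ^ d * (1 / 2) = Real.exp (-((2 * d + 1) * Real.log 2)) := by
        have h2 : (1 / 4 : ℝ) = Real.exp (-(2 * Real.log 2)) := by
          rw [Real.exp_neg, mul_comm, Real.exp_mul, Real.exp_log (by norm_num)]
          norm_num
        have h3 : (1 / 2 : ℝ) = Real.exp (-Real.log 2) := by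
          rw [Real.exp_neg, Real.exp_log (by norm_num)]; norm_num
        rw [h2, h3, ← Real.exp_nat_mul, ← Real.exp_add]
        congr 1; ring
      rw [h1]
      apply Real.exp_le_exp.2
      have h2 := O.hT2
      have h3 := Real.log_two_lt_d9
      have h4 : (0 : ℝ) ≤ d := by positivity
      nlinarith
    have e3 : Real.exp (-(9 / 32 * β.T ^ 2)) ^ j ≤ ((1 / 4) ^ d * (1 / 2)) ^ j :=
      pow_le_pow_left₀ (Real.exp_pos _).le e2 j
    calc ((latt (β.g a / 2 ^ j) x (β.B d a)).card : ℝ) *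
          (((latt (β.g a / 2 ^ (j + 1)) x (β.B d a)).card : ℝ) *
          (2 * Real.exp (-((β.T * (5 / 4) ^ j) ^ 2 / 2)))) ≤
          (N0 * 2 ^ j) ^ d * ((N0 * 2 ^ (j + 1)) ^ d * (2 * (q * ((1 / 4) ^ d * (1 / 2)) ^ j))) := by
            gcongr
            exact e1.trans (by gcongr)
      _ = 2 * 2 ^ d * N0 ^ (2 * d) * q * (1 / 2) ^ j * ((2 ^ j) ^ d * (2 ^ j) ^ d * ((1 / 4) ^ d) ^ j) := by
            have h5 : N0 ^ (2 * d) = N0 ^ d * N0 ^ d := by rw [two_mul, pow_add]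
            rw [h5, pow_succ, mul_pow, mul_pow, mul_pow, mul_pow]
            ring
      _ ≤ 2 * 4 ^ d * N0 ^ (2 * d) * q * (1 / 2) ^ j := by
            have h1 : ((2 : ℝ) ^ j) ^ d * (2 ^ j) ^ d * ((1 / 4) ^ d) ^ j = 1 := by
              rw [← pow_mul, ← pow_mul, ← mul_pow, mul_comm j d, ← mul_pow]
              norm_num
            rw [h1, mul_one]
            have h2 : (2 : ℝ) ^ d ≤ 4 ^ d := pow_le_pow_left₀ (by norm_num) (by norm_num) d
            gcongr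
  refine (measure_iUnion_le _).trans ((ENNReal.tsum_le_tsum hj).trans ?_)
  have hsum : Summable (fun j : ℕ => 2 * 4 ^ d * N0 ^ (2 * d) * q * (1 / 2 : ℝ) ^ j) :=
    summable_geometric_two.mul_left _
  rw [← ENNReal.ofReal_tsum_of_nonneg (fun j => by positivity) hsum, tsum_mul_left,
    tsum_geometric_two]
  apply ENNReal.ofReal_le_ofReal
  rw [pow_succ]
  apply le_of_eq; ring

end prob

end Pool.Agent.Helper97.LogFPP
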