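import Pool.Agent.Helper97.LogFPP.U.Upper

set_option autoImplicit false
set_option maxHeartbeats 400000

open MeasureTheory ProbabilityTheory Set Filter Topology
open scoped NNReal ENNReal

namespace Pool.Agent.Helper97.LogFPP

variable {d : ℕ} {K : Pt d → ℝ}

/-- the two bounds together -/
theorem both (hd : 2 ≤ d) [NeZero d] (hK : IsKernel K) :
    ∃ c C ξ0 : ℝ, 0 < c ∧ 0 < C ∧ 0 < ξ0 ∧ ∀ ξ : ℝ, 0 < ξ → ξ < ξ0 →
      ∀ {Ω : Type*} [MeasurableSpace Ω] (P : Measure Ω) (h : ℕ → Pt d → Ω → ℝ), IsField K P h →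
      ∀ Q : ℝ, IsExponent P h ξ Q → c * ξ ^ (4 / 3 : ℝ) ≤ 1 - ξ * Q ∧
        1 - ξ * Q ≤ C * (ξ ^ (4 / 3 : ℝ) * Real.log (1 / ξ)) := by
  obtain ⟨c, hc, ξ1, hξ1, H1⟩ := lower hd hK
  obtain ⟨C, hC, ξ2, hξ2, H2⟩ := upper (by omega) hK
  refine ⟨c, C, min ξ1 ξ2, hc, hC, by positivity, ?_⟩
  intro ξ h1 h2 Ω _ P h hh Q hQ
  rw [lt_min_iff] at h2
  exact ⟨H1 ξ h1 h2.1 P h hh Q hQ, H2 ξ h1 h2.2 P h hh Q hQ⟩

/-- a function between `c ξ^(4/3)` and `C ξ^(4/3) log (1/ξ)` is `ξ^(4/3 + o(1))` -/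
theorem tendsto_exponent {y : ℝ → ℝ} {c C ξ0 : ℝ} (hc : 0 < c) (hC : 0 < C) (hξ0 : 0 < ξ0)
    (H : ∀ ξ : ℝ, 0 < ξ → ξ < ξ0 → c * ξ ^ (4 / 3 : ℝ) ≤ y ξ ∧
      y ξ ≤ C * (ξ ^ (4 / 3 : ℝ) * Real.log (1 / ξ))) :
    Tendsto (fun ξ => Real.log (y ξ) / Real.log ξ) (𝓝[>] 0) (𝓝 (4 / 3)) := by
  have hL : Tendsto (fun ξ : ℝ => -Real.log ξ) (𝓝[>] 0) atTop :=
    tendsto_neg_atBot_atTop.comp Real.tendsto_log_nhdsGT_zero
  have l1 : Tendsto (fun L : ℝ => 4 / 3 - (Real.log C + Real.log L) / L) atTop (𝓝 (4 / 3 - 0)) := by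
    apply tendsto_const_nhds.sub
    have h1 : Tendsto (fun L : ℝ => Real.log C / L) atTop (𝓝 0) :=
      tendsto_const_nhds.div_atTop tendsto_id
    have h2 : Tendsto (fun L : ℝ => Real.log L / L) atTop (𝓝 0) :=
      Real.isLittleO_log_id_atTop.tendsto_div_nhds_zero
    have h3 := h1.add h2
    rw [add_zero] at h3
    refine h3.congr fun L => ?_
    rw [add_div]
  have l2 : Tendsto (fun L : ℝ => 4 / 3 - Real.log c / L) atTop (𝓝 (4 / 3 - 0)) := by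
    apply tendsto_const_nhds.sub
    exact tendsto_const_nhds.div_atTop tendsto_id
  rw [sub_zero] at l1 l2
  have hev : ∀ᶠ ξ : ℝ in 𝓝[>] 0, 0 < ξ ∧ ξ < ξ0 ∧ ξ < 1 := by
    have h1 : Ioo (0 : ℝ) (min ξ0 1) ∈ 𝓝[>] (0 : ℝ) :=
      Ioo_mem_nhdsGT (by positivity)
    filter_upwards [h1] with ξ hξ
    exact ⟨hξ.1, hξ.2.trans_le (min_le_left _ _), hξ.2.trans_le (min_le_right _ _)⟩
  have key : ∀ᶠ ξ : ℝ in 𝓝[>] 0,
      4 / 3 - (Real.log C + Real.log (-Real.log ξ)) / (-Real.log ξ) ≤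
        Real.log (y ξ) / Real.log ξ ∧
      Real.log (y ξ) / Real.log ξ ≤ 4 / 3 - Real.log c / (-Real.log ξ) := by
    filter_upwards [hev] with ξ ⟨h1, h2, h3⟩
    obtain ⟨a1, a2⟩ := H ξ h1 h2
    have hlog : Real.log ξ < 0 := Real.log_neg h1 h3
    set L : ℝ := -Real.log ξ with hLd
    have hLp : 0 < L := by rw [hLd]; linarith
    have hli : Real.log (1 / ξ) = L := by rw [one_div, Real.log_inv]
    rw [hli] at a2
    have hp : 0 < ξ ^ (4 / 3 : ℝ) := by positivity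
    have hyp : 0 < y ξ := lt_of_lt_of_le (by positivity) a1
    have b1 : Real.log c - 4 / 3 * L ≤ Real.log (y ξ) := by
      have h4 := Real.log_le_log (by positivity) a1
      rw [Real.log_mul hc.ne' hp.ne', Real.log_rpow h1] at h4
      have : Real.log ξ = -L := by rw [hLd]; ring
      rw [this] at h4
      linarith
    have b2 : Real.log (y ξ) ≤ Real.log C + Real.log L - 4 / 3 * L := by
      have h4 := Real.log_le_log hyp a2
      rw [Real.log_mul hC.ne' (by positivity), Real.log_mul hp.ne' hLp.ne', Real.log_rpow h1] at h4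
      have : Real.log ξ = -L := by rw [hLd]; ring
      rw [this] at h4
      linarith
    have e1 : Real.log (y ξ) / Real.log ξ = -Real.log (y ξ) / L := by
      have : Real.log ξ = -L := by rw [hLd]; ring
      rw [this, div_neg, neg_div]
    rw [e1]
    constructor
    · rw [le_div_iff₀ hLp, sub_mul, div_mul_cancel₀ _ hLp.ne']
      linarith
    · rw [div_le_iff₀ hLp, sub_mul, div_mul_cancel₀ _ hLp.ne']
      linarith
  exact tendsto_of_tendsto_of_tendsto_of_le_of_le' (l1.comp hL) (l2.comp hL)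
    (key.mono fun ξ h => h.1) (key.mono fun ξ h => h.2)

end Pool.Agent.Helper97.LogFPP
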