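import Pool.Agent.Helper97.LogFPP.U.Dualfn

set_option autoImplicit false
set_option maxHeartbeats 400000

open MeasureTheory ProbabilityTheory Set Filter Topology
open scoped NNReal ENNReal RealInnerProductSpace

namespace Pool.Agent.Helper97.LogFPP

section lattice
variable {d : ℕ}

/-- the lattice point with given integer coordinates -/
noncomputable def lp (g : ℝ) (k : Fin d → ℤ) : Pt d := WithLp.toLp 2 (fun i => g * k i)

theorem lp_apply (g : ℝ) (k : Fin d → ℤ) (i : Fin d) : lp g k i = g * k i := rfl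

/-- rounding to the lattice of spacing `g` -/
noncomputable def rd (g : ℝ) (z : Pt d) : Pt d := lp g (fun i => ⌊z i / g⌋)

theorem norm_le_of_coord {x : Pt d} {g : ℝ} (hg : 0 ≤ g) (hx : ∀ i, |x i| ≤ g) :
    ‖x‖ ≤ √d * g := by
  rw [EuclideanSpace.norm_eq]
  have h1 : ∑ i, ‖x i‖ ^ 2 ≤ ∑ _i : Fin d, g ^ 2 := by
    apply Finset.sum_le_sum
    intro i _
    rw [Real.norm_eq_abs]
    exact pow_le_pow_left₀ (abs_nonneg _) (hx i) 2
  rw [Finset.sum_const, Finset.card_univ, Fintype.card_fin, nsmul_eq_mul] at h1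
  calc √(∑ i, ‖x i‖ ^ 2) ≤ √((d : ℝ) * g ^ 2) := Real.sqrt_le_sqrt h1
    _ = √d * g := by rw [Real.sqrt_mul (by positivity), Real.sqrt_sq hg]

theorem rd_dist {g : ℝ} (hg : 0 < g) (z : Pt d) : ‖z - rd g z‖ ≤ √d * g := by
  apply norm_le_of_coord hg.le
  intro i
  have h1 : (z - rd g z) i = z i - g * ⌊z i / g⌋ := rfl
  rw [h1]
  have h2 : (⌊z i / g⌋ : ℝ) ≤ z i / g := Int.floor_le _
  have h3 : z i / g < ⌊z i / g⌋ + 1 := Int.lt_floor_add_one _
  rw [le_div_iff₀ hg] at h2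
  rw [div_lt_iff₀ hg] at h3
  rw [abs_le]
  constructor <;> linarith

/-- lattice points in a ball -/
noncomputable def latt (g : ℝ) (x : Pt d) (B : ℝ) : Finset (Pt d) :=
  ((Fintype.piFinset fun i => Finset.Icc ⌈(x i - B) / g⌉ ⌊(x i + B) / g⌋).image (lp g)).filter
    (fun y => ‖y - x‖ ≤ B)

theorem latt_norm {g : ℝ} {x y : Pt d} {B : ℝ} (hy : y ∈ latt g x B) : ‖y - x‖ ≤ B :=
  (Finset.mem_filter.1 hy).2

theorem coord_le_norm (x : Pt d) (i : Fin d) : |x i| ≤ ‖x‖ := by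
  have := PiLp.norm_apply_le x i
  rwa [Real.norm_eq_abs] at this

theorem rd_mem_latt {g : ℝ} (hg : 0 < g) {x z : Pt d} {B : ℝ} (h : ‖rd g z - x‖ ≤ B) :
    rd g z ∈ latt g x B := by
  rw [latt, Finset.mem_filter]
  refine ⟨Finset.mem_image.2 ⟨fun i => ⌊z i / g⌋, ?_, rfl⟩, h⟩
  rw [Fintype.mem_piFinset]
  intro i
  have h1 := (coord_le_norm (rd g z - x) i).trans h
  have h2 : (rd g z - x) i = g * ⌊z i / g⌋ - x i := rfl
  rw [h2, abs_le] at h1
  rw [Finset.mem_Icc]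
  constructor
  · rw [Int.ceil_le, div_le_iff₀ hg]; linarith
  · rw [Int.le_floor, le_div_iff₀ hg]; linarith

theorem latt_card {g : ℝ} (hg : 0 < g) (x : Pt d) {B : ℝ} (hB : 0 ≤ B) :
    ((latt g x B).card : ℝ) ≤ (2 * B / g + 1) ^ d := by
  have h1 : ((latt g x B).card : ℝ) ≤
      ((Fintype.piFinset fun i => Finset.Icc ⌈(x i - B) / g⌉ ⌊(x i + B) / g⌋).card : ℝ) := by
    exact_mod_cast (Finset.card_filter_le _ _).trans Finset.card_image_le
  refine h1.trans ?_
  rw [Fintype.card_piFinset]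
  push_cast
  have h2 : (2 * B / g + 1) ^ d = ∏ _i : Fin d, (2 * B / g + 1) := by
    rw [Finset.prod_const, Finset.card_univ, Fintype.card_fin]
  rw [h2]
  apply Finset.prod_le_prod
  · intro i _; positivity
  · intro i _
    rw [Int.card_Icc]
    have h3 : ((x i + B) / g : ℝ) - (x i - B) / g = 2 * B / g := by ring
    have h4 : (⌊(x i + B) / g⌋ : ℝ) ≤ (x i + B) / g := Int.floor_le _
    have h5 : (x i - B) / g ≤ (⌈(x i - B) / g⌉ : ℝ) := Int.le_ceil _
    have h6 : 0 ≤ 2 * B / g + 1 := by positivity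
    rcases le_total 0 (⌊(x i + B) / g⌋ + 1 - ⌈(x i - B) / g⌉) with h | h
    · have h7 : (((⌊(x i + B) / g⌋ + 1 - ⌈(x i - B) / g⌉).toNat : ℕ) : ℝ) =
          ((⌊(x i + B) / g⌋ + 1 - ⌈(x i - B) / g⌉ : ℤ) : ℝ) := by
        have := Int.toNat_of_nonneg h
        exact_mod_cast this
      rw [h7]
      push_cast
      linarith
    · rw [Int.toNat_of_nonpos h]
      simpa using h6

end lattice

variable {d : ℕ} {K : Pt d → ℝ} {Ω : Type*} {mΩ : MeasurableSpace Ω} {P : Measure Ω}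
  {h : ℕ → Pt d → Ω → ℝ}

/-- the sigma-algebra of the fine bands near a set -/
@[reducible] def locAlg (h : ℕ → Pt d → Ω → ℝ) (a : ℕ) (A : Set (Pt d)) : MeasurableSpace Ω :=
  MeasurableSpace.comap (fun ω (p : ℕ × A) => bnd h a (a + p.1) p.2.1 ω) inferInstance

omit mΩ in
theorem loc_meas {a b : ℕ} (hab : a ≤ b) {A : Set (Pt d)} {x : Pt d} (hx : x ∈ A) :
    Measurable[locAlg h a A] (bnd h a b x) := by
  have h1 : Measurable[locAlg h a A] (fun ω (p : ℕ × A) => bnd h a (a + p.1) p.2.1 ω) :=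
    Measurable.of_comap_le le_rfl
  have h2 := (measurable_pi_apply (X := fun _ : ℕ × A => ℝ) (b - a, ⟨x, hx⟩)).comp h1
  have h3 : a + (b - a) = b := by omega
  simp only [Function.comp_def] at h2
  rw [h3] at h2
  exact h2

omit mΩ in
theorem loc_meas' {a a' b : ℕ} (h1 : a ≤ a') (h2 : a' ≤ b) {A : Set (Pt d)} {x : Pt d}
    (hx : x ∈ A) : Measurable[locAlg h a A] (bnd h a' b x) := by
  have h3 : bnd h a' b x = bnd h a b x - bnd h a a' x := by
    funext ω; simp [bnd]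
  rw [h3]
  exact Measurable.sub (loc_meas (h1.trans h2) hx) (loc_meas h1 hx)

theorem loc_le (hh : IsField K P h) (a : ℕ) (A : Set (Pt d)) : locAlg h a A ≤ mΩ := by
  have h1 : Measurable (fun ω (p : ℕ × A) => bnd h a (a + p.1) p.2.1 ω) :=
    measurable_pi_lambda _ fun p => HS_measurable hh (bnd_mem a (a + p.1) p.2.1)
  exact h1.comap_le

omit mΩ in
theorem loc_mono {a a' : ℕ} (haa : a ≤ a') {A A' : Set (Pt d)} (hA : A' ⊆ A) :
    locAlg h a' A' ≤ locAlg h a A := by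
  have h1 : Measurable[locAlg h a A] (fun ω (p : ℕ × A') => bnd h a' (a' + p.1) p.2.1 ω) :=
    @measurable_pi_lambda _ _ _ (locAlg h a A) _ _ fun p => loc_meas' haa (by omega) (hA p.2.2)
  exact h1.comap_le

theorem loc_indep (hh : IsField K P h) (hK : IsKernel K) (c : VC K) {a : ℕ} {A A' : Set (Pt d)}
    (hAA : ∀ x ∈ A, ∀ y ∈ A', c.D * (1 / 2) ^ a ≤ ‖x - y‖) :
    Indep (locAlg h a A) (locAlg h a A') P := by
  have h1 : IndepFun (fun ω (p : ℕ × A) => bnd h a (a + p.1) p.2.1 ω)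
      (fun ω (p : ℕ × A') => bnd h a (a + p.1) p.2.1 ω) P := by
    apply IsGaussianProcess.indepFun_of_covariance_eq_zero
    · have h2 := (LS_gaussian hh.gaussian).comp_right
        (fun s : (ℕ × A) ⊕ (ℕ × A') => Sum.elim
          (fun p => (⟨bnd h a (a + p.1) p.2.1, bnd_mem a (a + p.1) p.2.1⟩ : HS h))
          (fun p => ⟨bnd h a (a + p.1) p.2.1, bnd_mem a (a + p.1) p.2.1⟩) s)
      have h3 : ((fun (Y : HS h) ω => Y.1 ω) ∘ fun s : (ℕ × A) ⊕ (ℕ × A') => Sum.elim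
          (fun p => (⟨bnd h a (a + p.1) p.2.1, bnd_mem a (a + p.1) p.2.1⟩ : HS h))
          (fun p => ⟨bnd h a (a + p.1) p.2.1, bnd_mem a (a + p.1) p.2.1⟩) s) =
          Sum.elim (fun (p : ℕ × A) => bnd h a (a + p.1) p.2.1)
            (fun (p : ℕ × A') => bnd h a (a + p.1) p.2.1) := by
        funext s
        rcases s with s | x <;> rfl
      rw [h3] at h2
      exact h2
    · intro s
      exact (LS_hasGaussianLaw hh.gaussian (bnd_mem _ _ _)).aemeasurable
    · intro x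
      exact (LS_hasGaussianLaw hh.gaussian (bnd_mem _ _ _)).aemeasurable
    · intro s t
      rw [hh.cov_bnd]
      have e1 : min (a + s.1) a = a := by omega
      have e2 : min a (a + t.1) = a := by omega
      rw [e1, e2, min_self, sub_self, sub_zero]
      have h4 : a ≤ min (a + s.1) (a + t.1) := by omega
      rw [Isc_sub hK h4]
      exact Kb_far c.far _ _ (hAA _ s.2.2 _ t.2.2)
  exact (IndepFun_iff_Indep _ _ _).1 h1

theorem loc_inter (hh : IsField K P h) (hK : IsKernel K) (c : VC K) {a : ℕ} {A A' : Set (Pt d)}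
    (hAA : ∀ x ∈ A, ∀ y ∈ A', c.D * (1 / 2) ^ a ≤ ‖x - y‖) {E F : Set Ω}
    (hE : MeasurableSet[locAlg h a A] E) (hF : MeasurableSet[locAlg h a A'] F) :
    P (E ∩ F) = P E * P F := by
  have h1 := loc_indep hh hK c hAA
  rw [Indep_iff] at h1
  exact h1 E F hE hF

end Pool.Agent.Helper97.LogFPP
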