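import Pool.Agent.Helper97.LogFPP.U.Rec

set_option autoImplicit false
set_option maxHeartbeats 400000

open MeasureTheory ProbabilityTheory Set Filter Topology
open scoped NNReal ENNReal RealInnerProductSpace

namespace Pool.Agent.Helper97.LogFPP

variable {d : ℕ} {K : Pt d → ℝ} {Ω : Type*} {mΩ : MeasurableSpace Ω} {P : Measure Ω}
  {h : ℕ → Pt d → Ω → ℝ}

/-- a constant -/
noncomputable def A1 (d : ℕ) : ℝ := 4 * (8 + 4 ^ (d + 1)) * (7 * d) ^ (2 * d)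

/-- the constant in the tails -/
noncomputable def T0 (d : ℕ) : ℝ := A1 d * 2 ^ (2 + 7 * d)

theorem A1_ge (hd : 1 ≤ d) : 1 ≤ A1 d := by
  have hd1 : (1 : ℝ) ≤ d := by exact_mod_cast hd
  unfold A1
  have h1 : (1 : ℝ) ≤ (7 * d) ^ (2 * d) := one_le_pow₀ (by linarith)
  have h2 : (0 : ℝ) ≤ 4 ^ (d + 1) := by positivity
  nlinarith

theorem T0_ge (hd : 1 ≤ d) : 5 * (d : ℝ) + 5 ≤ T0 d := by
  have hd1 : (1 : ℝ) ≤ d := by exact_mod_cast hd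
  unfold T0
  have h1 := A1_ge hd
  have h2 : (1 : ℝ) + (7 * d : ℕ) * 1 ≤ (1 + 1) ^ (7 * d) := one_add_mul_le_pow (by norm_num) _
  push_cast at h2
  have h3 : (2 : ℝ) ^ (2 + 7 * d) = 4 * 2 ^ (7 * d) := by rw [pow_add]; norm_num
  rw [h3]
  norm_num at h2
  nlinarith

theorem T0_pos (hd : 1 ≤ d) : 0 < T0 d := by
  have hd1 : (1 : ℝ) ≤ d := by exact_mod_cast hd
  have := T0_ge hd
  linarith

/-- the parameters -/
noncomputable def par (d : ℕ) (x : ℝ) (m : ℕ) : BP where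
  m := m
  ξ := x ^ 3
  r := x ^ 3
  R := (x ^ 3)⁻¹
  T := T0 d * √(m : ℝ)
  ℓ := ((x * √(m : ℝ))⁻¹) ^ 2
  δ := x ^ 3

/-- smallness of `x` -/
structure Sx (c : VC K) (x : ℝ) (m : ℕ) : Prop where
  hd : 1 ≤ d
  hx : 0 < x
  hm : 2 ≤ m
  hx1 : 18 * √d * x ≤ 1
  hxD : 2 * x ≤ c.D
  hxD2 : c.D * x ≤ 1
  hmx : m * x ≤ 1
  hw : (x ^ 12)⁻¹ ≤ 2 ^ m

variable {c : VC K} {x : ℝ} {m : ℕ}

theorem Sx.x18 (X : Sx c x m) : x ≤ 1 / 18 := by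
  have h1 : (1 : ℝ) ≤ √d := by
    rw [Real.one_le_sqrt]; exact_mod_cast X.hd
  have h2 := X.hx1
  have h3 := X.hx
  nlinarith

theorem Sx.m1 (X : Sx c x m) : (2 : ℝ) ≤ m := by exact_mod_cast X.hm

theorem Sx.x3 (X : Sx c x m) : x ^ 3 ≤ x := by
  have h1 := X.x18
  have h2 := X.hx
  have h3 : x ^ 2 ≤ 1 := by nlinarith
  calc x ^ 3 = x ^ 2 * x := by ring
    _ ≤ 1 * x := by gcongr
    _ = x := one_mul _

theorem Sx.sm (X : Sx c x m) : 0 < √(m : ℝ) := by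
  have := X.m1
  exact Real.sqrt_pos.2 (by linarith)

theorem Sx.sm_sq (_ : Sx c x m) : √(m : ℝ) ^ 2 = m := Real.sq_sqrt (by positivity)

theorem Sx.ok (X : Sx c x m) : (par d x m).OK c := by
  have hx := X.hx
  have hm := X.m1
  have h18 := X.x18
  have hx3 := X.x3
  have hx3p : 0 < x ^ 3 := by positivity
  have hT := T0_pos X.hd
  have hsm := X.sm
  have hsq := X.sm_sq
  have hℓe : ((x * √(m : ℝ))⁻¹) ^ 2 = (x ^ 2 * m)⁻¹ := by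
    rw [inv_pow, mul_pow, hsq]
  refine ⟨X.hd, by have := X.hm; show 1 ≤ m; omega, hx3p, hx3p, by show x ^ 3 ≤ 1; linarith, ?_, ?_,
    ?_, ?_, hx3p, ?_, ?_, ?_⟩
  · show 2 * x ^ 3 ≤ c.D
    have := X.hxD
    linarith
  · show 0 < T0 d * √(m : ℝ)
    positivity
  · show 5 * (d : ℝ) + 5 ≤ (T0 d * √(m : ℝ)) ^ 2
    rw [mul_pow, hsq]
    have h1 := T0_ge X.hd
    have hd1 : (1 : ℝ) ≤ d := by exact_mod_cast X.hd
    have h2 : T0 d ≤ T0 d ^ 2 := by nlinarith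
    nlinarith
  · show 1 ≤ ((x * √(m : ℝ))⁻¹) ^ 2
    rw [hℓe]
    have h1 : x ^ 2 * m ≤ 1 := by
      have := X.hmx
      nlinarith
    exact (one_le_inv₀ (by positivity)).2 h1
  · show 18 * √d * x ^ 3 ≤ 1
    have := X.hx1
    have h1 : 0 ≤ 18 * √(d : ℝ) := by positivity
    nlinarith
  · show 4 * ((x * √(m : ℝ))⁻¹) ^ 2 + 1 ≤ (x ^ 3)⁻¹
    rw [hℓe]
    have h1 : (x ^ 2 * (m : ℝ))⁻¹ ≤ (x ^ 2)⁻¹ := by
      apply inv_anti₀ (by positivity)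
      have : 0 < x ^ 2 := by positivity
      nlinarith
    have h2 : (x ^ 3)⁻¹ = (x ^ 2)⁻¹ * x⁻¹ := by
      rw [← mul_inv]; ring_nf
    have h3 : (18 : ℝ) ≤ x⁻¹ := by
      rw [le_inv_comm₀ (by norm_num) hx]
      linarith
    have h4 : 1 ≤ (x ^ 2)⁻¹ := by
      apply (one_le_inv₀ (by positivity)).2
      nlinarith
    rw [h2]
    nlinarith
  · show c.D ≤ (x ^ 3)⁻¹
    rw [le_inv_comm₀ c.D_pos hx3p]
    refine hx3.trans ?_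
    rw [le_inv_comm₀ hx c.D_pos, ← one_div, le_div_iff₀ hx]
    exact X.hxD2

theorem Sx.sqℓ (X : Sx c x m) : √(par d x m).ℓ = (x * √(m : ℝ))⁻¹ := by
  have := X.hx
  have := X.sm
  show √(((x * √(m : ℝ))⁻¹) ^ 2) = _
  exact Real.sqrt_sq (by positivity)

theorem Sx.S_eq (X : Sx c x m) : (par d x m).S c = 8 * (c.A * T0 d) * x ^ 2 := by
  unfold BP.S
  rw [X.sqℓ]
  have h1 := X.hx
  have h2 := X.sm
  show 8 * (x ^ 3 * (T0 d * √(m : ℝ)) * c.A * (x * √(m : ℝ))⁻¹) = _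
  field_simp

theorem Sx.Lv_eq (X : Sx c x m) : (par d x m).Lv c = c.A * T0 d * m * x ^ 2 := by
  unfold BP.Lv
  rw [X.sqℓ]
  have h1 := X.hx
  have h2 := X.sm
  show x ^ 3 * (T0 d * √(m : ℝ)) * c.A * m * (x * √(m : ℝ))⁻¹ = _
  field_simp

theorem Sx.ω_eq (_ : Sx c x m) :
    (par d x m).ω c = 3 * (T0 d * √(2 * c.C)) * √(m : ℝ) * x ^ 6 := by
  unfold BP.ω BP.oc
  show 3 * x ^ 3 * (T0 d * √(m : ℝ) * √(2 * c.C) * x ^ 3) = _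
  ring

theorem Sx.η_eq (X : Sx c x m) :
    (par d x m).η c = T0 d * m * x ^ 3 + (T0 d * √(2 * c.C)) * √(m : ℝ) * x ^ 6 := by
  unfold BP.η BP.oc
  show x ^ 3 * (T0 d * √(m : ℝ) * √(m : ℝ) + T0 d * √(m : ℝ) * √(2 * c.C) * x ^ 3) = _
  have h1 := X.sm_sq
  have h2 : T0 d * √(m : ℝ) * √(m : ℝ) = T0 d * √(m : ℝ) ^ 2 := by ring
  rw [h2, h1]
  ring

theorem Sx.e0_eq (X : Sx c x m) : (par d x m).e0 c =
    c.A * T0 d * (4 * √d * m * x ^ 5 + √(m : ℝ) * x ^ 6 + m ^ 2 * x ^ 4) := by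
  unfold BP.e0
  rw [X.sqℓ]
  have h1 := X.hx
  have h2 := X.sm
  have h3 := X.sm_sq
  show x ^ 3 * (T0 d * √(m : ℝ)) * c.A * (4 * m * (x * √(m : ℝ))⁻¹ * (√d * x ^ 3) + x ^ 3 +
    m / (x * √(m : ℝ))⁻¹) = _
  have h4 : x ^ 3 * (T0 d * √(m : ℝ)) * c.A * (4 * m * (x * √(m : ℝ))⁻¹ * (√d * x ^ 3) + x ^ 3 +
    m / (x * √(m : ℝ))⁻¹) = c.A * T0 d * (4 * √d * m * x ^ 5 + √(m : ℝ) * x ^ 6 +
      m * √(m : ℝ) ^ 2 * x ^ 4) := by
    field_simp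
  rw [h4, h3]
  ring

/-- the constant in the total error -/
noncomputable def VC.C8 (c : VC K) : ℝ :=
  4 * (c.A * T0 d) ^ 2 + 48 * (c.A * T0 d) * (T0 d * √(2 * c.C)) + 10 * (T0 d * √(2 * c.C)) +
    T0 d + (c.A * T0 d) * (4 * √d + 2) + 64 * (c.A * T0 d) + 40

theorem Sx.ε_le (X : Sx c x m) : (par d x m).ε8 c ≤ c.C8 * (m * x ^ 2) ^ 2 := by
  have hx := X.hx
  have hm := X.m1
  have h18 := X.x18
  have hT := T0_pos X.hd
  have hA := c.A_ge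
  have hs := X.sm
  have hsq := X.sm_sq
  unfold BP.ε8 BP.ε6 BP.ε3
  have q1 : (par d x m).r = x ^ 3 := rfl
  have q2 : (par d x m).R = (x ^ 3)⁻¹ := rfl
  have q3 : (par d x m).δ = x ^ 3 := rfl
  have q4 : (par d x m).m = m := rfl
  rw [X.S_eq, X.Lv_eq, X.ω_eq, X.η_eq, X.e0_eq, q1, q2, q3, q4]
  set s := √(m : ℝ) with hsdef
  set M : ℝ := (m : ℝ) with hM
  set a1 := c.A * T0 d with ha1
  set a2 := T0 d * √(2 * c.C) with ha2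
  have ha1p : 0 < a1 := by positivity
  have ha2p : 0 < a2 := by have := c.C_pos; positivity
  have hsM : s ≤ M := by nlinarith
  have hM2 : M ≤ M ^ 2 := by nlinarith
  have hsM2 : s ≤ M ^ 2 := hsM.trans hM2
  have hM21 : 1 ≤ M ^ 2 := by nlinarith
  have p4 : 0 < x ^ 4 := by positivity
  have p5 : x ^ 5 ≤ x ^ 4 := pow_le_pow_of_le_one hx.le (by linarith) (by norm_num)
  have p6 : x ^ 6 ≤ x ^ 4 := pow_le_pow_of_le_one hx.le (by linarith) (by norm_num)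
  have p9 : x ^ 9 ≤ x ^ 4 := pow_le_pow_of_le_one hx.le (by linarith) (by norm_num)
  have p11 : x ^ 11 ≤ x ^ 4 := pow_le_pow_of_le_one hx.le (by linarith) (by norm_num)
  have p12 : x ^ 12 ≤ x ^ 4 := pow_le_pow_of_le_one hx.le (by linarith) (by norm_num)
  have hhalf : (1 / 2 : ℝ) ^ m ≤ x ^ 12 := by
    have h1 := X.hw
    rw [one_div, inv_pow, inv_le_comm₀ (by positivity) (by positivity)]
    exact h1
  set Y : ℝ := M ^ 2 * x ^ 4 with hY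
  have hYp : 0 < Y := by positivity
  have t6 : s * x ^ 6 ≤ Y := by
    calc s * x ^ 6 ≤ M ^ 2 * x ^ 4 := by gcongr
      _ = Y := rfl
  have t5 : M * x ^ 5 ≤ Y := by
    calc M * x ^ 5 ≤ M ^ 2 * x ^ 4 := by gcongr
      _ = Y := rfl
  have t1 : ∀ k : ℕ, 4 ≤ k → x ^ k ≤ Y := by
    intro k hk
    have h1 : x ^ k ≤ x ^ 4 := pow_le_pow_of_le_one hx.le (by linarith) hk
    calc x ^ k ≤ x ^ 4 := h1
      _ ≤ M ^ 2 * x ^ 4 := by nlinarith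
  have u1 : 3 * a2 * s * x ^ 6 ≤ 3 * a2 * Y := by
    calc 3 * a2 * s * x ^ 6 = 3 * a2 * (s * x ^ 6) := by ring
      _ ≤ 3 * a2 * Y := by gcongr
  have u2 : 4 * (a1 * M * x ^ 2) ^ 2 = 4 * a1 ^ 2 * Y := by rw [hY]; ring
  have u3 : (T0 d * M * x ^ 3 + a2 * s * x ^ 6) * x ^ 3 ≤ (T0 d + a2) * Y := by
    have e1 : M * x ^ 3 * x ^ 3 ≤ Y := by
      calc M * x ^ 3 * x ^ 3 = M * x ^ 6 := by ring
        _ ≤ M ^ 2 * x ^ 4 := by gcongr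
        _ = Y := rfl
    have e2 : s * x ^ 6 * x ^ 3 ≤ Y := by
      calc s * x ^ 6 * x ^ 3 = s * x ^ 9 := by ring
        _ ≤ M ^ 2 * x ^ 4 := by gcongr
        _ = Y := rfl
    calc (T0 d * M * x ^ 3 + a2 * s * x ^ 6) * x ^ 3 =
        T0 d * (M * x ^ 3 * x ^ 3) + a2 * (s * x ^ 6 * x ^ 3) := by ring
      _ ≤ T0 d * Y + a2 * Y := by gcongr
      _ = (T0 d + a2) * Y := by ring
  have u4 : a1 * (4 * √d * M * x ^ 5 + s * x ^ 6 + M ^ 2 * x ^ 4) ≤ a1 * (4 * √d + 2) * Y := by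
    calc a1 * (4 * √d * M * x ^ 5 + s * x ^ 6 + M ^ 2 * x ^ 4) =
        a1 * (4 * √d * (M * x ^ 5) + s * x ^ 6 + Y) := by rw [hY]; ring
      _ ≤ a1 * (4 * √d * Y + Y + Y) := by gcongr
      _ = a1 * (4 * √d + 2) * Y := by ring
  have u5 : 2 * (3 * a2 * s * x ^ 6) * (8 * a1 * x ^ 2) / x ^ 3 ≤ 48 * a1 * a2 * Y := by
    have e1 : 2 * (3 * a2 * s * x ^ 6) * (8 * a1 * x ^ 2) / x ^ 3 =
        48 * a1 * a2 * (s * x ^ 5) := by field_simp; ring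
    have e2 : s * x ^ 5 ≤ Y := by
      calc s * x ^ 5 ≤ M ^ 2 * x ^ 4 := by gcongr
        _ = Y := rfl
    rw [e1]; gcongr
  have u6 : 4 * (8 * a1 * x ^ 2 + x ^ 3) / (x ^ 3)⁻¹ ≤ (32 * a1 + 4) * Y := by
    have e1 : 4 * (8 * a1 * x ^ 2 + x ^ 3) / (x ^ 3)⁻¹ = 32 * a1 * x ^ 5 + 4 * x ^ 6 := by
      field_simp; ring
    rw [e1]
    have e2 := t1 5 (by norm_num)
    have e3 := t1 6 (by norm_num)
    nlinarith
  have u7 : (2 * (2 * (8 * a1 * x ^ 2) + 2 * x ^ 3) + 24 * (x ^ 3)⁻¹ + x ^ 3) / x ^ 3 *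
      (1 / 2) ^ m ≤ (32 * a1 + 29) * Y := by
    have e1 : (2 * (2 * (8 * a1 * x ^ 2) + 2 * x ^ 3) + 24 * (x ^ 3)⁻¹ + x ^ 3) / x ^ 3 *
        x ^ 12 = 32 * a1 * x ^ 11 + 5 * x ^ 12 + 24 * x ^ 6 := by
      field_simp; ring
    have e2 := t1 11 (by norm_num)
    have e3 := t1 12 (by norm_num)
    have e4 := t1 6 (by norm_num)
    calc (2 * (2 * (8 * a1 * x ^ 2) + 2 * x ^ 3) + 24 * (x ^ 3)⁻¹ + x ^ 3) / x ^ 3 *
        (1 / 2) ^ m ≤ (2 * (2 * (8 * a1 * x ^ 2) + 2 * x ^ 3) + 24 * (x ^ 3)⁻¹ + x ^ 3) / x ^ 3 *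
        x ^ 12 := by gcongr
      _ = 32 * a1 * x ^ 11 + 5 * x ^ 12 + 24 * x ^ 6 := e1
      _ ≤ (32 * a1 + 29) * Y := by nlinarith
  have hfin : c.C8 * (M * x ^ 2) ^ 2 = (4 * a1 ^ 2 + 48 * a1 * a2 + 10 * a2 + T0 d +
      a1 * (4 * √d + 2) + 64 * a1 + 40) * Y := by
    unfold VC.C8
    rw [hY]; ring
  rw [hfin]
  nlinarith

end Pool.Agent.Helper97.LogFPP
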