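import Pool.Agent.Helper97.LogFPP.Path

set_option autoImplicit false
set_option maxHeartbeats 400000

open MeasureTheory ProbabilityTheory Set Filter Topology
open scoped NNReal ENNReal RealInnerProductSpace

namespace Pool.Agent.Helper97.LogFPP

variable {d : ℕ}

/-- piecewise `C^1` paths on `[0,1]` -/
structure PC (γ : ℝ → Pt d) : Prop where
  cont : ContinuousOn γ (Icc 0 1)
  piecewise : ∃ (N : ℕ) (t : ℕ → ℝ), t 0 = 0 ∧ t N = 1 ∧ (∀ i < N, t i < t (i + 1)) ∧
    ∀ i < N, ContDiffOn ℝ 1 γ (Icc (t i) (t (i + 1)))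

theorem IsPath.pc {U : Set (Pt d)} {z w : Pt d} {γ : ℝ → Pt d} (h : IsPath U z w γ) : PC γ :=
  ⟨h.cont, h.piecewise⟩

theorem PC.isPath {γ : ℝ → Pt d} (h : PC γ) : IsPath univ (γ 0) (γ 1) γ :=
  ⟨h.cont, h.piecewise, fun _ _ => mem_univ _, rfl, rfl⟩

/-- weighted length of a part of a path -/
noncomputable def cst (g : Pt d → ℝ) (γ : ℝ → Pt d) (a b : ℝ) : ℝ :=
  ∫ s in a..b, g (γ s) * ‖deriv γ s‖

theorem PC.ii {γ : ℝ → Pt d} (h : PC γ) {g : Pt d → ℝ} (hg : Continuous g) {a b : ℝ}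
    (ha : 0 ≤ a) (hab : a ≤ b) (hb : b ≤ 1) :
    IntervalIntegrable (fun s => g (γ s) * ‖deriv γ s‖) volume a b := by
  apply (h.isPath.intervalIntegrable hg).mono_set
  rw [uIcc_of_le hab, uIcc_of_le zero_le_one]
  exact Icc_subset_Icc ha hb

theorem cst_nonneg {g : Pt d → ℝ} (hg : ∀ x, 0 ≤ g x) (γ : ℝ → Pt d) {a b : ℝ} (hab : a ≤ b) :
    0 ≤ cst g γ a b :=
  intervalIntegral.integral_nonneg hab fun _ _ => mul_nonneg (hg _) (norm_nonneg _)

theorem PC.cst_add {γ : ℝ → Pt d} (h : PC γ) {g : Pt d → ℝ} (hg : Continuous g) {a b c : ℝ}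
    (ha : 0 ≤ a) (hab : a ≤ b) (hbc : b ≤ c) (hc : c ≤ 1) :
    cst g γ a b + cst g γ b c = cst g γ a c :=
  intervalIntegral.integral_add_adjacent_intervals (h.ii hg ha hab (hbc.trans hc))
    (h.ii hg (ha.trans hab) hbc hc)

theorem PC.cst_mul_le {γ : ℝ → Pt d} (h : PC γ) {g g1 : Pt d → ℝ} (hg : Continuous g)
    (hg1 : Continuous g1) {a b c : ℝ} (ha : 0 ≤ a) (hab : a ≤ b) (hb : b ≤ 1)
    (hle : ∀ s ∈ Icc a b, c * g1 (γ s) ≤ g (γ s)) : c * cst g1 γ a b ≤ cst g γ a b := by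
  unfold cst
  rw [← intervalIntegral.integral_const_mul]
  apply intervalIntegral.integral_mono_on hab ((h.ii hg1 ha hab hb).const_mul c) (h.ii hg ha hab hb)
  intro s hs
  rw [← mul_assoc]
  exact mul_le_mul_of_nonneg_right (hle s hs) (norm_nonneg _)

theorem exists_piece {N : ℕ} {t : ℕ → ℝ} {x : ℝ} (hN : 0 < N) (h0 : t 0 ≤ x) (h1 : x ≤ t N) :
    ∃ i < N, x ∈ Icc (t i) (t (i + 1)) := by
  induction N with
  | zero => omega
  | succ N ih =>
    rcases Nat.eq_zero_or_pos N with h | h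
    · subst h
      exact ⟨0, by norm_num, h0, h1⟩
    · by_cases hx : x ≤ t N
      · obtain ⟨i, hi, hi2⟩ := ih h hx
        exact ⟨i, by omega, hi2⟩
      · exact ⟨N, by omega, (not_le.1 hx).le, h1⟩

theorem piece_deriv_integrable {γ : ℝ → Pt d} {a b : ℝ} (hab : a < b)
    (hγ : ContDiffOn ℝ 1 γ (Icc a b)) : IntervalIntegrable (deriv γ) volume a b := by
  obtain ⟨h1, h2⟩ := piece_deriv hab hγ
  rw [← uIcc_of_le hab.le] at h1
  refine h1.intervalIntegrable.congr_ae ?_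
  rw [uIoc_of_le hab.le, uIcc_of_le hab.le]
  rw [← restrict_Ioo_eq_restrict_Ioc]
  refine (ae_restrict_iff' measurableSet_Ioo).2 (ae_of_all _ fun s hs => ?_)
  rw [(h2 s hs).1]

theorem PC.deriv_integrable {γ : ℝ → Pt d} (h : PC γ) {a b : ℝ}
    (ha : 0 ≤ a) (hab : a ≤ b) (hb : b ≤ 1) : IntervalIntegrable (deriv γ) volume a b := by
  obtain ⟨N, t, h0, h1, h2, h3⟩ := h.piecewise
  have h4 := IntervalIntegrable.trans_iterate (a := t) (n := N) (μ := volume)
    (f := deriv γ) fun k hk => piece_deriv_integrable (h2 k hk) (h3 k hk)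
  rw [h0, h1] at h4
  apply h4.mono_set
  rw [uIcc_of_le hab, uIcc_of_le zero_le_one]
  exact Icc_subset_Icc ha hb

theorem PC.norm_sub_le {γ : ℝ → Pt d} (h : PC γ) {a b : ℝ}
    (ha : 0 ≤ a) (hab : a ≤ b) (hb : b ≤ 1) : ‖γ b - γ a‖ ≤ cst (fun _ => 1) γ a b := by
  obtain ⟨N, t, h0, h1, h2, h3⟩ := h.piecewise
  have hN : 0 < N := by
    rcases Nat.eq_zero_or_pos N with h4 | h4
    · rw [h4] at h1; rw [h0] at h1; exact absurd h1 zero_ne_one
    · exact h4
  have h5 : ∫ x in a..b, deriv γ x = γ b - γ a := by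
    apply integral_eq_of_hasDerivAt_off_countable_of_le γ (deriv γ) hab
      (s := t '' (Iic N)) ((Set.finite_Iic N).image t).countable
      (h.cont.mono (Icc_subset_Icc ha hb)) _ (h.deriv_integrable ha hab hb)
    rintro x ⟨hx, hx2⟩
    obtain ⟨i, hi, hi2⟩ := exists_piece (t := t) (x := x) hN (by rw [h0]; linarith [hx.1])
      (by rw [h1]; linarith [hx.2])
    have hx3 : t i < x := lt_of_le_of_ne hi2.1 fun e => hx2 ⟨i, by simp; omega, e⟩
    have hx4 : x < t (i + 1) := lt_of_le_of_ne hi2.2 fun e => hx2 ⟨i + 1, by simp; omega, e.symm⟩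
    exact ((piece_deriv (h2 i hi) (h3 i hi)).2 x ⟨hx3, hx4⟩).2.hasDerivAt
  rw [← h5]
  refine (intervalIntegral.norm_integral_le_integral_norm hab).trans ?_
  unfold cst
  simp

/-- first exit chains -/
theorem exit_chain {γ : ℝ → Pt d} {α β ρ : ℝ} (hαβ : α ≤ β) (hρ : 0 < ρ)
    (hc : ContinuousOn γ (Icc α β)) :
    ∃ (M : ℕ) (t : ℕ → ℝ), t 0 = α ∧ (∀ i < M, t i ≤ t (i + 1)) ∧ t M ≤ β ∧
      (∀ i < M, ‖γ (t (i + 1)) - γ (t i)‖ = ρ) ∧
      (∀ i < M, ∀ s ∈ Icc (t i) (t (i + 1)), ‖γ s - γ (t i)‖ ≤ ρ) ∧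
      (∀ s ∈ Icc (t M) β, ‖γ s - γ (t M)‖ ≤ ρ) := by
  have huc := isCompact_Icc.uniformContinuousOn_of_continuous hc
  rw [Metric.uniformContinuousOn_iff] at huc
  obtain ⟨δ, hδ, hu⟩ := huc ρ hρ
  have key : ∀ K : ℕ, ∀ α' ∈ Icc α β, β - α' ≤ K * δ →
      ∃ (M : ℕ) (t : ℕ → ℝ), t 0 = α' ∧ (∀ i < M, t i ≤ t (i + 1)) ∧ t M ≤ β ∧
      (∀ i < M, ‖γ (t (i + 1)) - γ (t i)‖ = ρ) ∧
      (∀ i < M, ∀ s ∈ Icc (t i) (t (i + 1)), ‖γ s - γ (t i)‖ ≤ ρ) ∧
      (∀ s ∈ Icc (t M) β, ‖γ s - γ (t M)‖ ≤ ρ) := by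
    intro K
    induction K with
    | zero =>
      intro α' hα' hK
      have : α' = β := by
        simp only [CharP.cast_eq_zero, zero_mul] at hK
        linarith [hα'.2]
      refine ⟨0, fun _ => α', rfl, by omega, this.le, by omega, by omega, ?_⟩
      intro s hs
      have : s = α' := le_antisymm (this ▸ hs.2) hs.1
      rw [this, sub_self, norm_zero]; exact hρ.le
    | succ K ih =>
      intro α' hα' hK
      by_cases hall : ∀ s ∈ Icc α' β, ‖γ s - γ α'‖ ≤ ρ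
      · exact ⟨0, fun _ => α', rfl, by omega, hα'.2, by omega, by omega, hall⟩
      push Not at hall
      obtain ⟨s0, hs0, hs0'⟩ := hall
      have hc' : ContinuousOn (fun s => ‖γ s - γ α'‖) (Icc α' β) :=
        ((hc.mono (Icc_subset_Icc_left hα'.1)).sub continuousOn_const).norm
      set A : Set ℝ := Icc α' β ∩ (fun s => ‖γ s - γ α'‖) ⁻¹' (Ici ρ) with hA
      have hAcl : IsClosed A := hc'.preimage_isClosed_of_isClosed isClosed_Icc isClosed_Ici
      have hAc : IsCompact A := isCompact_Icc.of_isClosed_subset hAcl inter_subset_left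
      obtain ⟨t1, ht1, hmin⟩ := hAc.exists_isLeast ⟨s0, hs0, hs0'.le⟩
      have ht1' : ρ ≤ ‖γ t1 - γ α'‖ := ht1.2
      have hlt : ∀ s ∈ Icc α' β, s < t1 → ‖γ s - γ α'‖ < ρ := by
        intro s hs hst
        by_contra hcon
        push Not at hcon
        exact absurd (hmin ⟨hs, hcon⟩) (not_le.2 hst)
      have hαt : α' < t1 := by
        rcases eq_or_lt_of_le ht1.1.1 with h | h
        · exfalso; rw [← h, sub_self, norm_zero] at ht1'; linarith
        · exact h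
      have heq : ‖γ t1 - γ α'‖ = ρ := by
        apply le_antisymm _ ht1'
        have hcw : ContinuousWithinAt (fun s => ‖γ s - γ α'‖) (Ico α' t1) t1 :=
          (hc' t1 ht1.1).mono (Ico_subset_Icc_self.trans (Icc_subset_Icc_right ht1.1.2))
        have hne : (𝓝[Ico α' t1] t1).NeBot := by
          rw [← mem_closure_iff_nhdsWithin_neBot, closure_Ico hαt.ne]
          exact ⟨hαt.le, le_rfl⟩
        refine le_of_tendsto hcw ?_
        filter_upwards [self_mem_nhdsWithin] with s hs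
        exact (hlt s ⟨hs.1, hs.2.le.trans ht1.1.2⟩ hs.2).le
      have hδt : α' + δ ≤ t1 := by
        by_contra hcon
        push Not at hcon
        have h1 := hu t1 ⟨hα'.1.trans ht1.1.1, ht1.1.2⟩ α' hα' (by
          rw [Real.dist_eq, abs_of_pos (by linarith)]; linarith)
        rw [dist_eq_norm] at h1
        linarith
      obtain ⟨M, t, e0, e1, e2, e3, e4, e5⟩ := ih t1 ⟨hα'.1.trans ht1.1.1, ht1.1.2⟩ (by
        push_cast at hK; linarith)
      refine ⟨M + 1, fun i => Nat.casesOn i α' t, rfl, ?_, e2, ?_, ?_, e5⟩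
      · intro i hi
        rcases i with _ | i
        · change α' ≤ t 0
          rw [e0]; exact hαt.le
        · exact e1 i (by omega)
      · intro i hi
        rcases i with _ | i
        · change ‖γ (t 0) - γ α'‖ = ρ
          rw [e0]; exact heq
        · exact e3 i (by omega)
      · intro i hi
        rcases i with _ | i
        · change ∀ s ∈ Icc α' (t 0), ‖γ s - γ α'‖ ≤ ρ
          rw [e0]
          intro s hs
          rcases eq_or_lt_of_le hs.2 with h | h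
          · rw [h, heq]
          · exact (hlt s ⟨hs.1, hs.2.trans ht1.1.2⟩ h).le
        · exact e4 i (by omega)
  obtain ⟨K, hK⟩ := exists_nat_ge ((β - α) / δ)
  exact key K α ⟨le_rfl, hαβ⟩ ((div_le_iff₀ hδ).1 hK)

/-- summation by parts with one-sided control -/
theorem abel_bound (n : ℕ) (x w : ℕ → ℝ) {σ0 W v : ℝ} (hσ : 0 ≤ σ0) (hv : 0 ≤ v) (hW : 0 ≤ W)
    (hx : ∀ a b, a ≤ b → b ≤ n → -σ0 ≤ ∑ i ∈ Finset.Ico a b, x i)
    (hw0 : ∀ i < n, 0 ≤ w i) (hwW : ∀ i < n, w i ≤ W)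
    (hwv : ∀ i, i + 1 < n → |w (i + 1) - w i| ≤ v) :
    -(σ0 * (W + n * v)) ≤ ∑ i ∈ Finset.range n, w i * x i := by
  rcases Nat.eq_zero_or_pos n with h0 | h0
  · subst h0
    simp only [CharP.cast_eq_zero, zero_mul, add_zero, Finset.range_zero, Finset.sum_empty]
    have := mul_nonneg hσ hW
    linarith
  set D : ℕ → ℝ := fun i => Nat.rec 0 (fun i y => max (y - x i) 0) i with hD
  have hD0 : D 0 = 0 := rfl
  have hD1 : ∀ i, D (i + 1) = max (D i - x i) 0 := fun i => rfl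
  have hDn : ∀ i, 0 ≤ D i := by
    intro i
    cases i with
    | zero => exact le_rfl
    | succ i => rw [hD1]; exact le_max_right _ _
  have hDe : ∀ i, ∃ a ≤ i, D i = -∑ k ∈ Finset.Ico a i, x k := by
    intro i
    induction i with
    | zero => exact ⟨0, le_rfl, by simp [hD0]⟩
    | succ i ih =>
      obtain ⟨a, ha, hai⟩ := ih
      rcases le_total (D i - x i) 0 with h | h
      · refine ⟨i + 1, le_rfl, ?_⟩
        rw [hD1, max_eq_right h]; simp
      · refine ⟨a, by omega, ?_⟩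
        rw [hD1, max_eq_left h, Finset.sum_Ico_succ_top ha, hai]; ring
  have hDσ : ∀ i ≤ n, D i ≤ σ0 := by
    intro i hi
    obtain ⟨a, ha, hai⟩ := hDe i
    rw [hai]
    linarith [hx a i ha hi]
  have h1 : ∀ i, D i - D (i + 1) ≤ x i := by
    intro i
    rw [hD1]
    linarith [le_max_left (D i - x i) 0]
  have h2 : ∀ m < n, -(w m * D (m + 1)) - m * v * σ0 ≤
      ∑ i ∈ Finset.range (m + 1), w i * (D i - D (i + 1)) := by
    intro m
    induction m with
    | zero =>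
      intro _
      simp [hD0]
    | succ m ih =>
      intro hm
      rw [Finset.sum_range_succ]
      have h3 := ih (by omega)
      have h4 := hwv m hm
      have h5 : |w (m + 1) - w m| * D (m + 1) ≤ v * σ0 :=
        mul_le_mul h4 (hDσ (m + 1) hm.le) (hDn (m + 1)) hv
      have h6 : -(|w (m + 1) - w m| * D (m + 1)) ≤ (w (m + 1) - w m) * D (m + 1) := by
        have := neg_abs_le (w (m + 1) - w m)
        have := mul_le_mul_of_nonneg_right this (hDn (m + 1))
        linarith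
      push_cast
      nlinarith
  have h3 : ∑ i ∈ Finset.range n, w i * (D i - D (i + 1)) ≤ ∑ i ∈ Finset.range n, w i * x i := by
    apply Finset.sum_le_sum
    intro i hi
    exact mul_le_mul_of_nonneg_left (h1 i) (hw0 i (Finset.mem_range.1 hi))
  obtain ⟨m, rfl⟩ : ∃ m, n = m + 1 := ⟨n - 1, by omega⟩
  have h4 := h2 m (by omega)
  have h5 : w m * D (m + 1) ≤ W * σ0 :=
    mul_le_mul (hwW m (by omega)) (hDσ (m + 1) le_rfl) (hDn (m + 1)) hW
  have h6 : 0 ≤ v * σ0 := mul_nonneg hv hσ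
  push_cast
  nlinarith

end Pool.Agent.Helper97.LogFPP
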