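import Pool.Agent.Helper97.LogFPP.U.Num

set_option autoImplicit false
set_option maxHeartbeats 400000

open MeasureTheory ProbabilityTheory Set Filter Topology
open scoped NNReal ENNReal RealInnerProductSpace

namespace Pool.Agent.Helper97.LogFPP

variable {d : ℕ} {K : Pt d → ℝ} {Ω : Type*} {mΩ : MeasurableSpace Ω} {P : Measure Ω}
  {h : ℕ → Pt d → Ω → ℝ} {c : VC K} {x : ℝ} {m : ℕ}

/-- the failure probability -/
noncomputable def qq (d m : ℕ) : ℝ := 1 / (2 * (7 * d * 2 ^ m) ^ (2 * d))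

theorem natcast_le_ofReal {n : ℕ} {r : ℝ} (h : (n : ℝ) ≤ r) : (n : ℝ≥0∞) ≤ ENNReal.ofReal r := by
  rw [← ENNReal.ofReal_natCast]
  exact ENNReal.ofReal_le_ofReal h

theorem Sx.w12 (X : Sx c x m) {k : ℕ} (hk : k ≤ 12) : (x ^ k)⁻¹ ≤ 2 ^ m := by
  refine le_trans ?_ X.hw
  have hx := X.hx
  apply inv_anti₀ (by positivity)
  exact pow_le_pow_of_le_one hx.le (by linarith [X.x18]) hk

theorem Sx.z_le (X : Sx c x m) (a : ℕ) :
    2 * (par d x m).B d a / (par d x m).g a + 1 ≤ ((2 : ℝ) ^ m) ^ 2 := by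
  have hx := X.hx
  have h18 := X.x18
  have h1 := X.ok.B_le a
  have hg := X.ok.g_pos a
  have hge : (par d x m).g a = x ^ 6 * (1 / 2) ^ (a + m) := by
    show x ^ 3 * (x ^ 3 * (1 / 2) ^ (a + m)) = _
    ring
  have hRe : (par d x m).R = (x ^ 3)⁻¹ := rfl
  have hw9 := X.hw
  have h2 : 2 * (par d x m).B d a / (par d x m).g a ≤ 2 * ((x ^ 3)⁻¹ + 1) * (x ^ 6)⁻¹ * 2 ^ m := by
    rw [div_le_iff₀ hg, hge]
    rw [hRe] at h1
    have e1 : 2 * ((x ^ 3)⁻¹ + 1) * (x ^ 6)⁻¹ * 2 ^ m * (x ^ 6 * (1 / 2) ^ (a + m)) =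
        2 * (((x ^ 3)⁻¹ + 1) * (1 / 2) ^ a) := by
      rw [pow_add, one_div, inv_pow, inv_pow]
      field_simp
    rw [e1]
    linarith
  have h3 : 2 * ((x ^ 3)⁻¹ + 1) * (x ^ 6)⁻¹ * 2 ^ m + 1 ≤ 5 * (x ^ 9)⁻¹ * 2 ^ m := by
    have e1 : 1 ≤ (x ^ 3)⁻¹ := (one_le_inv₀ (by positivity)).2 (pow_le_one₀ hx.le (by linarith))
    have e2 : (x ^ 9)⁻¹ = (x ^ 3)⁻¹ * (x ^ 6)⁻¹ := by rw [← mul_inv]; ring_nf
    have e3 : 1 ≤ (x ^ 9)⁻¹ := (one_le_inv₀ (by positivity)).2 (pow_le_one₀ hx.le (by linarith))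
    have e4 : (1 : ℝ) ≤ 2 ^ m := one_le_pow₀ (by norm_num)
    have e5 : 2 * ((x ^ 3)⁻¹ + 1) * (x ^ 6)⁻¹ ≤ 4 * (x ^ 9)⁻¹ := by
      rw [e2]
      have : 0 < (x ^ 6)⁻¹ := by positivity
      nlinarith
    nlinarith
  have h4 : 5 * (x ^ 9)⁻¹ ≤ 2 ^ m := by
    refine le_trans ?_ hw9
    have e1 : (x ^ 12)⁻¹ = (x ^ 3)⁻¹ * (x ^ 9)⁻¹ := by rw [← mul_inv]; ring_nf
    rw [e1]
    have e2 : 5 ≤ (x ^ 3)⁻¹ := by
      rw [le_inv_comm₀ (by norm_num) (by positivity)]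
      have := X.x3
      linarith
    have : 0 < (x ^ 9)⁻¹ := by positivity
    nlinarith
  have h5 : (0 : ℝ) < 2 ^ m := by positivity
  nlinarith

theorem Sx.Zl_card (X : Sx c x m) (a : ℕ) (y : Pt d) :
    (((par d x m).Zl a y).card : ℝ) ≤ (2 ^ m) ^ (2 * d) := by
  refine (latt_card (X.ok.g_pos a) y (X.ok.B_pos a).le).trans ?_
  rw [pow_mul]
  apply pow_le_pow_left₀ _ (X.z_le a)
  have := X.ok.g_pos a
  have := X.ok.B_pos a
  positivity

theorem Sx.En_card (X : Sx c x m) : (((par d x m).En d).card : ℝ) ≤ (2 ^ m) ^ d := by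
  have hx := X.hx
  have h1 : (((par d x m).En d).card : ℝ) ≤ ((latt (x ^ 3) (0 : Pt d) 2).card : ℝ) := by
    exact_mod_cast Finset.card_filter_le _ _
  refine h1.trans ((latt_card (by positivity) _ (by norm_num)).trans ?_)
  apply pow_le_pow_left₀ (by positivity)
  have h2 : 2 * 2 / x ^ 3 + 1 ≤ (x ^ 6)⁻¹ := by
    have e1 : (x ^ 6)⁻¹ = (x ^ 3)⁻¹ * (x ^ 3)⁻¹ := by rw [← mul_inv]; ring_nf
    have e2 : 5 ≤ (x ^ 3)⁻¹ := by
      rw [le_inv_comm₀ (by norm_num) (by positivity)]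
      have := X.x3
      have := X.x18
      linarith
    rw [e1, div_eq_mul_inv]
    nlinarith
  exact h2.trans (X.w12 (by norm_num))

theorem Sx.pm_le (X : Sx c x m) : (((par d x m).pm + 1 : ℕ) : ℝ) ≤ 2 ^ m := by
  have hx := X.hx
  push_cast
  have h0 : (0 : ℝ) ≤ 1 / x ^ 3 := by positivity
  have h1 : ((par d x m).pm : ℝ) ≤ 1 / x ^ 3 := Nat.floor_le h0
  have h2 : 1 / x ^ 3 + 1 ≤ (x ^ 6)⁻¹ := by
    have e1 : (x ^ 6)⁻¹ = (x ^ 3)⁻¹ * (x ^ 3)⁻¹ := by rw [← mul_inv]; ring_nf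
    have e2 : 5 ≤ (x ^ 3)⁻¹ := by
      rw [le_inv_comm₀ (by norm_num) (by positivity)]
      have := X.x3
      have := X.x18
      linarith
    rw [e1, one_div]
    nlinarith
  have := X.w12 (k := 6) (by norm_num)
  linarith

theorem Sx.exp_ge (X : Sx c x m) :
    A1 d * ((2 : ℝ) ^ m) ^ (2 + 7 * d) ≤ Real.exp ((par d x m).T ^ 2 / 2) := by
  have hT := T0_pos X.hd
  have hA := A1_ge X.hd
  have h1 : (par d x m).T ^ 2 = T0 d ^ 2 * m := by
    show (T0 d * √(m : ℝ)) ^ 2 = _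
    rw [mul_pow, X.sm_sq]
  have h2 : (par d x m).T ^ 2 / 2 = m * (T0 d ^ 2 / 2) := by rw [h1]; ring
  rw [h2, Real.exp_nat_mul]
  have h3 : T0 d ≤ Real.exp (T0 d ^ 2 / 2) := by
    have := Real.add_one_le_exp (T0 d ^ 2 / 2)
    nlinarith [sq_nonneg (T0 d - 1)]
  refine le_trans ?_ (pow_le_pow_left₀ hT.le h3 m)
  unfold T0
  rw [mul_pow, ← pow_mul, ← pow_mul, mul_comm m (2 + 7 * d)]
  have h4 : A1 d ≤ A1 d ^ m := by
    have := X.hm
    exact le_self_pow₀ hA (by omega)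
  gcongr

theorem Sx.bad_le (X : Sx c x m) (hh : IsField K P h) (hK : IsKernel K) (a : ℕ) (y : Pt d) :
    P ((par d x m).bad c h a y) ≤ ENNReal.ofReal (qq d m / 2) := by
  have O := X.ok
  set β := par d x m with hβ
  set w : ℝ := (2 : ℝ) ^ m with hw
  set e : ℝ := Real.exp (-(β.T ^ 2 / 2)) with he
  have hep : 0 < e := Real.exp_pos _
  have hw1 : 1 ≤ w := one_le_pow₀ (by norm_num)
  have hw0 : 0 < w := by linarith
  have hd1 : (1 : ℝ) ≤ d := by exact_mod_cast X.hd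
  have hmw : ((m : ℕ) : ℝ) ≤ w := by
    have : m < 2 ^ m := Nat.lt_two_pow_self
    have h1 : (m : ℝ) < ((2 ^ m : ℕ) : ℝ) := by exact_mod_cast this
    push_cast at h1
    exact h1.le
  have cz := natcast_le_ofReal (X.Zl_card a y)
  have ce := natcast_le_ofReal X.En_card
  have cp := natcast_le_ofReal X.pm_le
  have cm := natcast_le_ofReal hmw
  have hp : β.p = ENNReal.ofReal (2 * e) := rfl
  have b1 : P (β.E1 h a y) ≤ ENNReal.ofReal (w ^ (2 * d) * (2 * e)) := by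
    refine (E1_le O hh hK a y).trans ?_
    rw [ENNReal.ofReal_mul (by positivity), hp]
    exact mul_le_mul' cz le_rfl
  have b2 : P (β.E2 c h a y) ≤ ENNReal.ofReal (w ^ (2 * d) * (w ^ (2 * d) * (2 * e))) := by
    refine (E2_le O hh hK a y).trans ?_
    rw [ENNReal.ofReal_mul (by positivity), ENNReal.ofReal_mul (by positivity), hp]
    exact mul_le_mul' cz (mul_le_mul' cz le_rfl)
  have b3 : P (β.E3 c h a y) ≤ ENNReal.ofReal (w * (w ^ d * (w ^ (2 * d) * (2 * e)))) := by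
    refine (E3_le O hh hK a y).trans ?_
    rw [ENNReal.ofReal_mul (by positivity), ENNReal.ofReal_mul (by positivity),
      ENNReal.ofReal_mul (by positivity), hp]
    exact mul_le_mul' cm (mul_le_mul' ce (mul_le_mul' cz le_rfl))
  have b4 : P (β.E4 c h a y) ≤
      ENNReal.ofReal (w * (w ^ d * (w ^ (2 * d) * (w ^ (2 * d) * (w * (2 * e)))))) := by
    refine (E4_le O hh hK a y).trans ?_
    rw [ENNReal.ofReal_mul (by positivity), ENNReal.ofReal_mul (by positivity),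
      ENNReal.ofReal_mul (by positivity), ENNReal.ofReal_mul (by positivity),
      ENNReal.ofReal_mul (by positivity), hp]
    exact mul_le_mul' cm (mul_le_mul' ce (mul_le_mul' cz (mul_le_mul' cz (mul_le_mul' cp le_rfl))))
  have b5 : P (β.E5 c h a y) ≤ ENNReal.ofReal (4 ^ (d + 1) * (w ^ 2) ^ (2 * d) * e) := by
    refine (E5_le O hh hK a y).trans ?_
    apply ENNReal.ofReal_le_ofReal
    have h1 : 0 ≤ 2 * β.B d a / β.g a + 1 := by
      have := X.ok.g_pos a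
      have := X.ok.B_pos a
      positivity
    have h2 : (2 * β.B d a / β.g a + 1) ^ (2 * d) ≤ (w ^ 2) ^ (2 * d) :=
      pow_le_pow_left₀ h1 (X.z_le a) _
    gcongr
  have hub : P (β.bad c h a y) ≤ P (β.E1 h a y) + P (β.E2 c h a y) + P (β.E3 c h a y) +
      P (β.E4 c h a y) + P (β.E5 c h a y) := by
    unfold BP.bad
    refine (measure_union_le _ _).trans (add_le_add ?_ le_rfl)
    refine (measure_union_le _ _).trans (add_le_add ?_ le_rfl)
    refine (measure_union_le _ _).trans (add_le_add ?_ le_rfl)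
    exact measure_union_le _ _
  refine hub.trans ((add_le_add (add_le_add (add_le_add (add_le_add b1 b2) b3) b4) b5).trans ?_)
  rw [← ENNReal.ofReal_add (by positivity) (by positivity),
    ← ENNReal.ofReal_add (by positivity) (by positivity),
    ← ENNReal.ofReal_add (by positivity) (by positivity),
    ← ENNReal.ofReal_add (by positivity) (by positivity)]
  apply ENNReal.ofReal_le_ofReal
  -- real inequality
  set W : ℝ := w ^ (2 + 5 * d) with hW
  have r1 : w ^ (2 * d) * (2 * e) ≤ W * (2 * e) := by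
    gcongr
    exact pow_le_pow_right₀ hw1 (by omega)
  have r2 : w ^ (2 * d) * (w ^ (2 * d) * (2 * e)) ≤ W * (2 * e) := by
    rw [← mul_assoc, ← pow_add]
    gcongr
    exact pow_le_pow_right₀ hw1 (by omega)
  have r3 : w * (w ^ d * (w ^ (2 * d) * (2 * e))) ≤ W * (2 * e) := by
    have : w * (w ^ d * (w ^ (2 * d) * (2 * e))) = w ^ (1 + d + 2 * d) * (2 * e) := by
      rw [pow_add, pow_add, pow_one]; ring
    rw [this]
    gcongr
    exact pow_le_pow_right₀ hw1 (by omega)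
  have r4 : w * (w ^ d * (w ^ (2 * d) * (w ^ (2 * d) * (w * (2 * e))))) = W * (2 * e) := by
    have : W = w ^ (1 + d + 2 * d + 2 * d + 1) := by rw [hW]; congr 1; ring
    rw [this, pow_add, pow_add, pow_add, pow_add, pow_one]; ring
  have r5 : 4 ^ (d + 1) * (w ^ 2) ^ (2 * d) * e ≤ 4 ^ (d + 1) * W * e := by
    rw [← pow_mul]
    gcongr
    exact pow_le_pow_right₀ hw1 (by omega)
  have r6 : w ^ (2 * d) * (2 * e) + w ^ (2 * d) * (w ^ (2 * d) * (2 * e)) +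
      w * (w ^ d * (w ^ (2 * d) * (2 * e))) +
      w * (w ^ d * (w ^ (2 * d) * (w ^ (2 * d) * (w * (2 * e))))) +
      4 ^ (d + 1) * (w ^ 2) ^ (2 * d) * e ≤ (8 + 4 ^ (d + 1)) * W * e := by
    rw [r4]; linarith
  refine r6.trans ?_
  have r7 : A1 d * w ^ (2 + 7 * d) * e ≤ 1 := by
    have h1 := X.exp_ge
    rw [he, Real.exp_neg, ← div_eq_mul_inv, div_le_one (Real.exp_pos _)]
    exact h1
  have r8 : A1 d * w ^ (2 + 7 * d) * e = (8 + 4 ^ (d + 1)) * W * e *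
      (4 * (7 * d * w) ^ (2 * d)) := by
    have : w ^ (2 + 7 * d) = W * w ^ (2 * d) := by rw [hW, ← pow_add]; congr 1; ring
    rw [this, mul_pow]
    unfold A1
    ring
  rw [r8] at r7
  unfold qq
  rw [div_div, ← hw]
  have hden : 0 < 4 * (7 * (d : ℝ) * w) ^ (2 * d) := by positivity
  have e9 : 2 * (7 * (d : ℝ) * w) ^ (2 * d) * 2 = 4 * (7 * d * w) ^ (2 * d) := by ring
  rw [e9, le_div_iff₀ hden]
  exact r7

theorem qq_nonneg (d m : ℕ) : 0 ≤ qq d m := by unfold qq; positivity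

theorem Sx.qq_small (X : Sx c x m) : qq d m ≤ 1 / 4 := by
  have hd1 : (1 : ℝ) ≤ d := by exact_mod_cast X.hd
  unfold qq
  have h1 : (1 : ℝ) ≤ 2 ^ m := one_le_pow₀ (by norm_num)
  have h2 : 2 ≤ 7 * (d : ℝ) * 2 ^ m := by nlinarith
  have h3 : 2 ≤ (7 * (d : ℝ) * 2 ^ m) ^ (2 * d) := by
    have h4 : 7 * (d : ℝ) * 2 ^ m ≤ (7 * (d : ℝ) * 2 ^ m) ^ (2 * d) := by
      apply le_self_pow₀ (by linarith)
      have := X.hd
      omega
    linarith
  rw [div_le_div_iff₀ (by positivity) (by norm_num)]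
  linarith

/-- the conclusion of the recursion -/
theorem Sx.low (X : Sx c x m) (H : (par d x m).Sm c) (hh : IsField K P h) (hK : IsKernel K)
    (i : ℕ) :
    P {ω | ¬ Low (x ^ 3) (fun z => bnd h 0 (i * m) z ω) 0 (x ^ 3)⁻¹ (x ^ 3)
      (i * (4 * (par d x m).ε8 c)) ((par d x m).S c)} ≤ ENNReal.ofReal (1 / 4) := by
  have h1 := BAD_le (h := h) (P := P) X.ok X.hm (qq_nonneg d m) (by
      unfold qq
      have hd1 : (1 : ℝ) ≤ d := by exact_mod_cast X.hd
      have : 0 < (7 * (d : ℝ) * 2 ^ m) ^ (2 * d) := by positivity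
      show (7 * (d : ℝ) * 2 ^ m) ^ (2 * d) * (1 / (2 * (7 * d * 2 ^ m) ^ (2 * d))) ≤ 1 / 2
      apply le_of_eq
      field_simp) (fun a y => X.bad_le hh hK a y) hh hK i 0 0
  refine le_trans (measure_mono ?_) (h1.trans (ENNReal.ofReal_le_ofReal X.qq_small))
  intro ω hω
  by_contra hcon
  apply hω
  have h2 := BAD_low X.ok H hh i 0 0 ω hcon
  simp only [pow_zero, mul_one, zero_add] at h2
  exact h2

end Pool.Agent.Helper97.LogFPP
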