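import Pool.Agent.Helper97.LogFPP.U.Det

set_option autoImplicit false
set_option maxHeartbeats 400000

open MeasureTheory ProbabilityTheory Set Filter Topology
open scoped NNReal ENNReal RealInnerProductSpace

namespace Pool.Agent.Helper97.LogFPP

variable {d : ℕ} {K : Pt d → ℝ} {Ω : Type*} {mΩ : MeasurableSpace Ω} {P : Measure Ω}
  {h : ℕ → Pt d → Ω → ℝ} {c : VC K} {β : BP}

/-- the ball of radius `2 R 2^{-a}` -/
def BP.ball2 (β : BP) (a : ℕ) (x : Pt d) : Set (Pt d) :=
  Metric.closedBall x (2 * β.R * (1 / 2) ^ a)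

/-- mesh of the grid of subblocks -/
noncomputable def BP.gg (β : BP) (d a : ℕ) : ℝ := β.R * (1 / 2) ^ (a + β.m) / (2 * d)

/-- the grid of subblocks -/
noncomputable def BP.Gr (β : BP) (a : ℕ) (x : Pt d) : Finset (Pt d) :=
  latt (β.gg d a) x (β.R * (1 / 2) ^ a + β.R * (1 / 2) ^ (a + β.m) / 2)

/-- the bad events -/
noncomputable def BP.BAD (c : VC K) (β : BP) (h : ℕ → Pt d → Ω → ℝ) : ℕ → ℕ → Pt d → Set Ω
  | 0, _, _ => ∅
  | i + 1, a, x => β.bad c h a x ∪ ⋃ y ∈ β.Gr a x, ⋃ y' ∈ β.Gr a x,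
      {ω | 5 * (β.R * (1 / 2) ^ (a + β.m)) ≤ ‖y - y'‖ ∧
        ω ∈ BP.BAD c β h i (a + β.m) y ∩ BP.BAD c β h i (a + β.m) y'}

section measurability

theorem ms_lt {Ω : Type*} [MeasurableSpace Ω] {X : Ω → ℝ} (hX : Measurable X) (t : ℝ) :
    MeasurableSet {ω | t < |X ω|} :=
  measurableSet_lt measurable_const hX.abs

theorem ms_and {Ω : Type*} [MeasurableSpace Ω] {p : Prop} {s : Set Ω} (hs : MeasurableSet s) :
    MeasurableSet {ω | p ∧ ω ∈ s} := by
  by_cases hp : p
  · have : {ω | p ∧ ω ∈ s} = s := by ext ω; simp [hp]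
    rw [this]; exact hs
  · have : {ω | p ∧ ω ∈ s} = ∅ := by ext ω; simp [hp]
    rw [this]; exact MeasurableSet.empty

theorem BP.OK.R_pos (O : β.OK c) : 0 < β.R := by
  have := O.hR
  have := O.hℓ
  linarith

omit mΩ in
theorem mem_ball2 (O : β.OK c) {a : ℕ} {x y : Pt d}
    (hy : ‖y - x‖ ≤ β.B d a + 4 * β.ℓ * (1 / 2) ^ a) : y ∈ β.ball2 a x := by
  unfold BP.ball2
  rw [mem_closedBall_iff_norm]
  refine hy.trans ?_
  have h1 := O.B_le a
  have h2 := O.hR
  have h3 := half_pow_pos a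
  nlinarith

omit mΩ in
theorem latt_ball2 (O : β.OK c) {a : ℕ} {x y : Pt d} {g : ℝ} (hy : y ∈ latt g x (β.B d a)) :
    y ∈ β.ball2 a x := by
  apply mem_ball2 O
  have h1 := latt_norm hy
  have h2 := O.hℓ
  have h3 := half_pow_pos a
  have : 0 ≤ 4 * β.ℓ * (1 / 2) ^ a := by positivity
  linarith

omit mΩ in
theorem Φ_meas (a : ℕ) {x y : Pt d} (hy : y ∈ β.ball2 a x) :
    Measurable[locAlg h a (β.ball2 a x)] (β.Φ h a y) := loc_meas (by omega) hy

omit mΩ in
theorem Φ_sub_meas (a : ℕ) {x y y' : Pt d} (hy : y ∈ β.ball2 a x) (hy' : y' ∈ β.ball2 a x) :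
    Measurable[locAlg h a (β.ball2 a x)] (β.Φ h a y - β.Φ h a y') :=
  Measurable.sub (Φ_meas a hy) (Φ_meas a hy')

omit mΩ in
theorem vf_meas (O : β.OK c) {a k : ℕ} (hk : k < β.m) {e : Pt d} (he : e ∈ β.En d) {x y : Pt d}
    (hy : y ∈ β.Zl a x) :
    Measurable[locAlg h a (β.ball2 a x)] (vf h (a + k) (β.g a) (β.n a k) e y) := by
  let m0 : MeasurableSpace Ω := locAlg h a (β.ball2 a x)
  have hvf : vf h (a + k) (β.g a) (β.n a k) e y = fun ω => ∑ s ∈ Finset.range (β.n a k),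
      (β.g a * (1 - (s : ℝ) / (β.n a k))) * ph h (a + k) (y - ((s : ℝ) * β.g a) • e) ω := by
    funext ω
    unfold vf
    rw [Finset.sum_apply]
    rfl
  rw [hvf]
  apply Finset.measurable_sum
  intro s hs
  apply Measurable.const_mul
  apply loc_meas' (by omega) (by omega)
  apply mem_ball2 O
  have L := O.lp a hk he
  have h1 := latt_norm hy
  have h2 : (s : ℝ) ≤ β.n a k := by exact_mod_cast (Finset.mem_range.1 hs).le
  have h3 : y - ((s : ℝ) * β.g a) • e - x = (y - x) - ((s : ℝ) * β.g a) • e := by abel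
  rw [h3]
  refine (norm_sub_le _ _).trans ?_
  have hg := O.g_pos a
  have h4 : ‖((s : ℝ) * β.g a) • e‖ ≤ 4 * β.ℓ * (1 / 2) ^ a := by
    rw [norm_smul, Real.norm_of_nonneg (by positivity)]
    have h5 : (s : ℝ) * β.g a ≤ 2 * β.ℓ * (1 / 2) ^ (a + k) :=
      (mul_le_mul_of_nonneg_right h2 hg.le).trans L.hn2
    have h6 : (1 / 2 : ℝ) ^ (a + k) ≤ (1 / 2) ^ a := half_pow_le (by omega)
    have h7 := L.hℓ
    calc (s : ℝ) * β.g a * ‖e‖ ≤ (2 * β.ℓ * (1 / 2) ^ (a + k)) * 2 := by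
          apply mul_le_mul h5 L.he2 (norm_nonneg _)
          positivity
      _ ≤ (2 * β.ℓ * (1 / 2) ^ a) * 2 := by gcongr
      _ = 4 * β.ℓ * (1 / 2) ^ a := by ring
  linarith

omit mΩ in
theorem bad_meas (O : β.OK c) (a : ℕ) (x : Pt d) :
    MeasurableSet[locAlg h a (β.ball2 a x)] (β.bad c h a x) := by
  let m0 : MeasurableSpace Ω := locAlg h a (β.ball2 a x)
  have hZ : ∀ y ∈ β.Zl a x, y ∈ β.ball2 a x := fun y hy => latt_ball2 O hy
  have m1 : MeasurableSet (β.E1 h a x) := by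
    apply Finset.measurableSet_biUnion
    intro y hy
    exact ms_lt (Φ_meas a (hZ y hy)) _
  have m2 : MeasurableSet (β.E2 c h a x) := by
    apply Finset.measurableSet_biUnion
    intro y hy
    apply Finset.measurableSet_biUnion
    intro y' hy'
    exact ms_lt (Φ_sub_meas a (hZ y hy) (hZ y' hy')) _
  have m3 : MeasurableSet (β.E3 c h a x) := by
    apply Finset.measurableSet_biUnion
    intro k hk
    apply Finset.measurableSet_biUnion
    intro e he
    apply Finset.measurableSet_biUnion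
    intro y hy
    exact ms_lt (vf_meas O (Finset.mem_range.1 hk) he hy) _
  have m4 : MeasurableSet (β.E4 c h a x) := by
    apply Finset.measurableSet_biUnion
    intro k hk
    apply Finset.measurableSet_biUnion
    intro e he
    apply Finset.measurableSet_biUnion
    intro y hy
    apply Finset.measurableSet_biUnion
    intro y' hy'
    apply Finset.measurableSet_biUnion
    intro p _
    apply ms_and (s := {ω | β.T * β.sd c a k p (y' - y - ((p : ℝ) * β.g a) • e) <
      |β.X h a k p e y y' ω|})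
    apply ms_lt
    unfold BP.X
    have g1 := vf_meas (h := h) O (Finset.mem_range.1 hk) he hy
    have g2 := vf_meas (h := h) O (Finset.mem_range.1 hk) he hy'
    have g3 : Measurable[m0] (ph h (a + k) y) := loc_meas' (by omega) (by omega) (hZ y hy)
    exact (g2.sub g1).sub (g3.const_smul _)
  have m5 : MeasurableSet (β.E5 c h a x) := by
    apply MeasurableSet.iUnion
    intro j
    apply Finset.measurableSet_biUnion
    intro y hy
    apply Finset.measurableSet_biUnion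
    intro y' hy'
    apply ms_and (s := {ω | β.T * (5 / 4) ^ j * (√(2 * c.C) * (2 * √d * (β.g a / 2 ^ j)) *
      2 ^ (a + β.m)) < |(β.Φ h a y - β.Φ h a y') ω|})
    exact ms_lt (Φ_sub_meas a (latt_ball2 O hy) (latt_ball2 O hy')) _
  exact (((m1.union m2).union m3).union m4).union m5

omit mΩ in
theorem Gr_ball2 (O : β.OK c) (hm : 2 ≤ β.m) {a : ℕ} {x y : Pt d} (hy : y ∈ β.Gr a x) :
    β.ball2 (a + β.m) y ⊆ β.ball2 a x := by
  intro z hz
  unfold BP.ball2 at *
  rw [mem_closedBall_iff_norm] at *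
  have h1 := latt_norm hy
  have hR := O.R_pos
  have h2 : z - x = (z - y) + (y - x) := by abel
  rw [h2]
  refine (norm_add_le _ _).trans ?_
  have h3 : (1 / 2 : ℝ) ^ (a + β.m) ≤ (1 / 4) * (1 / 2) ^ a := by
    have h4 : (1 / 2 : ℝ) ^ (a + β.m) ≤ (1 / 2) ^ (a + 2) := half_pow_le (by omega)
    have h5 : (1 / 2 : ℝ) ^ (a + 2) = (1 / 4) * (1 / 2) ^ a := by rw [pow_add]; ring
    linarith
  have h4 := half_pow_pos a
  nlinarith

omit mΩ in
theorem BAD_meas (O : β.OK c) (hm : 2 ≤ β.m) (i a : ℕ) (x : Pt d) :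
    MeasurableSet[locAlg h a (β.ball2 a x)] (β.BAD c h i a x) := by
  induction i generalizing a x with
  | zero => exact @MeasurableSet.empty _ (locAlg h a (β.ball2 a x))
  | succ i ih =>
    let m0 : MeasurableSpace Ω := locAlg h a (β.ball2 a x)
    have g1 : ∀ y ∈ β.Gr a x, MeasurableSet (β.BAD c h i (a + β.m) y) := by
      intro y hy
      exact loc_mono (by omega) (Gr_ball2 O hm hy) _ (ih (a + β.m) y)
    apply MeasurableSet.union (bad_meas O a x)
    apply Finset.measurableSet_biUnion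
    intro y hy
    apply Finset.measurableSet_biUnion
    intro y' hy'
    exact ms_and ((g1 y hy).inter (g1 y' hy'))

end measurability

section prob

theorem Gr_card (O : β.OK c) (a : ℕ) (x : Pt d) :
    ((β.Gr a x).card : ℝ) ≤ (7 * d * 2 ^ β.m) ^ d := by
  have hR := O.R_pos
  have hd : (1 : ℝ) ≤ d := by exact_mod_cast O.hd
  have hu := half_pow_pos (a + β.m)
  have hu0 := half_pow_pos a
  have hg : 0 < β.gg d a := by unfold BP.gg; positivity
  refine (latt_card hg x (by positivity)).trans ?_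
  apply pow_le_pow_left₀ (by positivity)
  have h1 : 2 * (β.R * (1 / 2) ^ a + β.R * (1 / 2) ^ (a + β.m) / 2) / β.gg d a =
      4 * d * 2 ^ β.m + 2 * d := by
    unfold BP.gg
    rw [pow_add, one_div, inv_pow, inv_pow]
    field_simp
    ring
  rw [h1]
  have h2 : (1 : ℝ) ≤ 2 ^ β.m := one_le_pow₀ (by norm_num)
  nlinarith

theorem BAD_le (O : β.OK c) (hm : 2 ≤ β.m) {q : ℝ} (hq0 : 0 ≤ q)
    (hq : (7 * d * 2 ^ β.m : ℝ) ^ (2 * d) * q ≤ 1 / 2)
    (hbad : ∀ a (x : Pt d), P (β.bad c h a x) ≤ ENNReal.ofReal (q / 2))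
    (hh : IsField K P h) (hK : IsKernel K) (i a : ℕ) (x : Pt d) :
    P (β.BAD c h i a x) ≤ ENNReal.ofReal q := by
  induction i generalizing a x with
  | zero =>
    have : β.BAD c h 0 a x = ∅ := rfl
    rw [this, measure_empty]
    exact bot_le
  | succ i ih =>
    have hR := O.R_pos
    have hu := half_pow_pos (a + β.m)
    have h0 : P (⋃ y ∈ β.Gr a x, ⋃ y' ∈ β.Gr a x,
        {ω | 5 * (β.R * (1 / 2) ^ (a + β.m)) ≤ ‖y - y'‖ ∧
          ω ∈ BP.BAD c β h i (a + β.m) y ∩ BP.BAD c β h i (a + β.m) y'}) ≤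
        (β.Gr a x).card * ((β.Gr a x).card * (ENNReal.ofReal q * ENNReal.ofReal q)) := by
      apply biUnion_le
      intro y _
      apply biUnion_le
      intro y' _
      by_cases hcond : 5 * (β.R * (1 / 2) ^ (a + β.m)) ≤ ‖y - y'‖
      · refine (measure_mono (fun ω hω => hω.2)).trans ?_
        rw [loc_inter hh hK c _ (BAD_meas O hm i (a + β.m) y) (BAD_meas O hm i (a + β.m) y')]
        · exact mul_le_mul' (ih _ _) (ih _ _)
        · intro z hz w hw
          unfold BP.ball2 at hz hw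
          rw [mem_closedBall_iff_norm] at hz hw
          have h1 : y - y' = (z - w) - (z - y) + (w - y') := by abel
          have h2 := norm_add_le ((z - w) - (z - y)) (w - y')
          have h3 := norm_sub_le (z - w) (z - y)
          rw [← h1] at h2
          have h4 : c.D * (1 / 2) ^ (a + β.m) ≤ β.R * (1 / 2) ^ (a + β.m) :=
            mul_le_mul_of_nonneg_right O.hRD hu.le
          linarith
      · have : {ω | 5 * (β.R * (1 / 2) ^ (a + β.m)) ≤ ‖y - y'‖ ∧
            ω ∈ BP.BAD c β h i (a + β.m) y ∩ BP.BAD c β h i (a + β.m) y'} = ∅ := by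
          ext ω
          simp only [mem_setOf_eq, mem_empty_iff_false, iff_false]
          exact fun h => hcond h.1
        rw [this, measure_empty]
        exact bot_le
    have h1 : ((β.Gr a x).card : ℝ≥0∞) * ((β.Gr a x).card *
        (ENNReal.ofReal q * ENNReal.ofReal q)) ≤ ENNReal.ofReal (q / 2) := by
      rw [← ENNReal.ofReal_natCast, ← ENNReal.ofReal_mul hq0, ← ENNReal.ofReal_mul (by positivity),
        ← ENNReal.ofReal_mul (by positivity)]
      apply ENNReal.ofReal_le_ofReal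
      have h2 := Gr_card O a x
      have h3 : ((β.Gr a x).card : ℝ) * (β.Gr a x).card ≤ (7 * d * 2 ^ β.m) ^ (2 * d) := by
        rw [two_mul, pow_add]
        exact mul_le_mul h2 h2 (by positivity) (by positivity)
      calc ((β.Gr a x).card : ℝ) * ((β.Gr a x).card * (q * q)) =
          (((β.Gr a x).card : ℝ) * (β.Gr a x).card) * q * q := by ring
        _ ≤ (7 * d * 2 ^ β.m) ^ (2 * d) * q * q := by gcongr
        _ ≤ 1 / 2 * q := by gcongr
        _ = q / 2 := by ring
    have h2 : β.BAD c h (i + 1) a x = β.bad c h a x ∪ ⋃ y ∈ β.Gr a x, ⋃ y' ∈ β.Gr a x,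
        {ω | 5 * (β.R * (1 / 2) ^ (a + β.m)) ≤ ‖y - y'‖ ∧
          ω ∈ BP.BAD c β h i (a + β.m) y ∩ BP.BAD c β h i (a + β.m) y'} := rfl
    rw [h2]
    refine (measure_union_le _ _).trans ((add_le_add (hbad a x) (h0.trans h1)).trans ?_)
    rw [← ENNReal.ofReal_add (by positivity) (by positivity)]
    apply ENNReal.ofReal_le_ofReal
    linarith

end prob

section low

/-- the additive constant -/
noncomputable def BP.S (β : BP) (c : VC K) : ℝ := 8 * (β.ξ * β.T * c.A * √β.ℓ)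

/-- the error of a medium step -/
noncomputable def BP.ε6 (β : BP) (c : VC K) : ℝ :=
  β.ω c + 4 * β.Lv c ^ 2 + β.ε3 c + 2 * β.ω c * β.S c / β.r

/-- the total error -/
noncomputable def BP.ε8 (β : BP) (c : VC K) : ℝ :=
  β.ε6 c + 4 * (β.S c + β.r) / β.R +
    (2 * (2 * β.S c + 2 * β.r) + 24 * β.R + β.r) / β.r * (1 / 2) ^ β.m

/-- smallness of the errors -/
structure BP.Sm (β : BP) (c : VC K) : Prop where
  hη : β.η c ≤ 1 / 8
  hL1 : β.η c + β.Lv c + β.ε3 c ≤ 1
  hε8 : β.ε8 c ≤ 1 / 8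

theorem BP.OK.S_nonneg (O : β.OK c) : 0 ≤ β.S c := by
  unfold BP.S
  have := O.hξ
  have := O.hT
  have := c.A_ge
  positivity

theorem BP.OK.η_nonneg (O : β.OK c) : 0 ≤ β.η c := by
  unfold BP.η
  have := O.hξ
  have := O.hT
  have := oc_nonneg O
  positivity

theorem BP.OK.ω_nonneg (O : β.OK c) : 0 ≤ β.ω c := by
  unfold BP.ω
  have := O.hξ
  have := oc_nonneg O
  positivity

theorem BP.OK.Lv_nonneg (O : β.OK c) : 0 ≤ β.Lv c := by
  unfold BP.Lv
  have := O.hξ
  have := O.hT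
  have := c.A_ge
  positivity

theorem BP.OK.ε3_nonneg (O : β.OK c) : 0 ≤ β.ε3 c := by
  unfold BP.ε3 BP.e0
  have := O.hξ
  have := O.hT
  have := c.A_ge
  have := O.ω_nonneg
  have := O.η_nonneg
  have := O.hδ
  have := O.hr
  positivity

theorem BP.OK.bc (O : β.OK c) (H : β.Sm c) (a : ℕ) :
    BC (β.ρ a) (β.η c) (β.ω c) (β.Lv c) (β.ε3 c) (β.S c * (1 / 2) ^ (a + β.m))
      (β.R * (1 / 2) ^ (a + β.m)) (β.ε6 c) := by
  have hu := half_pow_pos (a + β.m)
  have hR := O.R_pos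
  have hr := O.hr
  have hS := O.S_nonneg
  refine ⟨O.ρ_pos a, O.η_nonneg, H.hη, O.ω_nonneg, O.Lv_nonneg, O.ε3_nonneg, by positivity,
    by positivity, ?_, ?_, H.hL1⟩
  · unfold BP.ε6 BP.ρ
    have : 2 * β.ω c * (β.S c * (1 / 2) ^ (a + β.m)) / (β.r * (1 / 2) ^ (a + β.m)) =
        2 * β.ω c * β.S c / β.r := by field_simp
    rw [this]
  · have h1 : (2 * (β.S c * (1 / 2) ^ (a + β.m)) + 2 * β.ρ a) / (β.R * (1 / 2) ^ (a + β.m) / 2) =
        4 * (β.S c + β.r) / β.R := by
      unfold BP.ρ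
      field_simp
      ring
    rw [h1]
    have h2 := H.hε8
    unfold BP.ε8 at h2
    have h3 : 0 ≤ (2 * (2 * β.S c + 2 * β.r) + 24 * β.R + β.r) / β.r * (1 / 2) ^ β.m := by
      positivity
    linarith

theorem BAD_low (O : β.OK c) (H : β.Sm c) (hh : IsField K P h) (i : ℕ) :
    ∀ (a : ℕ) (x : Pt d) (ω : Ω), ω ∉ β.BAD c h i a x →
      Low β.ξ (fun z => bnd h a (a + i * β.m) z ω) x (β.R * (1 / 2) ^ a) (β.r * (1 / 2) ^ a)
        (i * (4 * β.ε8 c)) (β.S c * (1 / 2) ^ a) := by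
  induction i with
  | zero =>
    intro a x ω _
    have hS := O.S_nonneg
    have h1 := low_zero (ξ := β.ξ) (f := fun z => bnd h a (a + 0 * β.m) z ω) (fun z => by simp [bnd])
      x (β.R * (1 / 2) ^ a) (β.r * (1 / 2) ^ a) (β.S c * (1 / 2) ^ a) (by positivity)
    simp only [Nat.cast_zero, zero_mul, add_zero] at h1 ⊢
    exact h1
  | succ i ih =>
    intro a x ω hω
    have hR := O.R_pos
    have hr := O.hr
    have hS := O.S_nonneg
    have hu := half_pow_pos (a + β.m)
    have hua := half_pow_pos a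
    have hd1 : (1 : ℝ) ≤ d := by exact_mod_cast O.hd
    have hgg : 0 < β.gg d a := by unfold BP.gg; positivity
    set ρf := β.R * (1 / 2) ^ (a + β.m) with hρf
    have hρfp : 0 < ρf := by positivity
    have hω' : ω ∉ β.bad c h a x ∪ ⋃ y ∈ β.Gr a x, ⋃ y' ∈ β.Gr a x,
        {ω | 5 * (β.R * (1 / 2) ^ (a + β.m)) ≤ ‖y - y'‖ ∧
          ω ∈ BP.BAD c β h i (a + β.m) y ∩ BP.BAD c β h i (a + β.m) y'} := hω
    rw [mem_union, not_or] at hω'
    obtain ⟨hbad, hpair⟩ := hω'
    unfold BP.bad at hbad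
    simp only [mem_union, not_or] at hbad
    obtain ⟨⟨⟨⟨b1, b2⟩, b3⟩, b4⟩, b5⟩ := hbad
    have hpair' : ∀ y ∈ β.Gr a x, ∀ y' ∈ β.Gr a x, 5 * ρf ≤ ‖y - y'‖ →
        ω ∈ BP.BAD c β h i (a + β.m) y → ω ∉ BP.BAD c β h i (a + β.m) y' := by
      intro y hy y' hy' h1 h2 h3
      exact not_mem_biUnion (not_mem_biUnion hpair hy) hy' ⟨h1, h2, h3⟩
    -- rounding to the grid
    have hround : ∀ z ∈ Metric.closedBall x (β.R * (1 / 2) ^ a),
        rd (β.gg d a) z ∈ β.Gr a x ∧ ‖z - rd (β.gg d a) z‖ ≤ ρf / 2 := by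
      intro z hz
      rw [mem_closedBall_iff_norm] at hz
      have h1 : ‖z - rd (β.gg d a) z‖ ≤ ρf / 2 := by
        refine (rd_dist hgg z).trans ?_
        unfold BP.gg
        have h2 : √(d : ℝ) ≤ d := by
          rw [Real.sqrt_le_left (by positivity)]
          nlinarith
        calc √(d : ℝ) * (β.R * (1 / 2) ^ (a + β.m) / (2 * d)) ≤
            d * (β.R * (1 / 2) ^ (a + β.m) / (2 * d)) := by gcongr
          _ = ρf / 2 := by rw [hρf]; field_simp
      refine ⟨rd_mem_latt hgg ?_, h1⟩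
      have h2 : rd (β.gg d a) z - x = (z - x) - (z - rd (β.gg d a) z) := by abel
      rw [h2]
      exact (norm_sub_le _ _).trans (add_le_add hz h1)
    -- the exceptional point
    obtain ⟨z1, hz1⟩ : ∃ z1 : Pt d, ∀ y ∈ β.Gr a x, 5 * ρf ≤ ‖z1 - y‖ →
        ω ∉ BP.BAD c β h i (a + β.m) y := by
      by_cases hex : ∃ y0 ∈ β.Gr a x, ω ∈ BP.BAD c β h i (a + β.m) y0
      · obtain ⟨y0, hy0, hy0'⟩ := hex
        exact ⟨y0, fun y hy h1 => hpair' y0 hy0 y hy h1 hy0'⟩
      · push Not at hex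
        exact ⟨x, fun y hy _ => hex y hy⟩
    have hf : Continuous fun z => bnd h (a + β.m) (a + β.m + i * β.m) z ω :=
      (hh.smooth _ ω).continuous.sub (hh.smooth _ ω).continuous
    have hΦ : Continuous fun z => β.Φ h a z ω :=
      (hh.smooth _ ω).continuous.sub (hh.smooth _ ω).continuous
    have hgood : ∀ z ∈ Metric.closedBall x (β.R * (1 / 2) ^ a), 6 * ρf ≤ ‖z - z1‖ →
        ∃ y, (∀ z', ‖z' - z‖ ≤ ρf / 2 → ‖z' - y‖ ≤ ρf) ∧
          Low β.ξ (fun z => bnd h (a + β.m) (a + β.m + i * β.m) z ω) y ρf (β.ρ a)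
            (i * (4 * β.ε8 c)) (β.S c * (1 / 2) ^ (a + β.m)) := by
      intro z hz hzz
      obtain ⟨g1, g2⟩ := hround z hz
      refine ⟨rd (β.gg d a) z, ?_, ?_⟩
      · intro z' hz'
        have h1 : z' - rd (β.gg d a) z = (z' - z) + (z - rd (β.gg d a) z) := by abel
        rw [h1]
        refine (norm_add_le _ _).trans ?_
        linarith
      · apply ih (a + β.m) (rd (β.gg d a) z) ω
        apply hz1 _ g1
        have h1 : z - z1 = (z - rd (β.gg d a) z) - (z1 - rd (β.gg d a) z) := by abel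
        have h2 := norm_sub_le (z - rd (β.gg d a) z) (z1 - rd (β.gg d a) z)
        rw [← h1] at h2
        linarith
    have hV0 : 0 ≤ β.V0 c a := by
      unfold BP.V0
      have := O.hξ
      have := O.hT
      have := c.A_ge
      positivity
    have hstep := block_step (by have := O.hd; omega) (O.bc H a) hf hΦ (x := x)
      (Rc := β.R * (1 / 2) ^ a) (V0 := β.V0 c a)
      (fun z hz => det_small O hh b1 b5 (mem_closedBall_iff_norm.1 hz))
      (fun z hz z' hz' hzz => det_osc O hh b2 b5 (mem_closedBall_iff_norm.1 hz)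
        (mem_closedBall_iff_norm.1 hz') hzz)
      (fun e he => ⟨β.V h a e ω, fun z hz => det_V O he b3 (mem_closedBall_iff_norm.1 hz),
        det_dual O hh he b1 b2 b4 b5⟩) hV0 (Rb := 6 * ρf) (z1 := z1) (by positivity) hgood
      (ρc := β.r * (1 / 2) ^ a) (ε8 := β.ε8 c) (by positivity) ?_ H.hε8
    · have e1 : (fun z => β.Φ h a z ω + bnd h (a + β.m) (a + β.m + i * β.m) z ω) =
          fun z => bnd h a (a + (i + 1) * β.m) z ω := by
        funext z
        have e2 : a + (i + 1) * β.m = a + β.m + i * β.m := by ring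
        unfold BP.Φ bnd
        rw [e2]
        ring
      rw [e1] at hstep
      have e3 : (i : ℝ) * (4 * β.ε8 c) + 4 * β.ε8 c = ((i + 1 : ℕ) : ℝ) * (4 * β.ε8 c) := by
        push_cast; ring
      have e4 : 4 * β.V0 c a = β.S c * (1 / 2) ^ a := by
        unfold BP.V0 BP.S; ring
      rw [e3, e4] at hstep
      exact hstep
    · unfold BP.ε8
      have h1 : (2 * (β.S c * (1 / 2) ^ (a + β.m)) + 2 * β.ρ a) / (ρf / 2) =
          4 * (β.S c + β.r) / β.R := by
        unfold BP.ρ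
        rw [hρf]
        field_simp
        ring
      have h2 : (2 * (2 * (β.S c * (1 / 2) ^ (a + β.m)) + 2 * β.ρ a) + 4 * (6 * ρf) + β.ρ a) /
          (β.r * (1 / 2) ^ a) =
          (2 * (2 * β.S c + 2 * β.r) + 24 * β.R + β.r) / β.r * (1 / 2) ^ β.m := by
        unfold BP.ρ
        rw [hρf, pow_add]
        field_simp
        ring
      rw [h1, h2]

end low

end Pool.Agent.Helper97.LogFPP
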