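import Pool.Agent.Helper97.LogFPP.U.Prob
import Pool.Agent.Helper97.LogFPP.Lower

set_option autoImplicit false
set_option maxHeartbeats 400000

open MeasureTheory ProbabilityTheory Set Filter Topology
open scoped NNReal ENNReal RealInnerProductSpace

namespace Pool.Agent.Helper97.LogFPP

variable {d : ℕ} {K : Pt d → ℝ}

section
variable {Ω : Type*} {mΩ : MeasurableSpace Ω} {P : Measure Ω}
  {h : ℕ → Pt d → Ω → ℝ} {c : VC K} {x : ℝ} {m : ℕ}

theorem h0_zero (hh : IsField K P h) : ∀ᵐ ω ∂P, ∀ z, h 0 z ω = 0 := by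
  have := hh.gaussian.isProbabilityMeasure
  have h1 : ∀ z, ∀ᵐ ω ∂P, h 0 z ω = 0 := by
    intro z
    have hL := LS_memLp hh.gaussian (h_mem 0 z)
    have hvar : Var[h 0 z; P] = 0 := by
      rw [← covariance_self hL.aemeasurable, hh.covar]
      simp
    have hev : eVar[h 0 z; P] = 0 := by
      rw [← hL.ofReal_variance_eq, hvar, ENNReal.ofReal_zero]
    rw [evariance_eq_zero_iff hL.aemeasurable] at hev
    filter_upwards [hev] with ω hω
    rw [hω, hh.mean]
  have h2 : ∀ᵐ ω ∂P, ∀ n, h 0 (TopologicalSpace.denseSeq (Pt d) n) ω = 0 :=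
    ae_all_iff.2 fun n => h1 _
  filter_upwards [h2] with ω hω
  intro z
  have hc : Continuous (fun z => h 0 z ω) := (hh.smooth 0 ω).continuous
  have hcl : IsClosed {z | h 0 z ω = 0} := isClosed_eq hc continuous_const
  have hsub : range (TopologicalSpace.denseSeq (Pt d)) ⊆ {z | h 0 z ω = 0} := by
    rintro _ ⟨n, rfl⟩
    exact hω n
  have := (TopologicalSpace.denseRange_denseSeq (Pt d)).closure_eq ▸ hcl.closure_subset_iff.2 hsub
  exact this (mem_univ z)

theorem norm_e1 [NeZero d] : ‖e1 d‖ = 1 := by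
  unfold e1
  simp

theorem low_fdist [NeZero d] {ξ : ℝ} {f : Pt d → ℝ} (hf : Continuous f) {R r Λ S : ℝ}
    (hR : 2 * √d ≤ R) (hr : 0 < r) (hrS : r + S ≤ 1 / 2) (hL : Low ξ f 0 R r Λ S) :
    Real.exp (-Λ) / 2 ≤ fdist ξ f (Box 2 0) 0 (e1 d) := by
  apply le_csInf
  · have hseg : ∀ t ∈ Icc (0 : ℝ) 1, (0 : Pt d) + t • (e1 d - 0) ∈ Box 2 (0 : Pt d) := by
      intro t ht i
      have h1 := coord_le_norm ((0 : Pt d) + t • (e1 d - 0)) i
      have h2 : ‖(0 : Pt d) + t • (e1 d - 0)‖ = t := by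
        rw [zero_add, sub_zero, norm_smul, norm_e1, Real.norm_of_nonneg ht.1, mul_one]
      have h3 : ((0 : Pt d) + t • (e1 d - 0)) i - (0 : Pt d) i =
          ((0 : Pt d) + t • (e1 d - 0)) i := by simp
      rw [h3]
      have := ht.2
      linarith
    obtain ⟨γ, h1, h2⟩ := conn_segment (fun x => Real.exp (ξ * f x)) hseg
    exact ⟨_, γ, h1, rfl⟩
  · rintro _ ⟨γ, hγ, rfl⟩
    have hpc := hγ.pc
    obtain ⟨M, t, t0, e1', e2, e3, e4, e5⟩ := exit_chain zero_le_one hr hpc.cont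
    have hmem : ∀ i ≤ M, t i ∈ Icc (0 : ℝ) 1 := fun i hi =>
      ⟨t0 ▸ mono_of_le e1' (Nat.zero_le i) hi, (mono_of_le e1' hi le_rfl).trans e2⟩
    have h1 := hL γ hpc M t t0.ge e2 e1' e3 (by
      intro s hs
      have hs' : s ∈ Icc (0 : ℝ) 1 := ⟨t0 ▸ hs.1, hs.2.trans e2⟩
      have h2 := hγ.mem s hs'
      have h3 : ‖γ s - 0‖ ≤ √d * 2 := norm_le_of_coord (by norm_num) fun i => (h2 i).le
      linarith)
    have hg : Continuous fun x => Real.exp (ξ * f x) :=
      Real.continuous_exp.comp (continuous_const.mul hf)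
    have hlen : len ξ f γ = cst (fun x => Real.exp (ξ * f x)) γ (t 0) (t M) +
        cst (fun x => Real.exp (ξ * f x)) γ (t M) 1 := by
      rw [t0, hpc.cst_add hg le_rfl (hmem M le_rfl).1 e2 le_rfl]
      rfl
    have hnn : 0 ≤ cst (fun x => Real.exp (ξ * f x)) γ (t M) 1 :=
      cst_nonneg (fun x => (Real.exp_pos _).le) γ e2
    have hlast := e5 1 ⟨e2, le_rfl⟩
    rw [hγ.finish] at hlast
    have h00 : γ (t 0) = 0 := by rw [t0, hγ.start]
    have hdisp : 1 - r ≤ ‖γ (t M) - γ (t 0)‖ := by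
      have h2 : ‖e1 d‖ ≤ ‖e1 d - γ (t M)‖ + ‖γ (t M) - γ (t 0)‖ := by
        have h3 : e1 d = (e1 d - γ (t M)) + (γ (t M) - γ (t 0)) := by rw [h00]; abel
        calc ‖e1 d‖ = ‖(e1 d - γ (t M)) + (γ (t M) - γ (t 0))‖ := by rw [← h3]
          _ ≤ _ := norm_add_le _ _
      rw [norm_e1] at h2
      linarith
    have hMr : ‖γ (t M) - γ (t 0)‖ ≤ M * r := by
      rw [← Finset.sum_range_sub (fun k => γ (t k))]
      refine (norm_sum_le _ _).trans ?_
      have : ∑ i ∈ Finset.range M, ‖γ (t (i + 1)) - γ (t i)‖ = M * r := by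
        rw [Finset.sum_congr rfl (fun i hi => e3 i (Finset.mem_range.1 hi)), Finset.sum_const,
          Finset.card_range, nsmul_eq_mul]
      rw [this]
    rw [hlen]
    have hE := Real.exp_pos (-Λ)
    have h2 : Real.exp (-Λ) / 2 ≤ Real.exp (-Λ) * (3 / 4 * (M * r) +
        1 / 4 * ‖γ (t M) - γ (t 0)‖ - S) := by
      rw [div_eq_mul_one_div]
      apply mul_le_mul_of_nonneg_left _ hE.le
      linarith
    linarith

theorem Sx.median_ge [NeZero d] (X : Sx c x m) (H : (par d x m).Sm c) (hh : IsField K P h)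
    (hK : IsKernel K) (hrS : x ^ 3 + (par d x m).S c ≤ 1 / 2) (i : ℕ) {lam : ℝ}
    (hlam : IsMedian P (fun ω => fdist (x ^ 3) (fun z => h (i * m) z ω) (Box 2 0) 0 (e1 d)) lam) :
    Real.exp (-(i * (4 * (par d x m).ε8 c))) / 2 ≤ lam := by
  by_contra hcon
  push Not at hcon
  have hR : 2 * √d ≤ (x ^ 3)⁻¹ := by
    have hx := X.hx
    rw [le_inv_comm₀ (by have := X.ok.sqd; positivity) (by positivity), ← one_div,
      le_div_iff₀ (by have := X.ok.sqd; positivity)]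
    have h1 := X.x3
    have h2 := X.hx1
    have h3 := X.ok.sqd
    nlinarith
  have hsub : {ω | fdist (x ^ 3) (fun z => h (i * m) z ω) (Box 2 0) 0 (e1 d) ≤ lam} ⊆
      {ω | ¬ Low (x ^ 3) (fun z => bnd h 0 (i * m) z ω) 0 (x ^ 3)⁻¹ (x ^ 3)
      (i * (4 * (par d x m).ε8 c)) ((par d x m).S c)} ∪ {ω | ¬ ∀ z, h 0 z ω = 0} := by
    intro ω hω
    by_contra hn
    rw [mem_union, not_or] at hn
    simp only [mem_setOf_eq, not_not] at hn
    obtain ⟨n1, n2⟩ := hn
    have e1 : (fun z => bnd h 0 (i * m) z ω) = fun z => h (i * m) z ω := by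
      funext z
      unfold bnd
      rw [n2 z, sub_zero]
    rw [e1] at n1
    have h1 := low_fdist (hh.smooth _ ω).continuous hR (by have := X.hx; positivity) hrS n1
    have h2 : fdist (x ^ 3) (fun z => h (i * m) z ω) (Box 2 0) 0 (LogFPP.e1 d) ≤ lam := hω
    linarith
  have h1 := hlam.1
  have h2 := h1.trans ((measure_mono hsub).trans (measure_union_le _ _))
  have h3 : P {ω | ¬ ∀ z, h 0 z ω = 0} = 0 := h0_zero hh
  rw [h3, add_zero] at h2
  have h4 := h2.trans (X.low H hh hK i)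
  have h5 : (1 / 2 : ℝ≥0∞) = ENNReal.ofReal (1 / 2) := by
    rw [ENNReal.ofReal_div_of_pos (by norm_num)]; simp
  rw [h5, ENNReal.ofReal_le_ofReal_iff (by norm_num)] at h4
  norm_num at h4

/-- the bound along multiples of the block length -/
theorem Sx.exponent [NeZero d] (X : Sx c x m) (H : (par d x m).Sm c) (hh : IsField K P h)
    (hK : IsKernel K) (hrS : x ^ 3 + (par d x m).S c ≤ 1 / 2) {Q : ℝ}
    (hQ : IsExponent P h (x ^ 3) Q) :
    1 - x ^ 3 * Q ≤ 4 * (par d x m).ε8 c / (m * Real.log 2) := by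
  have hlog : 0 < Real.log 2 := Real.log_pos (by norm_num)
  have hm := X.m1
  obtain ⟨lam, hlam, o, ho, hexp⟩ := hQ
  set ε := 4 * (par d x m).ε8 c with hε
  have key : ∀ i : ℕ, 1 ≤ i → -(ε / (m * Real.log 2)) - 1 / m * (1 / (i : ℝ)) ≤
      -(1 - x ^ 3 * Q) + o (i * m) / ((i * m : ℕ) : ℝ) := by
    intro i hi
    have hi0 : (0 : ℝ) < i := by exact_mod_cast hi
    have hn1 : 1 ≤ i * m := by have := X.hm; nlinarith
    have h1 := X.median_ge H hh hK hrS i (hlam (i * m) hn1)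
    rw [hexp _ hn1, Real.rpow_def_of_pos (by norm_num)] at h1
    have h2 : Real.exp (-(i * ε)) / 2 = Real.exp (-(i * ε) - Real.log 2) := by
      rw [Real.exp_sub, Real.exp_log (by norm_num)]
    rw [h2, Real.exp_le_exp] at h1
    have hn0 : (0 : ℝ) < ((i * m : ℕ) : ℝ) := by exact_mod_cast hn1
    have h3 : (-(ε / (m * Real.log 2)) - 1 / m * (1 / (i : ℝ))) *
        (Real.log 2 * ((i * m : ℕ) : ℝ)) ≤
        (-(1 - x ^ 3 * Q) + o (i * m) / ((i * m : ℕ) : ℝ)) * (Real.log 2 * ((i * m : ℕ) : ℝ)) := by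
      have e1 : (-(1 - x ^ 3 * Q) + o (i * m) / ((i * m : ℕ) : ℝ)) *
          (Real.log 2 * ((i * m : ℕ) : ℝ)) =
          Real.log 2 * (-(1 - x ^ 3 * Q) * ((i * m : ℕ) : ℝ) + o (i * m)) := by field_simp
      have e2 : (-(ε / (m * Real.log 2)) - 1 / m * (1 / (i : ℝ))) *
          (Real.log 2 * ((i * m : ℕ) : ℝ)) = -(i * ε) - Real.log 2 := by
        push_cast
        have : (m : ℝ) ≠ 0 := by linarith
        field_simp
      rw [e1, e2]; exact h1
    exact le_of_mul_le_mul_right h3 (by positivity)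
  have hsubseq : Tendsto (fun i : ℕ => i * m) atTop atTop := by
    apply tendsto_atTop_mono (fun i => ?_) tendsto_id
    have := X.hm
    show i ≤ i * m
    nlinarith
  have l1 : Tendsto (fun i : ℕ => -(1 - x ^ 3 * Q) + o (i * m) / ((i * m : ℕ) : ℝ)) atTop
      (𝓝 (-(1 - x ^ 3 * Q) + 0)) :=
    tendsto_const_nhds.add (ho.comp hsubseq)
  have l2 : Tendsto (fun i : ℕ => -(ε / (m * Real.log 2)) - 1 / m * (1 / (i : ℝ))) atTop
      (𝓝 (-(ε / (m * Real.log 2)) - 1 / m * 0)) :=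
    tendsto_const_nhds.sub (tendsto_const_nhds.mul tendsto_one_div_atTop_nhds_zero_nat)
  have h3 := le_of_tendsto_of_tendsto l2 l1
    (Filter.eventually_atTop.2 ⟨1, fun n hn => key n hn⟩)
  linarith

end

/-- smallness of the errors from smallness of `m x` -/
theorem exists_kappa (c : VC K) (hd : 1 ≤ d) : ∃ κ : ℝ, 0 < κ ∧ κ ≤ 1 ∧ ∀ x : ℝ, ∀ m : ℕ,
    Sx c x m → m * x ≤ κ → (par d x m).Sm c ∧ x ^ 3 + (par d x m).S c ≤ 1 / 2 := by
  have hT := T0_pos hd
  have hA := c.A_ge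
  have hC := c.C_pos
  set a1 := c.A * T0 d with ha1
  set a2 := T0 d * √(2 * c.C) with ha2
  have ha1p : 0 < a1 := by positivity
  have ha2p : 0 < a2 := by positivity
  have hC8 : 0 < c.C8 := by unfold VC.C8; positivity
  set Sg : ℝ := 1 + 8 * (T0 d + a2) + 32 * a1 + 8 * c.C8 with hS
  have hSp : 0 < Sg := by positivity
  refine ⟨1 / Sg, by positivity, by rw [div_le_one hSp]; linarith [mul_pos (by norm_num : (0:ℝ) < 8) (add_pos hT ha2p)], ?_⟩
  intro x m X hmx
  have hx := X.hx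
  have hm := X.m1
  have h18 := X.x18
  have hsm := X.sm
  have hsq := X.sm_sq
  have hmx0 : 0 < (m : ℝ) * x := by positivity
  rw [le_div_iff₀ hSp] at hmx
  have k1 : (m : ℝ) * x * (8 * (T0 d + a2)) ≤ 1 := by nlinarith
  have k2 : (m : ℝ) * x * (32 * a1) ≤ 1 := by nlinarith
  have k3 : (m : ℝ) * x * (8 * c.C8) ≤ 1 := by nlinarith
  have hsM : √(m : ℝ) ≤ m := by nlinarith
  have hη : (par d x m).η c ≤ 1 / 8 := by
    rw [X.η_eq, ← ha2]
    have e1 : (m : ℝ) * x ^ 3 ≤ m * x := mul_le_mul_of_nonneg_left X.x3 (by positivity)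
    have e2 : √(m : ℝ) * x ^ 6 ≤ m * x := by
      have : x ^ 6 ≤ x ^ 1 := pow_le_pow_of_le_one hx.le (by linarith) (by norm_num)
      rw [pow_one] at this
      gcongr
    calc T0 d * m * x ^ 3 + a2 * √(m : ℝ) * x ^ 6 = T0 d * (m * x ^ 3) + a2 * (√(m : ℝ) * x ^ 6) := by
          ring
      _ ≤ T0 d * (m * x) + a2 * (m * x) := by gcongr
      _ = m * x * (8 * (T0 d + a2)) / 8 := by ring
      _ ≤ 1 / 8 := by linarith
  have hε8 : (par d x m).ε8 c ≤ 1 / 8 := by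
    refine X.ε_le.trans ?_
    have e1 : ((m : ℝ) * x ^ 2) ^ 2 ≤ m * x := by
      have e2 : (m : ℝ) * x ^ 2 ≤ m * x := by nlinarith
      have e3 := X.hmx
      have e4 : 0 ≤ (m : ℝ) * x ^ 2 := by positivity
      nlinarith
    nlinarith
  have hLv : (par d x m).Lv c ≤ 1 / 32 := by
    rw [X.Lv_eq, ← ha1]
    have e2 : (m : ℝ) * x ^ 2 ≤ m * x := by nlinarith
    nlinarith
  have hε3 : (par d x m).ε3 c ≤ (par d x m).ε8 c := by
    have O := X.ok
    have o1 := O.ω_nonneg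
    have o2 := O.Lv_nonneg
    have o3 := O.S_nonneg
    have o4 := O.hr
    have o5 := O.R_pos
    unfold BP.ε8 BP.ε6
    have p1 : 0 ≤ 4 * (par d x m).Lv c ^ 2 := by positivity
    have p2 : 0 ≤ 2 * (par d x m).ω c * (par d x m).S c / (par d x m).r := by positivity
    have p3 : 0 ≤ 4 * ((par d x m).S c + (par d x m).r) / (par d x m).R := by positivity
    have p4 : 0 ≤ (2 * (2 * (par d x m).S c + 2 * (par d x m).r) + 24 * (par d x m).R +
      (par d x m).r) / (par d x m).r * (1 / 2) ^ (par d x m).m := by positivity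
    linarith
  refine ⟨⟨hη, by linarith, hε8⟩, ?_⟩
  rw [X.S_eq, ← ha1]
  have e1 : x ^ 2 ≤ m * x := by nlinarith
  have e2 := X.x3
  nlinarith

/-- **upper bound** -/
theorem upper (hd : 1 ≤ d) [NeZero d] (hK : IsKernel K) :
    ∃ C : ℝ, 0 < C ∧ ∃ ξ0 : ℝ, 0 < ξ0 ∧ ∀ ξ : ℝ, 0 < ξ → ξ < ξ0 →
      ∀ {Ω : Type*} [MeasurableSpace Ω] (P : Measure Ω) (h : ℕ → Pt d → Ω → ℝ), IsField K P h →
      ∀ Q : ℝ, IsExponent P h ξ Q → 1 - ξ * Q ≤ C * (ξ ^ (4 / 3 : ℝ) * Real.log (1 / ξ)) := by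
  obtain ⟨c⟩ := exists_vc hK
  have hlog : 0 < Real.log 2 := Real.log_pos (by norm_num)
  have hT := T0_pos hd
  have hA := c.A_ge
  have hC := c.C_pos
  have hD := c.D_pos
  have hC8 : 0 < c.C8 := by unfold VC.C8; positivity
  have hsd : 1 ≤ √(d : ℝ) := by rw [Real.one_le_sqrt]; exact_mod_cast hd
  obtain ⟨κ, hκ, hκ1, hκ2⟩ := exists_kappa c hd
  obtain ⟨x0, hx0, hx01⟩ : ∃ x0 : ℝ, 0 < x0 ∧ ∀ x : ℝ, 0 < x → x < x0 → 18 * √d * x ≤ 1 ∧
      2 * x ≤ c.D ∧ c.D * x ≤ 1 ∧ 37 * √x ≤ κ := by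
    refine ⟨min (min (1 / (18 * √d)) (c.D / 2)) (min (1 / c.D) ((κ / 37) ^ 2)), by positivity, ?_⟩
    intro x hx hx1
    simp only [lt_min_iff] at hx1
    obtain ⟨⟨h1, h2⟩, h3, h4⟩ := hx1
    refine ⟨?_, by linarith, ?_, ?_⟩
    · rw [lt_div_iff₀ (by positivity)] at h1
      linarith
    · rw [lt_div_iff₀ hD] at h3
      linarith
    · have h5 : √x ≤ κ / 37 := by
        rw [Real.sqrt_le_left (by positivity)]
        exact h4.le
      linarith
  refine ⟨28 * c.C8 / Real.log 2, by positivity, x0 ^ 3, by positivity, ?_⟩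
  intro ξ hξ hξ0 Ω _ P h hh Q hQ
  set x : ℝ := ξ ^ (1 / 3 : ℝ) with hxd
  have hx : 0 < x := by positivity
  have hx3 : x ^ 3 = ξ := by
    rw [hxd, ← Real.rpow_natCast, ← Real.rpow_mul hξ.le]; norm_num
  have hx4 : x ^ 4 = ξ ^ (4 / 3 : ℝ) := by
    rw [hxd, ← Real.rpow_natCast, ← Real.rpow_mul hξ.le]; norm_num
  have hxx0 : x < x0 := by
    by_contra hcon
    push Not at hcon
    have : x0 ^ 3 ≤ x ^ 3 := pow_le_pow_left₀ hx0.le hcon 3
    rw [hx3] at this
    linarith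
  obtain ⟨p1, p2, p3, p4⟩ := hx01 x hx hxx0
  have hx18 : x ≤ 1 / 18 := by nlinarith
  set L : ℝ := Real.log (1 / ξ) with hL
  have hLx : L = 3 * Real.log (1 / x) := by
    rw [hL, ← hx3, one_div, one_div, Real.log_inv, Real.log_inv, Real.log_pow]
    push_cast; ring
  have hL1 : 1 ≤ L := by
    have h1 : 1 ≤ Real.log (1 / x) := by
      rw [Real.le_log_iff_exp_le (by positivity)]
      have h2 := Real.exp_one_lt_d9
      have h3 : 18 ≤ 1 / x := by
        rw [le_div_iff₀ hx]; linarith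
      linarith
    rw [hLx]; linarith
  set m : ℕ := ⌈6 * L⌉₊ with hm
  have hm1 : 6 * L ≤ m := Nat.le_ceil _
  have hm2 : (m : ℝ) < 6 * L + 1 := Nat.ceil_lt_add_one (by positivity)
  have hm7 : (m : ℝ) ≤ 7 * L := by linarith
  have hm0 : 2 ≤ m := by
    have : (2 : ℝ) ≤ m := by linarith
    exact_mod_cast this
  have hmx : (m : ℝ) * x ≤ 37 * √x := by
    set s := √x with hs
    have hsp : 0 < s := Real.sqrt_pos.2 hx
    have hs2 : s ^ 2 = x := Real.sq_sqrt hx.le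
    have hs1 : s ≤ 1 := by
      rw [hs, Real.sqrt_le_left (by norm_num)]; linarith
    have h1 : Real.log (1 / x) ≤ 2 * (1 / s) := by
      have h2 : Real.log (1 / x) = 2 * Real.log (1 / s) := by
        rw [← hs2, one_div, one_div, Real.log_inv, Real.log_inv, Real.log_pow]
        push_cast; ring
      rw [h2]
      have h3 := Real.log_le_sub_one_of_pos (show 0 < 1 / s by positivity)
      linarith
    have h2 : (m : ℝ) ≤ 36 * (1 / s) + 1 := by
      rw [hLx] at hm2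
      linarith
    calc (m : ℝ) * x ≤ (36 * (1 / s) + 1) * s ^ 2 := by rw [hs2]; gcongr
      _ = 36 * s + s * s := by field_simp
      _ ≤ 37 * s := by nlinarith
  have hw : (x ^ 12)⁻¹ ≤ 2 ^ m := by
    have h1 : (x ^ 12)⁻¹ = Real.exp (4 * L) := by
      have h2 : x ^ 12 = Real.exp (-(4 * L)) := by
        have h3 : x ^ 12 = ξ ^ 4 := by rw [← hx3]; ring
        have h4 : ξ = Real.exp (-L) := by
          rw [hL, one_div, Real.log_inv, neg_neg, Real.exp_log hξ]
        rw [h3]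
        conv_lhs => rw [h4]
        rw [← Real.exp_nat_mul]
        congr 1
        push_cast; ring
      rw [h2, Real.exp_neg, inv_inv]
    have h2 : (2 : ℝ) ^ m = Real.exp (m * Real.log 2) := by
      rw [Real.exp_nat_mul, Real.exp_log (by norm_num)]
    rw [h1, h2, Real.exp_le_exp]
    have h3 := Real.log_two_gt_d9
    nlinarith
  have X : Sx c x m := ⟨hd, hx, hm0, p1, p2, p3, (hmx.trans p4).trans hκ1, hw⟩
  obtain ⟨H, hrS⟩ := hκ2 x m X (hmx.trans p4)
  rw [← hx3] at hQ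
  have hfin := X.exponent H hh hK hrS hQ
  rw [hx3] at hfin
  refine hfin.trans ?_
  have hm0' : (0 : ℝ) < m := by linarith
  rw [div_le_iff₀ (by positivity), ← hx4]
  have h1 := X.ε_le
  have h2 : (m : ℝ) * (m * x ^ 4) ≤ 7 * L * (m * x ^ 4) :=
    mul_le_mul_of_nonneg_right hm7 (by positivity)
  have h3 : 28 * c.C8 / Real.log 2 * (x ^ 4 * L) * (m * Real.log 2) =
      4 * (c.C8 * (7 * L * (m * x ^ 4))) := by field_simp; ring
  have h4 : ((m : ℝ) * x ^ 2) ^ 2 = m * (m * x ^ 4) := by ring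
  rw [h4] at h1
  rw [h3]
  have h5 := mul_le_mul_of_nonneg_left h2 hC8.le
  linarith

end Pool.Agent.Helper97.LogFPP
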