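import Pool.Agent.Helper97.LogFPP.Band

set_option autoImplicit false
set_option maxHeartbeats 400000

open MeasureTheory ProbabilityTheory Set Filter Topology
open scoped NNReal ENNReal RealInnerProductSpace

namespace Pool.Agent.Helper97.LogFPP

section general
variable {Ω : Type*} {mΩ : MeasurableSpace Ω} {P : Measure Ω} [IsProbabilityMeasure P]

theorem cov_abs_le {X Y : Ω → ℝ} (hX : MemLp X 2 P) (hY : MemLp Y 2 P) :
    |cov[X, Y; P]| ≤ (Var[X; P] + Var[Y; P]) / 2 := by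
  have h1 := variance_add hX hY
  have h2 := variance_sub hX hY
  have h3 := variance_nonneg (X + Y) P
  have h4 := variance_nonneg (X - Y) P
  rw [abs_le]
  constructor <;> linarith

theorem var_add_le {X Y : Ω → ℝ} (hX : MemLp X 2 P) (hY : MemLp Y 2 P) :
    Var[X + Y; P] ≤ 2 * (Var[X; P] + Var[Y; P]) := by
  have h1 := variance_add hX hY
  have h2 := abs_le.1 (cov_abs_le hX hY)
  linarith

theorem var_sum_le {ι : Type*} (s : Finset ι) {X : ι → Ω → ℝ} (hX : ∀ i ∈ s, MemLp (X i) 2 P)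
    {σ2 : ℝ} (hv : ∀ i ∈ s, Var[X i; P] ≤ σ2) :
    Var[∑ i ∈ s, X i; P] ≤ (s.card : ℝ) ^ 2 * σ2 := by
  rw [variance_sum' hX]
  have h1 : ∀ i ∈ s, ∀ j ∈ s, cov[X i, X j; P] ≤ σ2 := by
    intro i hi j hj
    have h2 := (abs_le.1 (cov_abs_le (hX i hi) (hX j hj))).2
    have := hv i hi
    have := hv j hj
    linarith
  calc ∑ i ∈ s, ∑ j ∈ s, cov[X i, X j; P] ≤ ∑ i ∈ s, ∑ j ∈ s, σ2 :=
        Finset.sum_le_sum fun i hi => Finset.sum_le_sum fun j hj => h1 i hi j hj
    _ = (s.card : ℝ) ^ 2 * σ2 := by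
        rw [Finset.sum_const, Finset.sum_const, nsmul_eq_mul, nsmul_eq_mul]; ring

theorem var_range_le {n H : ℕ} {X : ℕ → Ω → ℝ} (hX : ∀ i < n, MemLp (X i) 2 P)
    {σ2 : ℝ} (hσ : 0 ≤ σ2) (hv : ∀ i < n, Var[X i; P] ≤ σ2)
    (hc : ∀ i < n, ∀ j < n, (i + H ≤ j ∨ j + H ≤ i) → cov[X i, X j; P] = 0) :
    Var[∑ i ∈ Finset.range n, X i; P] ≤ n * (2 * H) * σ2 := by
  classical
  rw [variance_sum' fun i hi => hX i (Finset.mem_range.1 hi)]
  have h1 : ∀ i ∈ Finset.range n, ∑ j ∈ Finset.range n, cov[X i, X j; P] ≤ (2 * H) * σ2 := by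
    intro i hi
    have hi' := Finset.mem_range.1 hi
    set T := (Finset.range n).filter (fun j => i < j + H ∧ j < i + H) with hT
    have h2 : ∑ j ∈ Finset.range n, cov[X i, X j; P] = ∑ j ∈ T, cov[X i, X j; P] := by
      rw [hT, Finset.sum_filter]
      apply Finset.sum_congr rfl
      intro j hj
      split_ifs with h
      · rfl
      · apply hc i hi' j (Finset.mem_range.1 hj)
        by_contra hcon
        push Not at hcon
        exact h ⟨hcon.2, hcon.1⟩
    rw [h2]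
    have h3 : ∀ j ∈ T, cov[X i, X j; P] ≤ σ2 := by
      intro j hj
      have hj' := Finset.mem_range.1 (Finset.mem_filter.1 hj).1
      have h2 := (abs_le.1 (cov_abs_le (hX i hi') (hX j hj'))).2
      have := hv i hi'
      have := hv j hj'
      linarith
    refine (Finset.sum_le_sum h3).trans ?_
    rw [Finset.sum_const, nsmul_eq_mul]
    apply mul_le_mul_of_nonneg_right _ hσ
    have h4 : T ⊆ Finset.Ico (i + 1 - H) (i + H) := by
      intro j hj
      have := (Finset.mem_filter.1 hj).2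
      rw [Finset.mem_Ico]
      omega
    have h5 := Finset.card_le_card h4
    rw [Nat.card_Ico] at h5
    have h6 : T.card ≤ 2 * H := by omega
    exact_mod_cast h6
  refine (Finset.sum_le_sum h1).trans ?_
  rw [Finset.sum_const, Finset.card_range, nsmul_eq_mul]
  apply le_of_eq; ring

end general

variable {d : ℕ} {K : Pt d → ℝ} {Ω : Type*} {mΩ : MeasurableSpace Ω} {P : Measure Ω}
  {h : ℕ → Pt d → Ω → ℝ}

/-- Gaussian tail -/
theorem tail_one (hh : IsField K P h) {X : Ω → ℝ} (hX : X ∈ HS h) {σ t : ℝ} (hσ : 0 < σ)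
    (ht : 0 ≤ t) (hv : Var[X; P] ≤ σ ^ 2) :
    P {ω | t * σ < X ω} ≤ ENNReal.ofReal (Real.exp (-(t ^ 2 / 2))) := by
  have := hh.gaussian.isProbabilityMeasure
  set l : ℝ := t / σ with hl
  have hl0 : 0 ≤ l := by positivity
  have h1 := LS_lexp hh.gaussian (fun p => hh.mean p.1 p.2) hX l
  have h2 : ENNReal.ofReal (Real.exp (l * (t * σ))) * P {ω | ENNReal.ofReal (Real.exp (l * (t * σ)))
      ≤ ENNReal.ofReal (Real.exp (l * X ω))} ≤ ∫⁻ ω, ENNReal.ofReal (Real.exp (l * X ω)) ∂P := by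
    apply mul_meas_ge_le_lintegral
    have := HS_measurable hh hX
    fun_prop
  have h3 : P {ω | t * σ < X ω} ≤ P {ω | ENNReal.ofReal (Real.exp (l * (t * σ)))
      ≤ ENNReal.ofReal (Real.exp (l * X ω))} := by
    apply measure_mono
    intro ω hω
    simp only [mem_setOf_eq] at *
    exact ENNReal.ofReal_le_ofReal (Real.exp_le_exp.2 (mul_le_mul_of_nonneg_left hω.le hl0))
  rw [h1] at h2
  have h4 : ENNReal.ofReal (Real.exp (l * (t * σ))) * P {ω | t * σ < X ω} ≤
      ENNReal.ofReal (Real.exp (l ^ 2 * Var[X; P] / 2)) := (mul_le_mul_right h3 _).trans h2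
  have h5 : l * (t * σ) = t ^ 2 := by rw [hl]; field_simp
  have h6 : l ^ 2 * Var[X; P] / 2 ≤ t ^ 2 / 2 := by
    have h7 : l ^ 2 * Var[X; P] ≤ l ^ 2 * σ ^ 2 := mul_le_mul_of_nonneg_left hv (sq_nonneg _)
    have h8 : l ^ 2 * σ ^ 2 = t ^ 2 := by rw [hl]; field_simp
    linarith
  rw [h5] at h4
  have h7 : ENNReal.ofReal (Real.exp (t ^ 2)) * P {ω | t * σ < X ω} ≤
      ENNReal.ofReal (Real.exp (t ^ 2)) * ENNReal.ofReal (Real.exp (-(t ^ 2 / 2))) := by
    refine h4.trans ?_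
    rw [← ENNReal.ofReal_mul (Real.exp_pos _).le, ← Real.exp_add]
    apply ENNReal.ofReal_le_ofReal
    apply Real.exp_le_exp.2
    linarith
  exact (ENNReal.mul_le_mul_iff_right (by positivity) ENNReal.ofReal_ne_top).1 h7

theorem tail (hh : IsField K P h) {X : Ω → ℝ} (hX : X ∈ HS h) {σ t : ℝ} (hσ : 0 ≤ σ)
    (ht : 0 ≤ t) (hv : Var[X; P] ≤ σ ^ 2) :
    P {ω | t * σ < |X ω|} ≤ ENNReal.ofReal (2 * Real.exp (-(t ^ 2 / 2))) := by
  have := hh.gaussian.isProbabilityMeasure
  rcases hσ.eq_or_lt with h0 | h0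
  · -- degenerate case
    rw [← h0, mul_zero]
    have h1 : Var[X; P] = 0 := le_antisymm (by rw [← h0] at hv; simpa using hv) (variance_nonneg _ _)
    have h2 : P {ω | 0 < |X ω|} = 0 := by
      have h3 := LS_map hh.gaussian (fun p => hh.mean p.1 p.2) hX
      rw [h1, Real.toNNReal_zero, gaussianReal_zero_var] at h3
      have hm := HS_measurable hh hX
      have h4 : P.map X {x | 0 < |x|} = 0 := by
        rw [h3]
        rw [Measure.dirac_apply' _ (by measurability)]
        simp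
      rw [Measure.map_apply hm (by measurability)] at h4
      exact h4
    rw [h2]; exact bot_le
  · have h1 := tail_one hh hX h0 ht hv
    have h2 := tail_one hh (Submodule.neg_mem _ hX) h0 ht (by rw [variance_neg]; exact hv)
    have h3 : {ω | t * σ < |X ω|} ⊆ {ω | t * σ < X ω} ∪ {ω | t * σ < (-X) ω} := by
      intro ω hω
      simp only [mem_setOf_eq, lt_abs] at hω
      exact hω
    refine (measure_mono h3).trans ((measure_union_le _ _).trans ?_)
    rw [two_mul, ENNReal.ofReal_add (Real.exp_pos _).le (Real.exp_pos _).le]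
    exact add_le_add h1 h2

/-- quadratic behaviour of the autocorrelation at the origin -/
theorem acf_quad (hK : IsKernel K) : ∃ C : ℝ, 0 < C ∧ ∀ z, 1 - acf K z ≤ C * ‖z‖ ^ 2 := by
  have hc := hK.hasCompactSupport
  obtain ⟨L, hL⟩ := ContDiff.lipschitzWith_of_hasCompactSupport hc hK.smooth (by simp)
  obtain ⟨R, hR⟩ := hc.isCompact.isBounded.subset_closedBall (0 : Pt d)
  set vol : ℝ := volume.real (Metric.closedBall (0 : Pt d) (|R| + 1)) with hvol
  have hvol0 : 0 ≤ vol := measureReal_nonneg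
  refine ⟨L ^ 2 * vol + 1, by positivity, fun z => ?_⟩
  by_cases hz : 1 ≤ ‖z‖
  · have h1 := acf_nonneg hK z
    have h2 : 1 ≤ ‖z‖ ^ 2 := one_le_pow₀ hz
    have h3 : 0 ≤ L ^ 2 * vol * ‖z‖ ^ 2 := by positivity
    nlinarith
  push Not at hz
  have e1 : ∫ v, (K (v + z) - K v) ^ 2 = 2 * (1 - acf K z) := by
    have : ∀ v, (K (v + z) - K v) ^ 2 = (K (v + z) ^ 2 + K v ^ 2) - 2 * (K v * K (v + z)) := by
      intro v; ring
    simp_rw [this]
    have i1 : Integrable (fun v => K (v + z) ^ 2) := hK.integrable_sq.comp_add_right z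
    have i2 : Integrable (fun v => K (v + z) ^ 2 + K v ^ 2) := i1.add hK.integrable_sq
    have i3 : Integrable (fun v => 2 * (K v * K (v + z))) := (hK.integrable_prod z).const_mul 2
    rw [integral_sub i2 i3, integral_add i1 hK.integrable_sq,
      integral_add_right_eq_self (fun v => K v ^ 2) z, hK.norm, integral_const_mul]
    unfold acf; ring
  have e2 : ∫ v, (K (v + z) - K v) ^ 2 ≤ L ^ 2 * ‖z‖ ^ 2 * vol := by
    have h1 : ∀ v, (K (v + z) - K v) ^ 2 ≤
        (Metric.closedBall (0 : Pt d) (|R| + 1)).indicator (fun _ => (L : ℝ) ^ 2 * ‖z‖ ^ 2) v := by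
      intro v
      by_cases hv : v ∈ Metric.closedBall (0 : Pt d) (|R| + 1)
      · rw [indicator_of_mem hv]
        have h2 := hL.dist_le_mul (v + z) v
        rw [dist_eq_norm, dist_eq_norm, add_sub_cancel_left] at h2
        have h3 : ‖K (v + z) - K v‖ ^ 2 ≤ (L * ‖z‖) ^ 2 := pow_le_pow_left₀ (norm_nonneg _) h2 2
        rw [Real.norm_eq_abs, sq_abs] at h3
        linarith [mul_pow (L : ℝ) ‖z‖ 2]
      · rw [indicator_of_notMem hv]
        rw [mem_closedBall_zero_iff, not_le] at hv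
        have h4 : K v = 0 := by
          by_contra h5
          have := hR (subset_tsupport _ (Function.mem_support.2 h5))
          rw [mem_closedBall_zero_iff] at this
          have := le_abs_self R
          linarith
        have h5 : K (v + z) = 0 := by
          by_contra h6
          have h7 := hR (subset_tsupport _ (Function.mem_support.2 h6))
          rw [mem_closedBall_zero_iff] at h7
          have h8 : ‖v‖ ≤ ‖v + z‖ + ‖z‖ := by
            have : v = (v + z) - z := by abel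
            calc ‖v‖ = ‖(v + z) - z‖ := by rw [← this]
              _ ≤ _ := norm_sub_le _ _
          have := le_abs_self R
          linarith
        rw [h4, h5]; norm_num
    have h2 : ∫ v, (K (v + z) - K v) ^ 2 ≤
        ∫ v, (Metric.closedBall (0 : Pt d) (|R| + 1)).indicator
          (fun _ => (L : ℝ) ^ 2 * ‖z‖ ^ 2) v := by
      apply integral_mono_of_nonneg (ae_of_all _ fun v => sq_nonneg _)
      · rw [integrable_indicator_iff measurableSet_closedBall]
        exact integrableOn_const (by exact measure_closedBall_lt_top.ne)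
      · exact ae_of_all _ h1
    refine h2.trans ?_
    rw [integral_indicator measurableSet_closedBall, setIntegral_const, smul_eq_mul]
    apply le_of_eq; rw [hvol]; ring
  have h3 : 0 ≤ ‖z‖ ^ 2 := sq_nonneg _
  have h4 : (L : ℝ) ^ 2 * ‖z‖ ^ 2 * vol ≤ (L ^ 2 * vol + 1) * ‖z‖ ^ 2 * 1 := by nlinarith
  have h5 : 0 ≤ (L ^ 2 * vol + 1) * ‖z‖ ^ 2 := by positivity
  linarith

theorem integral_inv_cube {a b : ℝ} (ha : 0 < a) (hab : a ≤ b) :
    ∫ t in Ioc a b, (t ^ 3)⁻¹ ≤ a⁻¹ ^ 2 := by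
  rw [← intervalIntegral.integral_of_le hab]
  have h1 : ∀ x ∈ uIcc a b, HasDerivAt (fun t : ℝ => -(1 / 2) * (t ^ 2)⁻¹) ((x ^ 3)⁻¹) x := by
    intro x hx
    rw [uIcc_of_le hab] at hx
    have hx0 : 0 < x := lt_of_lt_of_le ha hx.1
    have h2 := ((hasDerivAt_pow 2 x).inv (by positivity)).const_mul (-(1 / 2) : ℝ)
    have hx1 : x ≠ 0 := hx0.ne'
    have h3 : (x ^ 3)⁻¹ = -(1 / 2) * (-(((2 : ℕ) : ℝ) * x ^ (2 - 1)) / (x ^ 2) ^ 2) := by
      push_cast
      norm_num
      field_simp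
    rw [h3]
    exact h2
  have h2 : IntervalIntegrable (fun t : ℝ => (t ^ 3)⁻¹) volume a b := by
    apply ContinuousOn.intervalIntegrable
    rw [uIcc_of_le hab]
    apply ContinuousOn.inv₀ (by fun_prop)
    intro x hx
    have : 0 < x := lt_of_lt_of_le ha hx.1
    positivity
  rw [intervalIntegral.integral_eq_sub_of_hasDerivAt h1 h2]
  have h3 : 0 ≤ (b ^ 2)⁻¹ := by positivity
  have h4 : (a ^ 2)⁻¹ = a⁻¹ ^ 2 := (inv_pow a 2).symm
  have h5 : 0 ≤ a⁻¹ ^ 2 := sq_nonneg _
  rw [h4]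
  linarith

theorem Kb_quad (hK : IsKernel K) {C : ℝ} (hC0 : 0 < C) (hC : ∀ z, 1 - acf K z ≤ C * ‖z‖ ^ 2)
    {a b : ℕ} (hab : a ≤ b) (z : Pt d) :
    Kb K a b 0 - Kb K a b z ≤ C * ‖z‖ ^ 2 * (2 ^ b) ^ 2 := by
  have h0 := half_pow_pos b
  have hle := half_pow_le hab
  unfold Kb
  rw [← integral_sub (integrableOn_scale hK 0 h0) (integrableOn_scale hK z h0)]
  have hint : IntegrableOn (fun t : ℝ => (t ^ 3)⁻¹) (Ioc ((1 / 2 : ℝ) ^ b) ((1 / 2) ^ a)) := by
    apply IntegrableOn.mono_set _ Ioc_subset_Icc_self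
    apply ContinuousOn.integrableOn_Icc
    apply ContinuousOn.inv₀ (by fun_prop)
    intro x hx
    have : 0 < x := lt_of_lt_of_le h0 hx.1
    positivity
  have h1 : ∫ t in Ioc ((1 / 2 : ℝ) ^ b) ((1 / 2) ^ a),
      (t⁻¹ * acf K (t⁻¹ • 0) - t⁻¹ * acf K (t⁻¹ • z)) ≤
      ∫ t in Ioc ((1 / 2 : ℝ) ^ b) ((1 / 2) ^ a), C * ‖z‖ ^ 2 * (t ^ 3)⁻¹ := by
    apply setIntegral_mono_on ((integrableOn_scale hK 0 h0).sub (integrableOn_scale hK z h0))
      (hint.const_mul _) measurableSet_Ioc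
    intro t ht
    have ht0 : 0 < t := lt_trans h0 ht.1
    simp only [Pi.sub_apply]
    rw [smul_zero, acf_zero hK, ← mul_sub]
    have h2 := hC (t⁻¹ • z)
    rw [norm_smul, Real.norm_of_nonneg (inv_nonneg.2 ht0.le)] at h2
    have h3 := mul_le_mul_of_nonneg_left h2 (inv_nonneg.2 ht0.le)
    refine h3.trans (le_of_eq ?_)
    field_simp
  refine h1.trans ?_
  rw [integral_const_mul]
  apply mul_le_mul_of_nonneg_left _ (by positivity)
  refine (integral_inv_cube h0 hle).trans (le_of_eq ?_)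
  congr 1
  rw [one_div, inv_pow, inv_inv]

theorem var_bnd_sub (hh : IsField K P h) (hK : IsKernel K) {C : ℝ} (hC0 : 0 < C)
    (hC : ∀ z, 1 - acf K z ≤ C * ‖z‖ ^ 2) {a b : ℕ} (hab : a ≤ b) (x y : Pt d) :
    Var[bnd h a b x - bnd h a b y; P] ≤ 2 * C * ‖x - y‖ ^ 2 * (2 ^ b) ^ 2 := by
  have := hh.gaussian.isProbabilityMeasure
  have m1 := LS_memLp hh.gaussian (bnd_mem (h := h) a b x)
  have m2 := LS_memLp hh.gaussian (bnd_mem (h := h) a b y)
  rw [variance_sub m1 m2, ← covariance_self m1.aemeasurable, ← covariance_self m2.aemeasurable,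
    hh.cov_bnd_same hK hab, hh.cov_bnd_same hK hab, hh.cov_bnd_same hK hab, sub_self, sub_self]
  have := Kb_quad hK hC0 hC hab (x - y)
  linarith

end Pool.Agent.Helper97.LogFPP
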